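import Mathlib
import Pool.Agent.NH5.PR.Stm
import Pool.Agent.Y687.JQ.Stm

/-!
# Project PJ (helper4): the JOINT law of the kernels, all types of primes

`D` runs over the squarefree numbers prime to `14 b`, `D = r mod 8`, with `#A(D) - #B(D) = v` (types of
prime factors as in project PR), `m 0, …, m (M - 1)` are different sets of primes dividing `b`. The
numbers of solutions `nk f (S ∪ m i)` of the linear systems of `D ∏ (m i)`, `S` the set of the prime factors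
of `D`, are powers of two; asymptotically they are independent, and the number for `i` is `2 ^ r` with
probability `law (v + dlt (m i)) r`, the law of the corank of a large random matrix over `𝔽₂` with
`v + dlt (m i)` more columns than rows. Statements of the parts; the templates are the projects PR
(`Pool.Agent.NH5.PR`) and JQ (`Pool.Agent.Y687.JQ`, `Y697.JQ`, `Y362.JQ`).
-/

set_option autoImplicit false
set_option linter.unusedVariables false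

open scoped Classical

namespace Pool.Agent.NH4.PJ

open Finset
open Pool.Agent.NH1 (sq2 sq7 sS sI sA sB)
open Pool.Agent.Y703.CX (sm la jj XX eL zz kk S_SIE)
open Pool.Agent.Y703.CQ (nr sg prs HB S_EQ S_MER S_CHE)
open Pool.Agent.Y687.JQ (S_JMER)
open Pool.Agent.NH5.PR (Ok AA Sol Gd eta S_BIL S_ETA ex2 Nd CntP S_HAL S_BAD S_LOW)

/-! ### the class and the events -/

/-- the difference of the numbers of the elements of type `A` and `B` -/
def dlt (S : Finset ℕ) : ℤ := ((sA S).card : ℤ) - (sB S).card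

/-- the class of the sets of primes -/
def Cl (b r : ℕ) (v : ℤ) (S : Finset ℕ) : Prop :=
  (∀ p ∈ S, p.Prime ∧ ¬ p ∣ 14 * b) ∧ dlt S = v ∧ (∏ p ∈ S, p) % 8 = r

/-- the sets of the class with product at most `X` -/
noncomputable def SS (b r : ℕ) (v : ℤ) (X : ℕ) : Finset (Finset ℕ) :=
  (range (X + 1)).powerset.filter fun S => Cl b r v S ∧ ∏ p ∈ S, p ≤ X

/-- the number of the solutions of the system (of the subsets whose indicator is a solution) -/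
noncomputable def nk (f : ℕ → ZMod 2) (S : Finset ℕ) : ℕ :=
  (S.powerset.filter fun T => Sol f S fun p => if p ∈ T then 1 else 0).card

/-- the masks: different sets of primes dividing `b` -/
def OkM {M : ℕ} (b : ℕ) (m : Fin M → Finset ℕ) : Prop :=
  Function.Injective m ∧ ∀ i, ∀ u ∈ m i, u.Prime ∧ u ≠ 2 ∧ u ≠ 7 ∧ u ∣ b

/-- the union of the masks -/
noncomputable def Wm {M : ℕ} (m : Fin M → Finset ℕ) : Finset ℕ := univ.biUnion m

/-- the event -/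
def Ev {M : ℕ} (f : ℕ → ZMod 2) (m : Fin M → Finset ℕ) (rr : Fin M → ℕ) (S : Finset ℕ) : Prop :=
  ∀ i, nk f (S ∪ m i) = 2 ^ rr i

/-- the law of the corank `r` for `δ` more columns than rows -/
noncomputable def law (δ : ℤ) (r : ℕ) : ℝ :=
  (2 : ℝ) ^ ((r : ℤ) * δ - (r : ℤ) ^ 2) / (∏ i ∈ range r, (1 - (1 / 2 : ℝ) ^ (i + 1))) *
    ∏' i : ℕ, (1 - (2 : ℝ) ^ (δ - (r : ℤ) - ((i : ℤ) + 1)))

/-- FINAL, for sets of primes -/
def S_JDQ : Prop := ∀ (M b r : ℕ) (v : ℤ) (f : ℕ → ZMod 2) (m : Fin M → Finset ℕ)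
  (rr : Fin M → ℕ), Ok b r → OkM b m → Filter.Tendsto
    (fun X : ℕ => (((SS b r v X).filter (Ev f m rr)).card : ℝ) / ((SS b r v X).card : ℝ))
    Filter.atTop (nhds (∏ i, law (v + dlt (m i)) (rr i)))

/-- FINAL, for numbers -/
def S_JDEN : Prop := ∀ (M b r : ℕ) (v : ℤ) (f : ℕ → ZMod 2) (m : Fin M → Finset ℕ)
  (rr : Fin M → ℕ), Ok b r → OkM b m → Filter.Tendsto
    (fun X : ℕ => (((Icc 1 X).filter fun D => Squarefree D ∧ Cl b r v D.primeFactors ∧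
        Ev f m rr D.primeFactors).card : ℝ) /
      (((Icc 1 X).filter fun D => Squarefree D ∧ Cl b r v D.primeFactors).card : ℝ))
    Filter.atTop (nhds (∏ i, law (v + dlt (m i)) (rr i)))

/-! ### from the moments to the law -/

/-- for a power of two `N = 2 ^ κ`: the number of the linearly independent `k`-tuples in a space with `N`
elements -/
def inj (k N : ℕ) : ℝ := ∏ j ∈ range k, ((N : ℝ) - 2 ^ j)

/-- PJ-LAW: simple facts on the law -/
structure LawP : Prop where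
  nonneg : ∀ (δ : ℤ) (r : ℕ), 0 ≤ law δ r
  le_one : ∀ (δ : ℤ) (r : ℕ), law δ r ≤ 1
  zero : law 0 0 = eta
  zero_of_lt : ∀ (δ : ℤ) (r : ℕ), (r : ℤ) < δ → law δ r = 0
  pos : ∀ (δ : ℤ) (r : ℕ), δ ≤ r → 0 < law δ r

/-- PJ-ABS: the joint law from the mixed moments -/
def S_ABS : Prop := ∀ (M v0 : ℕ) (rr : Fin M → ℕ) (ε : ℝ), 0 < ε → ∃ (n : ℕ) (θ : ℝ), 0 < θ ∧
  ∀ (Ω : Type) [Fintype Ω] [Nonempty Ω] (N : Fin M → Ω → ℕ) (δ : Fin M → ℤ),
  (∀ i ω, ∃ κ : ℕ, N i ω = 2 ^ κ) → (∀ i, |δ i| ≤ v0) →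
  (∀ k : Fin M → ℕ, (∀ i, k i ≤ n) →
    |(∑ ω, ∏ i, inj (k i) (N i ω)) / (Fintype.card Ω : ℝ) - ∏ i, (2 : ℝ) ^ ((k i : ℤ) * δ i)| ≤ θ) →
  |((univ.filter fun ω => ∀ i, N i ω = 2 ^ rr i).card : ℝ) / (Fintype.card Ω : ℝ) -
    ∏ i, law (δ i) (rr i)| ≤ ε

/-! ### the linear algebra -/

/-- the data of a system of linear equations with a random part; `UR`, `JR` are the rows, `UC`, `JC` the
columns -/
structure Dat (U J : Type) where
  UR : Finset U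
  UC : Finset U
  JR : Finset J
  JC : Finset J
  t : J → J → ZMod 2
  A : U → U → ZMod 2
  B : U → J → ZMod 2
  C : J → U → ZMod 2
  f : U → ZMod 2
  g : J → ZMod 2

section dat

variable {U J : Type} [Fintype U] [Fintype J] [LinearOrder J]

/-- the supports and the small rows, for the mask `mm` -/
def Sml (d : Dat U J) (mm : Finset U) (x : U → ZMod 2) (y : J → ZMod 2) : Prop :=
  (∀ u, u ∉ d.UC → x u = 0) ∧ (∀ u, u ∉ mm → x u = 0) ∧ (∀ k, k ∉ d.JC → y k = 0) ∧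
  ∀ u ∈ d.UR, u ∈ mm →
    ∑ v ∈ mm, d.A u v * (x v + x u) + ∑ l, d.B u l * (y l + x u) + d.f u * x u = 0

/-- the large rows -/
def Lrg (d : Dat U J) (mm : Finset U) (α : prs (univ : Finset J) → ZMod 2) (x : U → ZMod 2)
    (y : J → ZMod 2) : Prop :=
  ∀ k ∈ d.JR, ∑ u ∈ mm, d.C k u * (x u + y k) + ∑ l, ex2 d.t α k l * (y l + y k) + d.g k * y k = 0

/-- the number of the solutions -/
noncomputable def nkM (d : Dat U J) (mm : Finset U) (α : prs (univ : Finset J) → ZMod 2) : ℕ :=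
  (univ.filter fun z : (U → ZMod 2) × (J → ZMod 2) => Sml d mm z.1 z.2 ∧ Lrg d mm α z.1 z.2).card

/-- the conditions on the data -/
structure Dat.Good {M : ℕ} (d : Dat U J) (m : Fin M → Finset U) (δ : Fin M → ℤ) : Prop where
  dim : ∀ i, ((d.UC ∩ m i).card : ℤ) + d.JC.card = (d.UR ∩ m i).card + d.JR.card + δ i
  free : ∃ l, l ∉ d.JR ∧ l ∉ d.JC
  nC : ∀ w : U → ZMod 2, (∃ u, w u ≠ 0) → ∃ k ∈ d.JR, k ∈ d.JC ∧ ∑ u, w u * d.C k u ≠ 0
  nB : ∀ w : U → ZMod 2, (∃ u, w u ≠ 0) → ∃ k ∈ d.JR, k ∈ d.JC ∧ ∑ u, w u * d.B u k ≠ 0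

/-- the indices of the large rows and columns which separate two masks -/
noncomputable def sepJ {M : ℕ} (d : Dat U J) (m : Fin M → Finset U) (i j : Fin M) : Finset J :=
  (d.JR ∩ d.JC).filter fun k => ∑ u ∈ m i, d.C k u + ∑ u ∈ m j, d.C k u ≠ 0

end dat

/-- PJ-POW: the numbers of solutions are powers of two -/
def S_POW : Prop := ∀ (U J : Type) [Fintype U] [Fintype J] [LinearOrder J] (d : Dat U J)
  (mm : Finset U) (α : prs (univ : Finset J) → ZMod 2), ∃ κ : ℕ, nkM d mm α = 2 ^ κ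

/-- the dependencies between the large rows, for a family `y` of `Σ`-tuples of vectors -/
def Dep {J S : Type} [Fintype J] [Fintype S] (JR : Finset J) (y : J → S → ZMod 2)
    (c : J → S → ZMod 2) : Prop :=
  (∀ k, k ∉ JR → c k = 0) ∧ (∀ k, ∑ s, c k s * y k s = 0) ∧
    ∀ k l, ∑ s, c k s * y l s = ∑ s, c l s * y k s

/-- PJ-M1: the number of the completions for which a given family satisfies the large rows -/
def S_M1 : Prop := ∀ (J S : Type) [Fintype J] [LinearOrder J] [Fintype S] (JR : Finset J)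
  (t : J → J → ZMod 2) (y c0 : J → S → ZMod 2), (∃ l, l ∉ JR ∧ y l = 0) →
  (univ.filter fun α : prs (univ : Finset J) → ZMod 2 => ∀ k ∈ JR, ∀ s,
      c0 k s + ∑ l, ex2 t α k l * (y l s + y k s) = 0).card * 2 ^ (JR.card * Fintype.card S) ≤
    2 ^ (prs (univ : Finset J)).card * (univ.filter fun c : J → S → ZMod 2 => Dep JR y c).card ∧
  ((∀ c : J → S → ZMod 2, Dep JR y c → c = 0) →
    (univ.filter fun α : prs (univ : Finset J) → ZMod 2 => ∀ k ∈ JR, ∀ s,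
      c0 k s + ∑ l, ex2 t α k l * (y l s + y k s) = 0).card * 2 ^ (JR.card * Fintype.card S) =
    2 ^ (prs (univ : Finset J)).card)

/-- the space spanned by the rows of a family -/
noncomputable def rs {J S : Type} (y : J → S → ZMod 2) (Q : Set J) : Submodule (ZMod 2) (S → ZMod 2) :=
  Submodule.span (ZMod 2) (y '' Q)

/-- PJ-M2: the number of the dependencies -/
def S_M2 : Prop := ∀ (J S : Type) [Fintype J] [Fintype S] (JR : Finset J)
  (y : J → S → ZMod 2),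
  (univ.filter fun c : J → S → ZMod 2 => Dep JR y c).card *
      Nat.card (rs y Set.univ) ^ JR.card ≤ 2 ^ (Fintype.card S ^ 2 + Fintype.card S * JR.card) ∧
  (rs y {l | l ∉ JR} = ⊤ → ∀ c : J → S → ZMod 2, Dep JR y c → c = 0)

/-- PJ-M3: the number of the solutions of the small rows -/
def S_M3 : Prop := ∀ (U J : Type) [Fintype U] [Fintype J] [LinearOrder J] (d : Dat U J)
  (mm : Finset U),
  (∀ w : U → ZMod 2, (∃ u, w u ≠ 0) → ∃ k ∈ d.JR, k ∈ d.JC ∧ ∑ u, w u * d.B u k ≠ 0) →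
  (univ.filter fun z : (U → ZMod 2) × (J → ZMod 2) => Sml d mm z.1 z.2).card *
    2 ^ (d.UR ∩ mm).card = 2 ^ ((d.UC ∩ mm).card + d.JC.card)

/-- PJ-MOM: the mixed moments -/
def S_MOM : Prop := ∀ (M v0 : ℕ) (k : Fin M → ℕ), ∃ (C : ℝ) (L : ℕ), 0 < C ∧
  ∀ (U J : Type) [Fintype U] [Fintype J] [LinearOrder J] (d : Dat U J) (m : Fin M → Finset U)
  (δ : Fin M → ℤ) (V : ℕ), d.Good m δ → (∀ i, |δ i| ≤ v0) → V ≤ (d.JC \ d.JR).card →
  (∀ i j, i ≠ j → V ≤ (sepJ d m i j).card) →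
  |(∑ α : prs (univ : Finset J) → ZMod 2, ∏ i, inj (k i) (nkM d (m i) α)) /
      2 ^ (prs (univ : Finset J)).card - ∏ i, (2 : ℝ) ^ ((k i : ℤ) * δ i)| ≤
    C * 2 ^ (L * Fintype.card U) / 2 ^ V

/-- PJ-LA: the joint law for a random completion -/
def S_JLA : Prop := ∀ (M v0 : ℕ) (rr : Fin M → ℕ) (ε : ℝ), 0 < ε → ∃ L R : ℕ,
  ∀ (U J : Type) [Fintype U] [Fintype J] [LinearOrder J] (d : Dat U J) (m : Fin M → Finset U)
  (δ : Fin M → ℤ), d.Good m δ → (∀ i, |δ i| ≤ v0) →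
  L * Fintype.card U + R ≤ (d.JC \ d.JR).card →
  (∀ i j, i ≠ j → L * Fintype.card U + R ≤ (sepJ d m i j).card) →
  |((univ.filter fun α : prs (univ : Finset J) → ZMod 2 => ∀ i, nkM d (m i) α = 2 ^ rr i).card : ℝ) /
      2 ^ (prs (univ : Finset J)).card - ∏ i, law (δ i) (rr i)| ≤ ε

/-! ### the boxes -/

/-- the labels of the large primes are not degenerate, and they separate the masks -/
def NdJ {M : ℕ} (L R : ℕ) (m : Fin M → Finset ℕ) (S₀ S₁ : Finset ℕ) : Prop :=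
  Nd (S₀ ∪ Wm m) S₁ ∧ ∀ i j, i ≠ j → L * (S₀ ∪ Wm m).card + R ≤
    (S₁.filter fun p => p % 8 = 1 ∧ sq7 p ∧ ∑ u ∈ symmDiff (m i) (m j), nr p u ≠ 0).card

/-- PJ-BOX: the count in a box -/
def S_JBOX : Prop := S_EQ → S_JLA → LawP → ∀ (M v0 : ℕ) (rr : Fin M → ℕ) (ε : ℝ), 0 < ε →
  ∃ L R : ℕ, ∀ (f : ℕ → ZMod 2) (ι : Type) [Fintype ι] [LinearOrder ι]
  (JR JC J3 : Finset ι) (C : ι → Finset ℕ) (X : ι → ℕ) (κ : ℝ) (S₀ : Finset ℕ)
  (m : Fin M → Finset ℕ) (δ : Fin M → ℤ), 0 ≤ κ →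
  (∀ i, (C i).card ≤ X i) → HB (univ : Finset ι) C X κ →
  (∀ u ∈ S₀ ∪ Wm m, u.Prime ∧ u ≠ 2 ∧ u ≠ 7) → Disjoint S₀ (Wm m) →
  (∀ i, ∀ p ∈ C i, p.Prime ∧ p ≠ 2 ∧ p ≠ 7 ∧ p ∉ S₀ ∪ Wm m ∧ (i ∈ JR ↔ sq7 p) ∧
    (i ∈ JC ↔ sq2 p) ∧ (i ∈ J3 ↔ p % 4 = 3)) →
  (∀ i l, i ≠ l → Disjoint (C i) (C l)) → (∃ i, i ∉ JR ∧ i ∉ JC) → (∀ i, |δ i| ≤ v0) →
  (∀ i, (((S₀ ∪ m i).filter sq2).card : ℤ) + JC.card =
    ((S₀ ∪ m i).filter sq7).card + JR.card + δ i) →
  L * (S₀ ∪ Wm m).card + R ≤ (JC \ JR).card →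
  |(((Fintype.piFinset C).filter fun p => NdJ L R m S₀ (univ.image p) ∧
      Ev f m rr (S₀ ∪ univ.image p)).card : ℝ) -
      (∏ i, law (δ i) (rr i)) *
        (((Fintype.piFinset C).filter fun p => NdJ L R m S₀ (univ.image p)).card : ℝ)| ≤
    ε * (((Fintype.piFinset C).filter fun p => NdJ L R m S₀ (univ.image p)).card : ℝ) +
    2 ^ ((2 * (S₀ ∪ Wm m).card + 1) * Fintype.card ι + (prs (univ : Finset ι)).card) *
      (κ * ∏ j, (X j : ℝ))

/-- the regular sets -/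
noncomputable def RR {M : ℕ} (b r : ℕ) (v : ℤ) (m : Fin M → Finset ℕ) (X z H k L R : ℕ) :
    Finset (Finset ℕ) :=
  (SS b r v X).filter fun S => Set.InjOn (jj H) (la z S : Set ℕ) ∧ S.card ≤ k ∧
    (∏ p ∈ sm z S, p) * ∏ p ∈ la z S, XX H (jj H p) ≤ X ∧
    L * (sm z S ∪ Wm m).card + R ≤ (sA (la z S)).card ∧ (sI (la z S)).Nonempty

/-- PJ-KEY: the sum over the boxes -/
def S_JKEY : Prop := S_BIL → S_EQ → S_JLA → LawP → S_JBOX →
  ∀ (M v0 : ℕ) (rr : Fin M → ℕ) (ε : ℝ), 0 < ε → ∃ (L R : ℕ) (C : ℝ), 1 ≤ C ∧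
  ∀ (b r : ℕ) (v : ℤ) (f : ℕ → ZMod 2) (m : Fin M → Finset ℕ) (X z H k N : ℕ) (κ : ℝ),
  Ok b r → OkM b m → (∀ i, |v + dlt (m i)| ≤ v0) → (∀ u ∈ Wm m, u ≤ z) → (Wm m).card ≤ k →
  1 ≤ X → 1 ≤ H → 2 ≤ z → 0 ≤ κ → C ≤ κ ^ 12 * z → (H : ℝ) * Real.log X < N →
  |(((RR b r v m X z H k L R).filter fun S => NdJ L R m (sm z S) (la z S) ∧
      Ev f m rr S).card : ℝ) - (∏ i, law (v + dlt (m i)) (rr i)) *
      (((RR b r v m X z H k L R).filter fun S => NdJ L R m (sm z S) (la z S)).card : ℝ)| ≤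
    ε * ((RR b r v m X z H k L R).card : ℝ) +
    (56 * N + 56 : ℝ) ^ k * (3 ^ (6 * k ^ 2) * κ) * (X * (1 + Real.log X))

/-! ### the exceptional sets -/

/-- PJ-FEW: few sets have few large primes of type `A` or no large prime of type `I` -/
def S_JFEW : Prop := S_SIE → S_MER → ∀ L R : ℕ, ∃ (C : ℝ) (X₀ : ℕ), ∀ X : ℕ, X₀ ≤ X →
  (((AA X).filter fun S => (sA (la (zz X) S)).card < L * (sm (zz X) S).card + R ∨
      sI (la (zz X) S) = ∅).card : ℝ) ≤ C * X * (Real.log X) ^ (-1 / 64 : ℝ)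

/-- PJ-SEP: few sets have few large split primes on which a product of primes is not a square -/
def S_JSEP : Prop := S_SIE → S_MER → S_JMER → ∀ (L R : ℕ) (e : Finset ℕ), e.Nonempty →
  (∀ u ∈ e, u.Prime ∧ u ≠ 2 ∧ u ≠ 7) → ∃ (C : ℝ) (X₀ : ℕ), ∀ X : ℕ, X₀ ≤ X →
  (((AA X).filter fun S => ((la (zz X) S).filter fun p => p % 8 = 1 ∧ sq7 p ∧
      ∑ u ∈ e, nr p u ≠ 0).card < L * (sm (zz X) S).card + R).card : ℝ) ≤
    C * X * (Real.log X) ^ (-1 / 64 : ℝ)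

/-- PJ-LOW: the lower bound for the size of the class -/
def S_JLOW : Prop := S_LOW → S_MER → ∀ (b r : ℕ) (v : ℤ), Ok b r → ∃ (c : ℝ) (X₀ : ℕ), 0 < c ∧
  ∀ X : ℕ, X₀ ≤ X → c * X / Real.sqrt (eL X) ≤ ((SS b r v X).card : ℝ)

/-- PJ-ASY: the final asymptotics -/
def S_JASY : Prop := S_BIL → S_EQ → S_JLA → LawP → S_JBOX → S_JKEY → CntP → S_SIE → S_HAL →
  S_BAD → S_MER → S_JMER → S_JFEW → S_JSEP → S_LOW → S_JLOW → S_ETA → S_JDQ

/-- PJ-NS: the translation -/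
def S_JNS : Prop := S_JDQ → S_JDEN

end Pool.Agent.NH4.PJ
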