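import Pool.Agent.NH4.PJ.Stm

/-!
# Project PJ: the mixed moments, part A: the systems as subspaces
-/

set_option autoImplicit false

open scoped Classical

namespace Pool.Agent.NH4.PJ.Mom

open Finset Module
open Pool.Agent.Y703.CQ (prs)
open Pool.Agent.NH5.PR (ex2)

/-- the field with two elements -/
abbrev F : Type := ZMod 2

section

variable {U J : Type} [Fintype U] [Fintype J] [LinearOrder J]

/-- coordinates -/
def px (u : U) : ((U → F) × (J → F)) →ₗ[F] F := LinearMap.proj u ∘ₗ LinearMap.fst F _ _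

/-- coordinates -/
def py (l : J) : ((U → F) × (J → F)) →ₗ[F] F := LinearMap.proj l ∘ₗ LinearMap.snd F _ _

omit [Fintype U] [Fintype J] [LinearOrder J] in
theorem px_apply (u : U) (z : (U → F) × (J → F)) : px u z = z.1 u := rfl

omit [Fintype U] [Fintype J] [LinearOrder J] in
theorem py_apply (l : J) (z : (U → F) × (J → F)) : py l z = z.2 l := rfl

/-- a small row -/
noncomputable def rowS (d : Dat U J) (mm : Finset U) (u : U) : ((U → F) × (J → F)) →ₗ[F] F :=
  ∑ v ∈ mm, d.A u v • (px v + px u) + ∑ l, d.B u l • (py l + px u) + d.f u • px u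

/-- a large row -/
noncomputable def rowL (d : Dat U J) (mm : Finset U) (α : prs (univ : Finset J) → F) (k : J) :
    ((U → F) × (J → F)) →ₗ[F] F :=
  ∑ u ∈ mm, d.C k u • (px u + py k) + ∑ l, ex2 d.t α k l • (py l + py k) + d.g k • py k

theorem rowS_apply (d : Dat U J) (mm : Finset U) (u : U) (z : (U → F) × (J → F)) :
    rowS d mm u z = ∑ v ∈ mm, d.A u v * (z.1 v + z.1 u) + ∑ l, d.B u l * (z.2 l + z.1 u) +
      d.f u * z.1 u := by
  unfold rowS
  simp only [LinearMap.add_apply, LinearMap.sum_apply, LinearMap.smul_apply, px_apply, py_apply,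
    smul_eq_mul]

theorem rowL_apply (d : Dat U J) (mm : Finset U) (α : prs (univ : Finset J) → F) (k : J)
    (z : (U → F) × (J → F)) :
    rowL d mm α k z = ∑ u ∈ mm, d.C k u * (z.1 u + z.2 k) +
      ∑ l, ex2 d.t α k l * (z.2 l + z.2 k) + d.g k * z.2 k := by
  unfold rowL
  simp only [LinearMap.add_apply, LinearMap.sum_apply, LinearMap.smul_apply, px_apply, py_apply,
    smul_eq_mul]

/-- the solutions of a system -/
noncomputable def Sol (d : Dat U J) (mm : Finset U) (α : prs (univ : Finset J) → F) :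
    Submodule F ((U → F) × (J → F)) where
  carrier := {z | ((∀ u, u ∉ d.UC → px u z = 0) ∧ (∀ u, u ∉ mm → px u z = 0) ∧
    (∀ k, k ∉ d.JC → py k z = 0) ∧ ∀ u ∈ d.UR, u ∈ mm → rowS d mm u z = 0) ∧
    ∀ k ∈ d.JR, rowL d mm α k z = 0}
  add_mem' := by
    rintro z w ⟨⟨a1, a2, a3, a4⟩, a5⟩ ⟨⟨b1, b2, b3, b4⟩, b5⟩
    refine ⟨⟨fun u hu => ?_, fun u hu => ?_, fun k hk => ?_, fun u hu hm => ?_⟩, fun k hk => ?_⟩
    · rw [map_add, a1 u hu, b1 u hu, add_zero]
    · rw [map_add, a2 u hu, b2 u hu, add_zero]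
    · rw [map_add, a3 k hk, b3 k hk, add_zero]
    · rw [map_add, a4 u hu hm, b4 u hu hm, add_zero]
    · rw [map_add, a5 k hk, b5 k hk, add_zero]
  zero_mem' := by
    refine ⟨⟨fun u hu => ?_, fun u hu => ?_, fun k hk => ?_, fun u hu hm => ?_⟩, fun k hk => ?_⟩ <;>
      rw [map_zero]
  smul_mem' := by
    rintro c z ⟨⟨a1, a2, a3, a4⟩, a5⟩
    refine ⟨⟨fun u hu => ?_, fun u hu => ?_, fun k hk => ?_, fun u hu hm => ?_⟩, fun k hk => ?_⟩
    · rw [map_smul, a1 u hu, smul_zero]
    · rw [map_smul, a2 u hu, smul_zero]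
    · rw [map_smul, a3 k hk, smul_zero]
    · rw [map_smul, a4 u hu hm, smul_zero]
    · rw [map_smul, a5 k hk, smul_zero]

theorem mem_Sol (d : Dat U J) (mm : Finset U) (α : prs (univ : Finset J) → F)
    (z : (U → F) × (J → F)) : z ∈ Sol d mm α ↔ Sml d mm z.1 z.2 ∧ Lrg d mm α z.1 z.2 := by
  show (((∀ u, u ∉ d.UC → px u z = 0) ∧ (∀ u, u ∉ mm → px u z = 0) ∧
    (∀ k, k ∉ d.JC → py k z = 0) ∧ ∀ u ∈ d.UR, u ∈ mm → rowS d mm u z = 0) ∧
    ∀ k ∈ d.JR, rowL d mm α k z = 0) ↔ _
  unfold Sml Lrg
  simp only [rowS_apply, rowL_apply, px_apply, py_apply]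

theorem nkM_eq (d : Dat U J) (mm : Finset U) (α : prs (univ : Finset J) → F) :
    nkM d mm α = Nat.card (Sol d mm α) := by
  unfold nkM
  rw [← Fintype.card_subtype, ← Nat.card_eq_fintype_card]
  exact Nat.card_congr (Equiv.subtypeEquivRight fun z => (mem_Sol d mm α z).symm)

end

/-- the number of the linearly independent families in a subspace -/
theorem card_li {V : Type} [AddCommGroup V] [Module F V] [Finite V] (S : Submodule F V) (n : ℕ) :
    (Nat.card {z : Fin n → V // (∀ a, z a ∈ S) ∧ LinearIndependent F z} : ℝ) =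
      inj n (Nat.card S) := by
  have e : {z : Fin n → V // (∀ a, z a ∈ S) ∧ LinearIndependent F z} ≃
      {z : Fin n → S // LinearIndependent F z} :=
    { toFun := fun z => ⟨fun a => ⟨z.1 a, z.2.1 a⟩, by
        have h := z.2.2
        exact (LinearMap.linearIndependent_iff S.subtype (Submodule.ker_subtype S)).1 h⟩
      invFun := fun z => ⟨fun a => (z.1 a : V), fun a => (z.1 a).2, by
        exact (LinearMap.linearIndependent_iff S.subtype (Submodule.ker_subtype S)).2 z.2⟩
      left_inv := fun z => rfl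
      right_inv := fun z => rfl }
  rw [Nat.card_congr e]
  have hcard : Nat.card S = 2 ^ finrank F S := by
    have := Module.natCard_eq_pow_finrank (K := F) (V := S)
    rw [this, Nat.card_zmod]
  unfold inj
  rw [hcard]
  by_cases hk : n ≤ finrank F S
  · have h := card_linearIndependent (K := F) (V := S) hk
    rw [h]
    push_cast
    rw [← Fin.prod_univ_eq_prod_range (fun j => ((2 : ℝ) ^ finrank F S - 2 ^ j)) n]
    refine Finset.prod_congr rfl fun i _ => ?_
    have h2 : Fintype.card F = 2 := ZMod.card 2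
    rw [h2, Nat.cast_sub]
    · push_cast
      rfl
    · exact Nat.pow_le_pow_right (by norm_num) (by omega)
  · push Not at hk
    have h0 : Nat.card {z : Fin n → S // LinearIndependent F z} = 0 := by
      rw [Nat.card_eq_zero]
      left
      constructor
      rintro ⟨z, hz⟩
      have := hz.fintype_card_le_finrank
      rw [Fintype.card_fin] at this
      omega
    rw [h0, Nat.cast_zero]
    symm
    apply Finset.prod_eq_zero (mem_range.2 hk)
    push_cast
    ring

end Pool.Agent.NH4.PJ.Mom
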