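import Pool.Agent.NH4.PJ.Stm

/-!
# Project PJ, job PJ-3: the number of the completions for which a family satisfies the large rows
-/

set_option autoImplicit false
set_option linter.unusedSectionVars false

open scoped Classical

namespace Pool.Agent.NH4.PJ

open Finset
open Pool.Agent.Y703.CQ (prs)
open Pool.Agent.NH5.PR (ex2)

namespace M1

/-- the sign -/
def s2 (a : ZMod 2) : ℤ := if a = 0 then 1 else -1

theorem s2_zero : s2 0 = 1 := rfl

theorem s2_add (a b : ZMod 2) : s2 (a + b) = s2 a * s2 b := by
  revert a b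
  decide

theorem s2_le (a : ZMod 2) : s2 a ≤ 1 := by
  revert a
  decide

theorem s2_sum {X : Type} (A : Finset X) (v : X → ZMod 2) :
    s2 (∑ x ∈ A, v x) = ∏ x ∈ A, s2 (v x) := by
  induction A using Finset.induction_on with
  | empty => rfl
  | insert a A ha ih => rw [sum_insert ha, prod_insert ha, s2_add, ih]

/-- orthogonality -/
theorem sum_s2 {X : Type} [Fintype X] [DecidableEq X] (v : X → ZMod 2) :
    ∑ c : X → ZMod 2, s2 (∑ x, c x * v x) = if v = 0 then 2 ^ Fintype.card X else 0 := by
  have h1 : ∀ c : X → ZMod 2, s2 (∑ x, c x * v x) = ∏ x, s2 (c x * v x) := fun c => s2_sum _ _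
  simp_rw [h1]
  have h2 : ∏ x, ∑ e : ZMod 2, s2 (e * v x) = ∑ c : X → ZMod 2, ∏ x, s2 (c x * v x) := by
    rw [Finset.prod_univ_sum]
    rfl
  rw [← h2]
  have h3 : ∀ w : ZMod 2, ∑ e : ZMod 2, s2 (e * w) = if w = 0 then 2 else 0 := by decide
  simp_rw [h3]
  split_ifs with h
  · rw [h]
    simp
  · obtain ⟨x, hx⟩ := Function.ne_iff.1 h
    exact Finset.prod_eq_zero (Finset.mem_univ x) (if_neg hx)

theorem mem_prs {J : Type} [Fintype J] [LinearOrder J] (k l : J) :
    (k, l) ∈ prs (univ : Finset J) ↔ k < l := by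
  unfold prs
  rw [mem_filter]
  constructor
  · exact fun h => h.2.2.2 (mem_univ _)
  · exact fun h => ⟨mem_univ _, mem_univ _, h.ne', fun _ => h⟩

/-- the constant part of the symbols -/
noncomputable def tt {J : Type} [Fintype J] [LinearOrder J] (t : J → J → ZMod 2) (k l : J) :
    ZMod 2 := if k < l then t k l else 0

theorem ex2_eq {J : Type} [Fintype J] [LinearOrder J] (t : J → J → ZMod 2)
    (α : prs (univ : Finset J) → ZMod 2) (k l : J) :
    ex2 t α k l = tt t k l + ∑ p : prs (univ : Finset J), α p *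
      ((if (p : J × J) = (l, k) then 1 else 0) + (if (p : J × J) = (k, l) then 1 else 0)) := by
  have hone : ∀ (q : J × J) (hq : q ∈ prs (univ : Finset J)),
      ∑ p : prs (univ : Finset J), α p * (if (p : J × J) = q then 1 else 0) = α ⟨q, hq⟩ := by
    intro q hq
    rw [Finset.sum_eq_single ⟨q, hq⟩]
    · rw [if_pos rfl, mul_one]
    · intro p _ hp
      rw [if_neg (fun h => hp (Subtype.ext h)), mul_zero]
    · intro h
      exact absurd (mem_univ _) h
  have hzero : ∀ (q : J × J), q ∉ prs (univ : Finset J) →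
      ∑ p : prs (univ : Finset J), α p * (if (p : J × J) = q then 1 else 0) = 0 := by
    intro q hq
    refine Finset.sum_eq_zero fun p _ => ?_
    rw [if_neg (fun h => hq (by rw [← h]; exact p.2)), mul_zero]
  simp_rw [mul_add, Finset.sum_add_distrib]
  unfold ex2 tt
  by_cases h1 : (l, k) ∈ prs (univ : Finset J)
  · have h2 : l < k := (mem_prs l k).1 h1
    have h3 : (k, l) ∉ prs (univ : Finset J) := fun h => absurd ((mem_prs k l).1 h) h2.not_gt
    rw [dif_pos h1, hone _ h1, hzero _ h3, if_neg h2.not_gt]
    ring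
  · by_cases h3 : (k, l) ∈ prs (univ : Finset J)
    · have h2 : k < l := (mem_prs k l).1 h3
      rw [dif_neg h1, dif_pos h3, hzero _ h1, hone _ h3, if_pos h2]
      ring
    · have h2 : ¬ k < l := fun h => h3 ((mem_prs k l).2 h)
      rw [dif_neg h1, dif_neg h3, hzero _ h1, hzero _ h3, if_neg h2]
      ring

section main

variable {J S : Type} [Fintype J] [LinearOrder J] [Fintype S] (JR : Finset J)
  (t : J → J → ZMod 2) (y c0 : J → S → ZMod 2)

/-- extension by zero -/
noncomputable def cx (c : JR × S → ZMod 2) (k : J) (s : S) : ZMod 2 :=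
  if h : k ∈ JR then c (⟨k, h⟩, s) else 0

theorem cx_zero (k : J) (s : S) : cx JR (0 : JR × S → ZMod 2) k s = 0 := by
  unfold cx
  split_ifs <;> rfl

theorem cx_of (c : JR × S → ZMod 2) (k : J) (hk : k ∉ JR) : cx JR c k = 0 := by
  funext s
  unfold cx
  rw [dif_neg hk]
  rfl

theorem cx_inj : Function.Injective (cx (S := S) JR) := by
  intro c c' h
  funext x
  have h1 := congrFun (congrFun h x.1.1) x.2
  unfold cx at h1
  rw [dif_pos x.1.2, dif_pos x.1.2] at h1
  exact h1

theorem sum_cx (c : JR × S → ZMod 2) (v : J → S → ZMod 2) :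
    ∑ x : JR × S, c x * v x.1 x.2 = ∑ k, ∑ s, cx JR c k s * v k s := by
  rw [Fintype.sum_prod_type]
  have h1 : ∑ k, ∑ s, cx JR c k s * v k s = ∑ k ∈ JR, ∑ s, cx JR c k s * v k s := by
    symm
    apply Finset.sum_subset (Finset.subset_univ _)
    intro k _ hk
    refine Finset.sum_eq_zero fun s _ => ?_
    rw [cx_of JR c k hk]
    exact zero_mul _
  rw [h1, ← Finset.sum_coe_sort JR]
  refine Finset.sum_congr rfl fun k _ => Finset.sum_congr rfl fun s _ => ?_
  unfold cx
  rw [dif_pos k.2]

/-- the constant part -/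
noncomputable def Ac (c : JR × S → ZMod 2) : ZMod 2 :=
  ∑ k, ∑ s, cx JR c k s * (c0 k s + ∑ l, tt t k l * (y l s + y k s))

/-- the coefficients -/
noncomputable def Bc (c : JR × S → ZMod 2) (p : J × J) : ZMod 2 :=
  ∑ s, (cx JR c p.2 s * (y p.1 s + y p.2 s) + cx JR c p.1 s * (y p.2 s + y p.1 s))

theorem expand (c : JR × S → ZMod 2) (α : prs (univ : Finset J) → ZMod 2) :
    ∑ x : JR × S, c x * (c0 x.1 x.2 + ∑ l, ex2 t α x.1 l * (y l x.2 + y x.1 x.2)) =
      Ac JR t y c0 c + ∑ p : prs (univ : Finset J), α p * Bc JR y c p := by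
  rw [sum_cx JR c (fun k s => c0 k s + ∑ l, ex2 t α k l * (y l s + y k s))]
  have h1 : ∀ k s, cx JR c k s * (c0 k s + ∑ l, ex2 t α k l * (y l s + y k s)) =
      cx JR c k s * (c0 k s + ∑ l, tt t k l * (y l s + y k s)) +
      ∑ p : prs (univ : Finset J), α p * ∑ l,
        (((if (p : J × J) = (l, k) then 1 else 0) + (if (p : J × J) = (k, l) then 1 else 0)) *
          (cx JR c k s * (y l s + y k s))) := by
    intro k s
    have h2 : ∀ l, ex2 t α k l * (y l s + y k s) = tt t k l * (y l s + y k s) +
        ∑ p : prs (univ : Finset J), α p * (((if (p : J × J) = (l, k) then 1 else 0) +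
          (if (p : J × J) = (k, l) then 1 else 0)) * (y l s + y k s)) := by
      intro l
      rw [ex2_eq, add_mul, Finset.sum_mul]
      congr 1
      exact Finset.sum_congr rfl fun p _ => by ring
    simp_rw [h2, Finset.sum_add_distrib]
    rw [← add_assoc, mul_add]
    congr 1
    rw [Finset.sum_comm, Finset.mul_sum]
    refine Finset.sum_congr rfl fun p _ => ?_
    rw [← Finset.mul_sum, mul_left_comm, Finset.mul_sum]
    congr 1
    exact Finset.sum_congr rfl fun l _ => by ring
  simp_rw [h1, Finset.sum_add_distrib]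
  unfold Ac
  congr 1
  have h3 : ∀ k : J, ∑ s : S, ∑ p : prs (univ : Finset J), α p * ∑ l,
        (((if (p : J × J) = (l, k) then (1 : ZMod 2) else 0) +
          (if (p : J × J) = (k, l) then 1 else 0)) * (cx JR c k s * (y l s + y k s))) =
      ∑ p : prs (univ : Finset J), α p * ∑ s : S, ∑ l,
        (((if (p : J × J) = (l, k) then (1 : ZMod 2) else 0) +
          (if (p : J × J) = (k, l) then 1 else 0)) * (cx JR c k s * (y l s + y k s))) := by
    intro k
    rw [Finset.sum_comm]
    refine Finset.sum_congr rfl fun p _ => ?_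
    rw [Finset.mul_sum]
  simp_rw [h3]
  rw [Finset.sum_comm]
  refine Finset.sum_congr rfl fun p _ => ?_
  rw [← Finset.mul_sum]
  congr 1
  rw [Finset.sum_comm]
  unfold Bc
  refine Finset.sum_congr rfl fun s _ => ?_
  obtain ⟨⟨a, b⟩, hp⟩ := p
  simp only [add_mul, Finset.sum_add_distrib, Prod.mk.injEq, ite_mul, one_mul, zero_mul]
  congr 1
  · rw [Finset.sum_eq_single b]
    · rw [Finset.sum_eq_single a]
      · rw [if_pos ⟨rfl, rfl⟩]
      · intro l _ hl
        rw [if_neg (fun h => hl h.1.symm)]
      · intro h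
        exact absurd (mem_univ _) h
    · intro k _ hk
      refine Finset.sum_eq_zero fun l _ => ?_
      rw [if_neg (fun h => hk h.2.symm)]
    · intro h
      exact absurd (mem_univ _) h
  · rw [Finset.sum_eq_single a]
    · rw [Finset.sum_eq_single b]
      · rw [if_pos ⟨rfl, rfl⟩]
      · intro l _ hl
        rw [if_neg (fun h => hl h.2.symm)]
      · intro h
        exact absurd (mem_univ _) h
    · intro k _ hk
      refine Finset.sum_eq_zero fun l _ => ?_
      rw [if_neg (fun h => hk h.1.symm)]
    · intro h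
      exact absurd (mem_univ _) h

/-- the fundamental identity -/
theorem count : ((univ.filter fun α : prs (univ : Finset J) → ZMod 2 => ∀ k ∈ JR, ∀ s,
      c0 k s + ∑ l, ex2 t α k l * (y l s + y k s) = 0).card : ℤ) *
        2 ^ (JR.card * Fintype.card S) =
    ∑ c : JR × S → ZMod 2, s2 (Ac JR t y c0 c) *
      (if (fun p : prs (univ : Finset J) => Bc JR y c p) = 0 then
        2 ^ (prs (univ : Finset J)).card else 0) := by
  have h1 : ∀ α : prs (univ : Finset J) → ZMod 2,
      (∑ c : JR × S → ZMod 2, s2 (∑ x : JR × S, c x *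
        (c0 x.1 x.2 + ∑ l, ex2 t α x.1 l * (y l x.2 + y x.1 x.2)))) =
      if (∀ k ∈ JR, ∀ s, c0 k s + ∑ l, ex2 t α k l * (y l s + y k s) = 0) then
        2 ^ (JR.card * Fintype.card S) else 0 := by
    intro α
    rw [sum_s2 (fun x : JR × S => c0 x.1 x.2 + ∑ l, ex2 t α x.1 l * (y l x.2 + y x.1 x.2))]
    have h2 : ((fun x : JR × S => c0 x.1 x.2 + ∑ l, ex2 t α x.1 l * (y l x.2 + y x.1 x.2)) = 0) ↔
        (∀ k ∈ JR, ∀ s, c0 k s + ∑ l, ex2 t α k l * (y l s + y k s) = 0) := by
      constructor
      · intro h k hk s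
        exact congrFun h (⟨k, hk⟩, s)
      · intro h
        funext x
        exact h x.1 x.1.2 x.2
    rw [Fintype.card_prod, Fintype.card_coe]
    exact if_congr h2 rfl rfl
  have h2 : ((univ.filter fun α : prs (univ : Finset J) → ZMod 2 => ∀ k ∈ JR, ∀ s,
      c0 k s + ∑ l, ex2 t α k l * (y l s + y k s) = 0).card : ℤ) *
        2 ^ (JR.card * Fintype.card S) = ∑ α : prs (univ : Finset J) → ZMod 2,
      if (∀ k ∈ JR, ∀ s, c0 k s + ∑ l, ex2 t α k l * (y l s + y k s) = 0) then
        2 ^ (JR.card * Fintype.card S) else 0 := by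
    rw [← Finset.sum_filter, Finset.sum_const, nsmul_eq_mul]
  rw [h2]
  simp_rw [← h1]
  rw [Finset.sum_comm]
  refine Finset.sum_congr rfl fun c _ => ?_
  simp_rw [expand, s2_add]
  rw [← Finset.mul_sum]
  congr 1
  rw [sum_s2 (fun p : prs (univ : Finset J) => Bc JR y c p), Fintype.card_coe]

/-- a vector of the dual code is a dependency -/
theorem dep_of (hl : ∃ l, l ∉ JR ∧ y l = 0) (c : JR × S → ZMod 2)
    (hB : (fun p : prs (univ : Finset J) => Bc JR y c p) = 0) : Dep JR y (cx JR c) := by
  have hB1 : ∀ k l : J, k < l → Bc JR y c (k, l) = 0 := by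
    intro k l hkl
    exact congrFun hB ⟨(k, l), (mem_prs k l).2 hkl⟩
  have hB2 : ∀ k l : J, k ≠ l → Bc JR y c (k, l) = 0 := by
    intro k l hkl
    rcases lt_or_gt_of_ne hkl with h | h
    · exact hB1 k l h
    · have h1 := hB1 l k h
      unfold Bc at h1 ⊢
      rw [← h1]
      exact Finset.sum_congr rfl fun s _ => by ring
  have hB3 : ∀ k l : J, k ≠ l → ∑ s, cx JR c k s * y k s + ∑ s, cx JR c l s * y l s +
      (∑ s, cx JR c k s * y l s + ∑ s, cx JR c l s * y k s) = 0 := by
    intro k l hkl
    rw [← hB2 k l hkl]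
    unfold Bc
    rw [← Finset.sum_add_distrib, ← Finset.sum_add_distrib, ← Finset.sum_add_distrib]
    exact Finset.sum_congr rfl fun s _ => by ring
  obtain ⟨l0, hl1, hl2⟩ := hl
  have hc0 := cx_of JR c l0 hl1
  have hdiag : ∀ k, ∑ s, cx JR c k s * y k s = 0 := by
    intro k
    by_cases hk : k = l0
    · rw [hk, hl2]
      exact Finset.sum_eq_zero fun s _ => mul_zero _
    · have h1 := hB3 k l0 hk
      rw [hl2, hc0] at h1
      simpa using h1
  refine ⟨fun k hk => cx_of JR c k hk, hdiag, ?_⟩
  intro k l
  by_cases hkl : k = l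
  · rw [hkl]
  · have h1 := hB3 k l hkl
    rw [hdiag, hdiag, zero_add, zero_add] at h1
    have h2 : ∀ a b : ZMod 2, a + b = 0 → a = b := by decide
    exact h2 _ _ h1

end main

end M1

open M1

theorem t_M1 : S_M1 := by
  intro J S _ _ _ JR t y c0 hl
  have hcount := count JR t y c0
  constructor
  · have h1 : ((univ.filter fun α : prs (univ : Finset J) → ZMod 2 => ∀ k ∈ JR, ∀ s,
        c0 k s + ∑ l, ex2 t α k l * (y l s + y k s) = 0).card : ℤ) *
          2 ^ (JR.card * Fintype.card S) ≤
        2 ^ (prs (univ : Finset J)).card *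
          (univ.filter fun c : J → S → ZMod 2 => Dep JR y c).card := by
      rw [hcount]
      calc ∑ c : JR × S → ZMod 2, s2 (Ac JR t y c0 c) *
            (if (fun p : prs (univ : Finset J) => Bc JR y c p) = 0 then
              (2 : ℤ) ^ (prs (univ : Finset J)).card else 0)
          ≤ ∑ c : JR × S → ZMod 2, (if (fun p : prs (univ : Finset J) => Bc JR y c p) = 0 then
              (2 : ℤ) ^ (prs (univ : Finset J)).card else 0) := by
            refine Finset.sum_le_sum fun c _ => ?_
            split_ifs
            · exact mul_le_of_le_one_left (by positivity) (s2_le _)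
            · rw [mul_zero]
        _ = ((univ.filter fun c : JR × S → ZMod 2 =>
              (fun p : prs (univ : Finset J) => Bc JR y c p) = 0).card : ℤ) *
              2 ^ (prs (univ : Finset J)).card := by
            rw [← Finset.sum_filter, Finset.sum_const, nsmul_eq_mul]
        _ ≤ ((univ.filter fun c : J → S → ZMod 2 => Dep JR y c).card : ℤ) *
              2 ^ (prs (univ : Finset J)).card := by
            apply mul_le_mul_of_nonneg_right _ (by positivity)
            have h2 : (univ.filter fun c : JR × S → ZMod 2 =>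
                (fun p : prs (univ : Finset J) => Bc JR y c p) = 0).card ≤
                (univ.filter fun c : J → S → ZMod 2 => Dep JR y c).card := by
              apply Finset.card_le_card_of_injOn (cx JR)
              · intro c hc
                rw [mem_coe, mem_filter] at hc ⊢
                exact ⟨mem_univ _, dep_of JR y hl c hc.2⟩
              · exact (cx_inj JR).injOn
            exact_mod_cast h2
        _ = _ := mul_comm _ _
    exact_mod_cast h1
  · intro hD
    have h1 : ((univ.filter fun α : prs (univ : Finset J) → ZMod 2 => ∀ k ∈ JR, ∀ s,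
        c0 k s + ∑ l, ex2 t α k l * (y l s + y k s) = 0).card : ℤ) *
          2 ^ (JR.card * Fintype.card S) = 2 ^ (prs (univ : Finset J)).card := by
      rw [hcount, Finset.sum_eq_single 0]
      · have h2 : Ac JR t y c0 (0 : JR × S → ZMod 2) = 0 := by
          unfold Ac
          refine Finset.sum_eq_zero fun k _ => Finset.sum_eq_zero fun s _ => ?_
          rw [cx_zero, zero_mul]
        have h3 : (fun p : prs (univ : Finset J) => Bc JR y (0 : JR × S → ZMod 2) p) = 0 := by
          funext p
          unfold Bc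
          refine Finset.sum_eq_zero fun s _ => ?_
          rw [cx_zero, cx_zero, zero_mul, zero_mul, add_zero]
        rw [h2, if_pos h3, s2_zero, one_mul]
      · intro c _ hc
        have h2 : ¬ (fun p : prs (univ : Finset J) => Bc JR y c p) = 0 := by
          intro h
          apply hc
          apply cx_inj JR
          rw [hD _ (dep_of JR y hl c h)]
          funext k s
          exact (cx_zero JR k s).symm
        rw [if_neg h2, mul_zero]
      · intro h
        exact absurd (mem_univ _) h
    exact_mod_cast h1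

end Pool.Agent.NH4.PJ
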