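import Pool.Agent.NH4.PJ.Stm
import Pool.Agent.NH5.PR.BOX

/-! PJ-BOX: the joint count in a box (adapted from `Pool.Agent.NH5.PR.BOX` and
`Pool.Agent.Y697.JQ.BOX`). -/

set_option autoImplicit false

open scoped Classical

namespace Pool.Agent.NH4.PJ.BX

open Finset
open Pool.Agent.NH1 (sq2 sq7)
open Pool.Agent.Y703.CQ (nr prs HB S_EQ)
open Pool.Agent.NH5.PR (Sol Nd ex2)
open Pool.Agent.NH5.PR.BX (Lb lb LN nr_self nr_symm nd_iff sum_un ex2_eq HB_sub tt)

/-- the part of `A` in the type `S₁` -/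
noncomputable def pt (S₁ A : Finset ℕ) : Finset S₁ := univ.filter fun u : S₁ => (u : ℕ) ∈ A

theorem mem_pt {S₁ A : Finset ℕ} (u : S₁) : u ∈ pt S₁ A ↔ (u : ℕ) ∈ A := by
  unfold pt
  simp

theorem sum_pt {S₁ T : Finset ℕ} (hT : T ⊆ S₁) (h : ℕ → ZMod 2) :
    ∑ x ∈ T, h x = ∑ u ∈ pt S₁ T, h u := by
  unfold pt
  rw [Finset.sum_filter, Finset.sum_coe_sort S₁ (fun x => if x ∈ T then h x else 0),
    Finset.sum_ite_mem, Finset.inter_eq_right.2 hT]

theorem add_pt {S₁ A B : Finset ℕ} (h : S₁ → ZMod 2) :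
    ∑ u ∈ pt S₁ A, h u + ∑ u ∈ pt S₁ B, h u = ∑ u ∈ pt S₁ (symmDiff A B), h u := by
  unfold pt
  rw [Finset.sum_filter, Finset.sum_filter, Finset.sum_filter, ← Finset.sum_add_distrib]
  refine Finset.sum_congr rfl fun u _ => ?_
  by_cases h1 : (u : ℕ) ∈ A
  · by_cases h2 : (u : ℕ) ∈ B
    · have h3 : (u : ℕ) ∉ symmDiff A B := by
        rw [Finset.mem_symmDiff]
        tauto
      rw [if_pos h1, if_pos h2, if_neg h3]
      exact CharTwo.add_self_eq_zero _
    · have h3 : (u : ℕ) ∈ symmDiff A B := by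
        rw [Finset.mem_symmDiff]
        tauto
      rw [if_pos h1, if_neg h2, if_pos h3, add_zero]
  · by_cases h2 : (u : ℕ) ∈ B
    · have h3 : (u : ℕ) ∈ symmDiff A B := by
        rw [Finset.mem_symmDiff]
        tauto
      rw [if_neg h1, if_pos h2, if_pos h3, zero_add]
    · have h3 : (u : ℕ) ∉ symmDiff A B := by
        rw [Finset.mem_symmDiff]
        tauto
      rw [if_neg h1, if_neg h2, if_neg h3, add_zero]

theorem sd_un {S₀ U V W : Finset ℕ} (hd : Disjoint S₀ W) (hU : U ⊆ W) (hV : V ⊆ W) :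
    symmDiff (S₀ ∪ U) (S₀ ∪ V) = symmDiff U V := by
  ext x
  have h1 : x ∈ S₀ → x ∉ U := fun h h' => Finset.disjoint_left.1 hd h (hU h')
  have h2 : x ∈ S₀ → x ∉ V := fun h h' => Finset.disjoint_left.1 hd h (hV h')
  simp only [Finset.mem_symmDiff, Finset.mem_union]
  tauto

theorem card_pt_filter {S₁ T : Finset ℕ} [DecidableEq S₁] (hT : T ⊆ S₁) (P : ℕ → Prop)
    [DecidablePred P] [DecidablePred fun u : S₁ => P (u : ℕ)] :
    ((univ.filter fun u : S₁ => P (u : ℕ)) ∩ pt S₁ T).card = (T.filter P).card := by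
  have h1 : ((univ.filter fun u : S₁ => P (u : ℕ)) ∩ pt S₁ T).map (Function.Embedding.subtype _) =
      T.filter P := by
    ext x
    simp only [Finset.mem_map, Finset.mem_inter, Finset.mem_filter, Finset.mem_univ, true_and,
      mem_pt, Function.Embedding.subtype_apply]
    constructor
    · rintro ⟨u, ⟨h1, h2⟩, rfl⟩
      exact ⟨h2, h1⟩
    · rintro ⟨h1, h2⟩
      exact ⟨⟨x, hT h1⟩, ⟨h2, h1⟩, rfl⟩
  rw [← h1, Finset.card_map]

section one
variable {ι : Type} [Fintype ι] [LinearOrder ι]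

/-- the data of the system with given labels -/
noncomputable def dat (f : ℕ → ZMod 2) (S₁ : Finset ℕ) (JR JC J3 : Finset ι) (β : ι → Lb S₁) :
    Dat S₁ ι where
  UR := univ.filter fun u : S₁ => sq7 (u : ℕ)
  UC := univ.filter fun u : S₁ => sq2 (u : ℕ)
  JR := JR
  JC := JC
  t := tt J3
  A := fun u v => nr v u
  B := fun u l => (β l).2.1 u
  C := fun k u => (β k).1 u
  f := fun u => f u
  g := fun k => (β k).2.2

variable {JR JC J3 : Finset ι} {S₁ T : Finset ℕ} {p : ι → ℕ} (f : ℕ → ZMod 2)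

theorem sol_iff (hT : T ⊆ S₁) (hp : Function.Injective p) (hpr : ∀ i, (p i).Prime ∧ p i ≠ 2)
    (hd : ∀ i, p i ∉ S₁) (hR : ∀ i, i ∈ JR ↔ sq7 (p i)) (hC : ∀ i, i ∈ JC ↔ sq2 (p i))
    (h3 : ∀ i, i ∈ J3 ↔ p i % 4 = 3) (x : ℕ → ZMod 2) (hx : ∀ u ∈ S₁, u ∉ T → x u = 0) :
    Sol f (T ∪ univ.image p) x ↔
      Sml (dat f S₁ JR JC J3 fun i => lb f S₁ (p i)) (pt S₁ T) (fun u => x u) (fun l => x (p l)) ∧
      Lrg (dat f S₁ JR JC J3 fun i => lb f S₁ (p i)) (pt S₁ T)
        (fun e : prs (univ : Finset ι) => nr (p e.1.1) (p e.1.2)) (fun u => x u)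
        (fun l => x (p l)) := by
  have hdT : ∀ i, p i ∉ T := fun i hi => hd i (hT hi)
  have hs : ∀ h : ℕ → ZMod 2, ∑ x ∈ T ∪ univ.image p, h x =
      ∑ u ∈ pt S₁ T, h u + ∑ l, h (p l) := by
    intro h
    rw [sum_un hp hdT, Finset.sum_coe_sort T (fun x => h x), sum_pt hT]
  have him : ∀ k, p k ∈ T ∪ univ.image p := fun k =>
    Finset.mem_union_right _ (Finset.mem_image_of_mem _ (Finset.mem_univ _))
  unfold Sol Sml Lrg
  simp only [dat, lb, ex2_eq hp hpr h3]
  constructor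
  · rintro ⟨h0, h⟩
    refine ⟨⟨fun u hu => ?_, fun u hu => ?_, fun k hk => ?_, fun u hu hu' => ?_⟩, fun k hk => ?_⟩
    · by_cases huT : (u : ℕ) ∈ T
      · exact h0 u (Finset.mem_union_left _ huT) fun h8 =>
          hu (Finset.mem_filter.2 ⟨Finset.mem_univ _, h8⟩)
      · exact hx u u.2 huT
    · exact hx u u.2 fun h8 => hu ((mem_pt u).2 h8)
    · exact h0 (p k) (him k) fun h8 => hk ((hC k).2 h8)
    · have := h u (Finset.mem_union_left _ ((mem_pt u).1 hu')) (Finset.mem_filter.1 hu).2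
      rw [hs] at this
      exact this
    · have := h (p k) (him k) ((hR k).1 hk)
      rw [hs] at this
      exact this
  · rintro ⟨⟨h01, h02, h03, h1⟩, h2⟩
    refine ⟨fun y hy hy2 => ?_, fun y hy hy7 => ?_⟩
    · rw [Finset.mem_union, Finset.mem_image] at hy
      rcases hy with hy | ⟨k, -, rfl⟩
      · exact h01 ⟨y, hT hy⟩ fun h8 => hy2 (Finset.mem_filter.1 h8).2
      · exact h03 k fun h => hy2 ((hC k).1 h)
    · rw [hs]
      rw [Finset.mem_union, Finset.mem_image] at hy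
      rcases hy with hy | ⟨k, -, rfl⟩
      · exact h1 ⟨y, hT hy⟩ (Finset.mem_filter.2 ⟨Finset.mem_univ _, hy7⟩) ((mem_pt _).2 hy)
      · exact h2 k ((hR k).2 hy7)

/-- the indicator -/
noncomputable def ind (T : Finset ℕ) (q : ℕ) : ZMod 2 := if q ∈ T then 1 else 0

theorem ind_inj {A B : Finset ℕ} (h : ∀ q, ind A q = ind B q) : A = B := by
  ext q
  have h1 := h q
  unfold ind at h1
  by_cases hA : q ∈ A
  · by_cases hB : q ∈ B
    · exact ⟨fun _ => hB, fun _ => hA⟩
    · rw [if_pos hA, if_neg hB] at h1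
      exact absurd h1 (by decide)
  · by_cases hB : q ∈ B
    · rw [if_neg hA, if_pos hB] at h1
      exact absurd h1 (by decide)
    · exact ⟨fun h => absurd h hA, fun h => absurd h hB⟩

theorem z2 (a : ZMod 2) : (if a = 1 then (1 : ZMod 2) else 0) = a := by
  revert a; decide

/-- the number of the solutions -/
theorem nk_eq (hT : T ⊆ S₁) (hp : Function.Injective p) (hpr : ∀ i, (p i).Prime ∧ p i ≠ 2)
    (hd : ∀ i, p i ∉ S₁) (hR : ∀ i, i ∈ JR ↔ sq7 (p i)) (hC : ∀ i, i ∈ JC ↔ sq2 (p i))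
    (h3 : ∀ i, i ∈ J3 ↔ p i % 4 = 3) :
    nk f (T ∪ univ.image p) = nkM (dat f S₁ JR JC J3 fun i => lb f S₁ (p i)) (pt S₁ T)
      (fun e : prs (univ : Finset ι) => nr (p e.1.1) (p e.1.2)) := by
  unfold nk nkM
  have him : ∀ k, p k ∈ T ∪ univ.image p := fun k =>
    Finset.mem_union_right _ (Finset.mem_image_of_mem _ (Finset.mem_univ _))
  refine Finset.card_bij (fun Q _ => (fun u : S₁ => ind Q u, fun l => ind Q (p l))) ?_ ?_ ?_
  · intro Q hQ
    rw [Finset.mem_filter, Finset.mem_powerset] at hQ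
    rw [Finset.mem_filter]
    refine ⟨by convert Finset.mem_univ _, ?_⟩
    have hx : ∀ u ∈ S₁, u ∉ T → ind Q u = 0 := by
      intro u hu huT
      unfold ind
      rw [if_neg]
      intro huQ
      have := hQ.1 huQ
      rw [Finset.mem_union, Finset.mem_image] at this
      rcases this with h | ⟨k, -, rfl⟩
      · exact huT h
      · exact hd k hu
    exact (sol_iff f hT hp hpr hd hR hC h3 (ind Q) hx).1 hQ.2
  · intro Q hQ Q' hQ' he
    rw [Finset.mem_filter, Finset.mem_powerset] at hQ hQ'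
    rw [Prod.mk.injEq] at he
    obtain ⟨he1, he2⟩ := he
    apply ind_inj
    intro q
    by_cases hq : q ∈ T ∪ univ.image p
    · rw [Finset.mem_union, Finset.mem_image] at hq
      rcases hq with h | ⟨k, -, rfl⟩
      · exact congrFun he1 ⟨q, hT h⟩
      · exact congrFun he2 k
    · unfold ind
      rw [if_neg fun h => hq (hQ.1 h), if_neg fun h => hq (hQ'.1 h)]
  · rintro ⟨c, d⟩ hcd
    rw [Finset.mem_filter] at hcd
    obtain ⟨-, hS, hL⟩ := hcd
    simp only at hS hL
    set c' : ℕ → ZMod 2 := fun n => if h : n ∈ S₁ then c ⟨n, h⟩ else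
      if h : ∃ l, p l = n then d h.choose else 0 with hc'
    have e1 : ∀ u : S₁, c' u = c u := by
      intro u
      simp only [hc']
      rw [dif_pos u.2]
    have e2 : ∀ l, c' (p l) = d l := by
      intro l
      have hex : ∃ l', p l' = p l := ⟨l, rfl⟩
      simp only [hc']
      rw [dif_neg (hd l), dif_pos hex]
      exact congrArg d (hp hex.choose_spec)
    set Q : Finset ℕ := (T ∪ univ.image p).filter fun q => c' q = 1 with hQ
    have hcT : ∀ u : S₁, (u : ℕ) ∉ T → c u = 0 := fun u hu => hS.2.1 u fun h => hu ((mem_pt u).1 h)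
    have f1 : ∀ u : S₁, ind Q u = c u := by
      intro u
      unfold ind
      by_cases huT : (u : ℕ) ∈ T
      · have : (u : ℕ) ∈ Q ↔ c u = 1 := by
          rw [hQ, Finset.mem_filter, e1]
          exact ⟨fun h => h.2, fun h => ⟨Finset.mem_union_left _ huT, h⟩⟩
        simp only [this]
        exact z2 _
      · rw [if_neg, hcT u huT]
        intro h
        have := (Finset.mem_filter.1 h).1
        rw [Finset.mem_union, Finset.mem_image] at this
        rcases this with h | ⟨k, -, hk⟩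
        · exact huT h
        · exact hd k (by rw [hk]; exact u.2)
    have f2 : ∀ l, ind Q (p l) = d l := by
      intro l
      unfold ind
      have : p l ∈ Q ↔ d l = 1 := by
        rw [hQ, Finset.mem_filter, e2]
        exact ⟨fun h => h.2, fun h => ⟨him l, h⟩⟩
      simp only [this]
      exact z2 _
    have g1 : (fun u : S₁ => ind Q u) = c := funext f1
    have g2 : (fun l => ind Q (p l)) = d := funext f2
    have hx : ∀ u ∈ S₁, u ∉ T → ind Q u = 0 := by
      intro u hu huT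
      have := f1 ⟨u, hu⟩
      simp only at this
      rw [this]
      exact hcT ⟨u, hu⟩ huT
    refine ⟨Q, ?_, ?_⟩
    · rw [Finset.mem_filter, Finset.mem_powerset]
      refine ⟨Finset.filter_subset _ _, ?_⟩
      refine (sol_iff f hT hp hpr hd hR hC h3 (ind Q) hx).2 ?_
      rw [g1, g2]
      exact ⟨hS, hL⟩
    · rw [g1, g2]

end one

/-- the good labels -/
def LJ {ι : Type} {M : ℕ} (L R : ℕ) (S₁ : Finset ℕ) (m : Fin M → Finset ℕ) (J1 : Finset ι)
    (β : ι → Lb S₁) : Prop :=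
  LN S₁ J1 β ∧ ∀ i j, i ≠ j → L * S₁.card + R ≤
    (J1.filter fun k => ∑ u ∈ pt S₁ (symmDiff (m i) (m j)), (β k).2.1 u ≠ 0).card

theorem ndJ_iff {ι : Type} [Fintype ι] {M : ℕ} {J1 : Finset ι} {S₀ : Finset ℕ}
    {m : Fin M → Finset ℕ} {p : ι → ℕ} (f : ℕ → ZMod 2) (L R : ℕ)
    (hp : Function.Injective p) (hJ : ∀ i, (p i % 8 = 1 ∧ sq7 (p i)) ↔ i ∈ J1) :
    NdJ L R m S₀ (univ.image p) ↔ LJ L R (S₀ ∪ Wm m) m J1 (fun i => lb f (S₀ ∪ Wm m) (p i)) := by
  unfold NdJ LJ
  have hmW : ∀ i, m i ⊆ Wm m := fun i => Finset.subset_biUnion_of_mem m (Finset.mem_univ i)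
  have h3 : ∀ i j,
      ((univ.image p).filter fun q => q % 8 = 1 ∧ sq7 q ∧
        ∑ u ∈ symmDiff (m i) (m j), nr q u ≠ 0).card =
      (J1.filter fun k => ∑ u ∈ pt (S₀ ∪ Wm m) (symmDiff (m i) (m j)),
        (lb f (S₀ ∪ Wm m) (p k)).2.1 u ≠ 0).card := by
    intro i j
    have hs : symmDiff (m i) (m j) ⊆ S₀ ∪ Wm m := by
      intro x hx
      rw [Finset.mem_symmDiff] at hx
      rw [Finset.mem_union]
      rcases hx with hx | hx
      · exact Or.inr (hmW i hx.1)
      · exact Or.inr (hmW j hx.1)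
    have h4 : (univ.image p).filter (fun q => q % 8 = 1 ∧ sq7 q ∧
        ∑ u ∈ symmDiff (m i) (m j), nr q u ≠ 0) =
        (J1.filter fun k => ∑ u ∈ pt (S₀ ∪ Wm m) (symmDiff (m i) (m j)),
        (lb f (S₀ ∪ Wm m) (p k)).2.1 u ≠ 0).image p := by
      ext q
      simp only [Finset.mem_filter, Finset.mem_image, Finset.mem_univ, true_and]
      constructor
      · rintro ⟨⟨k, rfl⟩, h5, h7, h6⟩
        refine ⟨k, ⟨(hJ k).1 ⟨h5, h7⟩, ?_⟩, rfl⟩
        rw [sum_pt hs] at h6
        exact h6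
      · rintro ⟨k, ⟨hk, h6⟩, rfl⟩
        obtain ⟨h8, h7⟩ := (hJ k).2 hk
        refine ⟨⟨k, rfl⟩, h8, h7, ?_⟩
        rw [sum_pt hs]
        exact h6
    rw [h4, Finset.card_image_of_injective _ hp]
  rw [nd_iff f hJ]
  refine and_congr_right fun _ => ?_
  constructor
  · intro h i j hij
    rw [← h3 i j]
    exact h i j hij
  · intro h i j hij
    rw [h3 i j]
    exact h i j hij

end Pool.Agent.NH4.PJ.BX

namespace Pool.Agent.NH4.PJ

open Finset
open Pool.Agent.NH1 (sq2 sq7)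
open Pool.Agent.Y703.CQ (nr prs HB S_EQ)
open Pool.Agent.NH5.PR (Sol Nd ex2)
open Pool.Agent.NH5.PR.BX (Lb lb LN nr_self nr_symm nd_iff sum_un ex2_eq HB_sub tt)
open BX

/-- **The joint count in a box.** -/
theorem t_JBOX : S_JBOX := by
  intro hEQ hJLA _ M v0 rr ε hε
  obtain ⟨L, R₀, hLA⟩ := hJLA M v0 rr ε hε
  refine ⟨L, R₀, ?_⟩
  intro f ι _ _ JR JC J3 C X κ S₀ m δ hκ hCX hHB hS₁ hdW hC hdis hne hδ hcard hLR
  set S₁ := S₀ ∪ Wm m with hS₁d
  set ℓ : ℝ := ∏ i, law (δ i) (rr i) with hℓ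
  set R : ℝ := 2 ^ (prs (univ : Finset ι)).card * (κ * ∏ j, (X j : ℝ)) with hR
  have hR0 : 0 ≤ R := mul_nonneg (by positivity)
    (mul_nonneg hκ (Finset.prod_nonneg fun j _ => by positivity))
  set J1 : Finset ι := univ.filter fun i => i ∈ JR ∧ i ∈ JC ∧ i ∉ J3 with hJ1
  have hmW : ∀ i, m i ⊆ Wm m := fun i => Finset.subset_biUnion_of_mem m (Finset.mem_univ i)
  have hmS : ∀ i, S₀ ∪ m i ⊆ S₁ := fun i => Finset.union_subset_union_right (hmW i)
  -- facts on tuples
  have hinj : ∀ p ∈ Fintype.piFinset C, Function.Injective p := by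
    intro p hp i j hij
    rw [Fintype.mem_piFinset] at hp
    by_contra hne
    have h1 := Finset.disjoint_left.1 (hdis i j hne) (hp i)
    rw [hij] at h1
    exact h1 (hp j)
  have hJR : ∀ p ∈ Fintype.piFinset C, ∀ i, i ∈ JR ↔ sq7 (p i) := by
    intro p hp i
    rw [Fintype.mem_piFinset] at hp
    exact (hC i _ (hp i)).2.2.2.2.1
  have hJC : ∀ p ∈ Fintype.piFinset C, ∀ i, i ∈ JC ↔ sq2 (p i) := by
    intro p hp i
    rw [Fintype.mem_piFinset] at hp
    exact (hC i _ (hp i)).2.2.2.2.2.1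
  have hJ3 : ∀ p ∈ Fintype.piFinset C, ∀ i, i ∈ J3 ↔ p i % 4 = 3 := by
    intro p hp i
    rw [Fintype.mem_piFinset] at hp
    exact (hC i _ (hp i)).2.2.2.2.2.2
  have hd : ∀ p ∈ Fintype.piFinset C, ∀ i, p i ∉ S₁ := by
    intro p hp i
    rw [Fintype.mem_piFinset] at hp
    exact (hC i _ (hp i)).2.2.2.1
  have hpr : ∀ p ∈ Fintype.piFinset C, ∀ i, (p i).Prime ∧ p i ≠ 2 := by
    intro p hp i
    rw [Fintype.mem_piFinset] at hp
    exact ⟨(hC i _ (hp i)).1, (hC i _ (hp i)).2.1⟩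
  have hJ : ∀ p ∈ Fintype.piFinset C, ∀ i, (p i % 8 = 1 ∧ sq7 (p i)) ↔ i ∈ J1 := by
    intro p hp i
    rw [hJ1, Finset.mem_filter, hJR p hp i, hJC p hp i, hJ3 p hp i]
    unfold sq2
    constructor
    · rintro ⟨h1, h2⟩
      exact ⟨Finset.mem_univ _, h2, Or.inl h1, by omega⟩
    · rintro ⟨-, h2, h3, h4⟩
      exact ⟨by omega, h2⟩
  have hev : ∀ p ∈ Fintype.piFinset C, (Ev f m rr (S₀ ∪ univ.image p) ↔
      ∀ i, nkM (dat f S₁ JR JC J3 fun i => lb f S₁ (p i)) (pt S₁ (S₀ ∪ m i))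
        (fun e : prs (univ : Finset ι) => nr (p e.1.1) (p e.1.2)) = 2 ^ rr i) := by
    intro p hp
    unfold Ev
    refine forall_congr' fun i => ?_
    have h1 : S₀ ∪ univ.image p ∪ m i = (S₀ ∪ m i) ∪ univ.image p := by
      rw [Finset.union_assoc, Finset.union_comm (univ.image p), ← Finset.union_assoc]
    rw [h1, nk_eq f (hmS i) (hinj p hp) (hpr p hp) (hd p hp) (hJR p hp) (hJC p hp) (hJ3 p hp)]
  -- the part with given labels
  have h1 : ∀ β : ι → Lb S₁, LJ L R₀ S₁ m J1 β →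
      |(((Fintype.piFinset C).filter fun p => (fun i => lb f S₁ (p i)) = β ∧
          Ev f m rr (S₀ ∪ univ.image p)).card : ℝ) -
        ℓ * (((Fintype.piFinset C).filter fun p => (fun i => lb f S₁ (p i)) = β).card : ℝ)| ≤
      ε * (((Fintype.piFinset C).filter fun p => (fun i => lb f S₁ (p i)) = β).card : ℝ) + R := by
    intro β hβ
    by_cases hemp : ((Fintype.piFinset C).filter fun p => (fun i => lb f S₁ (p i)) = β) = ∅
    · have he2 : ((Fintype.piFinset C).filter fun p => (fun i => lb f S₁ (p i)) = β ∧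
          Ev f m rr (S₀ ∪ univ.image p)) = ∅ := by
        rw [← Finset.filter_filter, hemp, Finset.filter_empty]
      rw [he2, hemp]
      simpa using hR0
    obtain ⟨p₀, hp₀⟩ := Finset.nonempty_iff_ne_empty.2 hemp
    rw [Finset.mem_filter] at hp₀
    obtain ⟨hp₀, hp₀β⟩ := hp₀
    set C' : ι → Finset ℕ := fun i => (C i).filter fun q => lb f S₁ q = β i with hC'
    have hpi : (Fintype.piFinset C).filter (fun p => (fun i => lb f S₁ (p i)) = β) =
        Fintype.piFinset C' := by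
      ext p
      simp only [Finset.mem_filter, Fintype.mem_piFinset, hC']
      constructor
      · rintro ⟨h2, h3⟩ i
        exact ⟨h2 i, congrFun h3 i⟩
      · intro h2
        exact ⟨fun i => (h2 i).1, funext fun i => (h2 i).2⟩
    have hsym : ∀ k ∈ J1, ∀ u : S₁, (β k).1 u = (β k).2.1 u := by
      intro k hk u
      have h3 := congrFun hp₀β k
      rw [← h3]
      have h8 := ((hJ p₀ hp₀ k).2 hk).1
      exact (nr_symm (hpr p₀ hp₀ k).1 (by omega) (hS₁ u u.2).1 (hS₁ u u.2).2.1).symm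
    have hgood : (dat f S₁ JR JC J3 β).Good (fun i => pt S₁ (S₀ ∪ m i)) δ := by
      refine ⟨fun i => ?_, hne, ?_, ?_⟩
      · have h3 := hcard i
        rw [← card_pt_filter (hmS i) sq2, ← card_pt_filter (hmS i) sq7] at h3
        refine Eq.mp ?_ h3
        congr
        all_goals (funext a b; exact Subsingleton.elim _ _)
      · intro w hw
        obtain ⟨k, hk, hk2⟩ := hβ.1 w hw
        have hk' := (Finset.mem_filter.1 hk).2
        refine ⟨k, hk'.1, hk'.2.1, ?_⟩
        simp only [dat, hsym k hk]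
        exact hk2
      · intro w hw
        obtain ⟨k, hk, hk2⟩ := hβ.1 w hw
        have hk' := (Finset.mem_filter.1 hk).2
        exact ⟨k, hk'.1, hk'.2.1, hk2⟩
    have h2 := hLA S₁ ι (dat f S₁ JR JC J3 β) (fun i => pt S₁ (S₀ ∪ m i)) δ hgood hδ
      (by
        rw [Fintype.card_coe]
        exact hLR)
      (by
        intro i j hij
        rw [Fintype.card_coe]
        refine (hβ.2 i j hij).trans (Finset.card_le_card ?_)
        intro k hk
        rw [Finset.mem_filter] at hk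
        have hk' := (Finset.mem_filter.1 hk.1).2
        unfold sepJ
        rw [Finset.mem_filter, Finset.mem_inter]
        refine ⟨⟨hk'.1, hk'.2.1⟩, ?_⟩
        simp only [dat]
        rw [add_pt (fun u => (β k).1 u), sd_un hdW (hmW i) (hmW j)]
        simp only [hsym k hk.1]
        exact hk.2)
    obtain ⟨Q, hQ⟩ : ∃ Q : (prs (univ : Finset ι) → ZMod 2) → Prop, ∀ α, Q α ↔ ∀ i,
      nkM (dat f S₁ JR JC J3 β) (pt S₁ (S₀ ∪ m i)) α = 2 ^ rr i := ⟨_, fun _ => Iff.rfl⟩
    have h3 := hEQ ι univ C' X κ hκ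
      (fun i => (Finset.card_le_card (Finset.filter_subset _ _)).trans (hCX i))
      (HB_sub hHB fun i q => lb f S₁ q = β i) Q
    have h4 : ((Fintype.piFinset C).filter fun p => (fun i => lb f S₁ (p i)) = β ∧
        Ev f m rr (S₀ ∪ univ.image p)) = ((Fintype.piFinset C').filter fun p =>
          Q fun e => nr (p e.1.1) (p e.1.2)) := by
      rw [← hpi, Finset.filter_filter]
      refine Finset.filter_congr fun p hp => ?_
      refine and_congr_right fun hl => ?_
      rw [hev p hp, hQ]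
      subst hl
      exact Iff.rfl
    have h5 : (((Fintype.piFinset C').card : ℕ) : ℝ) = ∏ j, ((C' j).card : ℝ) := by
      rw [Fintype.card_piFinset]
      push_cast
      rfl
    rw [h4, hpi, h5]
    have h2' : |((univ.filter Q).card : ℝ) / 2 ^ (prs (univ : Finset ι)).card - ℓ| ≤ ε := by
      rw [Finset.filter_congr fun α _ => hQ α]
      exact h2
    set n : ℝ := (((Fintype.piFinset C').filter fun p =>
          Q fun e => nr (p e.1.1) (p e.1.2)).card : ℝ) with hn
    set q : ℝ := ((univ.filter Q).card : ℝ) / 2 ^ (prs (univ : Finset ι)).card with hq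
    set P : ℝ := ∏ j, ((C' j).card : ℝ) with hP
    have hP0 : 0 ≤ P := Finset.prod_nonneg fun j _ => by positivity
    have h6 : |n - ℓ * P| ≤ |n - q * P| + |q - ℓ| * P := by
      have h7 : n - ℓ * P = (n - q * P) + (q - ℓ) * P := by ring
      have h8 : |(q - ℓ) * P| = |q - ℓ| * P := by rw [abs_mul, abs_of_nonneg hP0]
      rw [h7, ← h8]
      exact abs_add_le _ _
    have h7 : |q - ℓ| * P ≤ ε * P := mul_le_mul_of_nonneg_right h2' hP0
    have h8 : |n - q * P| ≤ R := h3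
    linarith
  -- sum over the labels
  set LL := univ.filter (fun β : ι → Lb S₁ => LJ L R₀ S₁ m J1 β) with hLL
  have hfib : ∀ T : (ι → ℕ) → Prop,
      (((Fintype.piFinset C).filter fun p => NdJ L R₀ m S₀ (univ.image p) ∧ T p).card : ℝ) =
      ∑ β ∈ LL, (((Fintype.piFinset C).filter fun p =>
        (fun i => lb f S₁ (p i)) = β ∧ T p).card : ℝ) := by
    intro T
    rw [Finset.card_eq_sum_card_fiberwise (f := fun (p : ι → ℕ) (i : ι) => lb f S₁ (p i))
      (t := LL) (by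
        intro p hp
        rw [Finset.mem_coe, Finset.mem_filter] at hp
        rw [Finset.mem_coe, hLL, Finset.mem_filter]
        exact ⟨Finset.mem_univ _, (ndJ_iff f L R₀ (hinj p hp.1) (hJ p hp.1)).1 hp.2.1⟩)]
    push_cast
    refine Finset.sum_congr rfl fun β hβ => ?_
    rw [hLL, Finset.mem_filter] at hβ
    congr 2
    ext p
    simp only [Finset.mem_filter]
    constructor
    · rintro ⟨⟨h3, h4, h4'⟩, h5⟩
      exact ⟨h3, h5, h4'⟩
    · rintro ⟨h3, h4, h5⟩
      refine ⟨⟨h3, ?_, h5⟩, h4⟩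
      refine (ndJ_iff f L R₀ (hinj p h3) (hJ p h3)).2 ?_
      rw [← hS₁d, h4]
      exact hβ.2
  have hf1 := hfib fun p => Ev f m rr (S₀ ∪ univ.image p)
  have hf2 := hfib fun _ => True
  simp only [and_true] at hf2
  rw [hf1, hf2, Finset.mul_sum, ← Finset.sum_sub_distrib]
  refine (Finset.abs_sum_le_sum_abs _ _).trans ?_
  refine (Finset.sum_le_sum fun β hβ => h1 β (Finset.mem_filter.1 hβ).2).trans ?_
  rw [Finset.sum_add_distrib, ← Finset.mul_sum, Finset.sum_const, nsmul_eq_mul]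
  have h5 : ((LL.card : ℕ) : ℝ) ≤ 2 ^ ((2 * S₁.card + 1) * Fintype.card ι) := by
    have h6 : LL.card ≤ Fintype.card (ι → Lb S₁) := Finset.card_le_univ _
    rw [Fintype.card_fun, Fintype.card_prod, Fintype.card_prod, Fintype.card_fun, ZMod.card,
      Fintype.card_coe, ← pow_succ, ← pow_add, ← pow_mul] at h6
    have h7 : (S₁.card + (S₁.card + 1)) * Fintype.card ι = (2 * S₁.card + 1) * Fintype.card ι := by
      ring
    rw [h7] at h6
    exact_mod_cast h6
  have h6 := mul_le_mul_of_nonneg_right h5 hR0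
  rw [pow_add, mul_assoc]
  linarith

end Pool.Agent.NH4.PJ
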