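import Pool.Agent.NH4.PJ.Stm
import Pool.Agent.NH5.PR.Asy

/-!
# Project PJ: the final asymptotics
-/

set_option autoImplicit false

open scoped Classical
open Finset Filter

namespace Pool.Agent.NH4.PJ

open Pool.Agent.NH1 (sq2 sq7 sS sI sA sB)
open Pool.Agent.Y703.CX (sm la jj XX eL zz kk S_SIE eL_tendsto logX_eq rpow_eL HH NN ev_eL one_le_exp
  HH_ge HH_le HH_pos kk_ge kk_le X_pos one_add_log lin_le kap zz_ge zz_pos kap_nonneg kap_pow kap_le)
open Pool.Agent.Y703.CQ (nr sg prs HB S_EQ S_MER S_CHE)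
open Pool.Agent.Y687.JQ (S_JMER)
open Pool.Agent.NH5.PR (Ok AA Sol Gd eta S_BIL S_ETA ex2 Nd CntP S_HAL S_BAD S_LOW)
open Pool.Agent.NH5.PR.AsyP (sml_of sml_add sml_rpow cmp)

namespace AsyJ

/-- negligible -/
abbrev Neg := Pool.Agent.NH5.PR.AsyP.Sml

theorem eL_mono {X Y : ℕ} (h : 0 < eL X) (hXY : X ≤ Y) : eL X ≤ eL Y := by
  have h1 : 0 < Real.log X := by
    rw [logX_eq h]
    exact Real.exp_pos _
  have h2 : (0 : ℝ) < X := by exact_mod_cast X_pos h
  unfold Pool.Agent.Y703.CX.eL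
  exact Real.log_le_log h1 (Real.log_le_log h2 (by exact_mod_cast hXY))

theorem sml_mono {E F : ℕ → ℝ} (hF : Neg F) (h : ∀ᶠ X : ℕ in atTop, E X ≤ F X) : Neg E := by
  intro δ hδ
  filter_upwards [hF δ hδ, h] with X h1 h2
  exact h2.trans h1

theorem tendsto_mul {w : ℕ} (hw : 1 ≤ w) : Tendsto (fun X : ℕ => w * X) atTop atTop :=
  tendsto_atTop_mono (fun X => Nat.le_mul_of_pos_left X hw) tendsto_id

theorem sml_comp {E : ℕ → ℝ} (hE : Neg E) {w : ℕ} (hw : 1 ≤ w) : Neg fun X => E (w * X) := by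
  intro δ hδ
  have hw0 : (0 : ℝ) < w := by exact_mod_cast hw
  filter_upwards [(tendsto_mul hw).eventually (hE (δ / w) (by positivity)), ev_eL 1] with X hX hl
  have hl0 : 0 < eL X := by linarith
  have hmono : eL X ≤ eL (w * X) := eL_mono hl0 (Nat.le_mul_of_pos_left X hw)
  have hs : 0 < Real.sqrt (eL X) := Real.sqrt_pos.2 hl0
  have hs' : Real.sqrt (eL X) ≤ Real.sqrt (eL (w * X)) := Real.sqrt_le_sqrt hmono
  have hX0 : (0 : ℝ) ≤ X := Nat.cast_nonneg _
  calc E (w * X) ≤ δ / w * (((w * X : ℕ) : ℝ) / Real.sqrt (eL (w * X))) := hX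
    _ = δ * (X / Real.sqrt (eL (w * X))) := by
        push_cast
        field_simp
    _ ≤ δ * (X / Real.sqrt (eL X)) := by
        apply mul_le_mul_of_nonneg_left _ hδ.le
        exact div_le_div_of_nonneg_left hX0 hs hs'

theorem sml_zero : Neg fun _ => 0 := by
  intro δ hδ
  filter_upwards with X
  positivity

theorem sml_sum {ι : Type} (s : Finset ι) {E : ι → ℕ → ℝ} (h : ∀ i ∈ s, Neg (E i)) :
    Neg fun X => ∑ i ∈ s, E i X := by
  induction s using Finset.induction_on with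
  | empty =>
    simp only [sum_empty]
    exact sml_zero
  | insert a s ha ih =>
    simp only [sum_insert ha]
    exact sml_add (h a (mem_insert_self a s)) (ih fun i hi => h i (mem_insert_of_mem hi))

theorem AA_mono {X Y : ℕ} (h : X ≤ Y) : AA X ⊆ AA Y := by
  intro S hS
  unfold Pool.Agent.NH5.PR.AA at hS ⊢
  rw [mem_filter, mem_powerset] at hS ⊢
  exact ⟨hS.1.trans (range_subset_range.2 (by omega)), hS.2.1, hS.2.2.trans h⟩

/-- sets with many primes -/
theorem sml_many (h : CntP) (c : ℕ) :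
    Neg fun X => (((AA X).filter fun S => kk X - c < S.card).card : ℝ) := by
  apply sml_of (C := 2 * 2 ^ c) (a := 1) (by norm_num)
  filter_upwards [ev_eL 1] with X hX
  have h0 : 0 < eL X := by linarith
  have h1 := h.many X (kk X - c) (X_pos h0)
  have h2 : Real.exp (2 * eL X) ≤ 2 ^ kk X := by
    have e : (2 : ℝ) ^ kk X = Real.exp (kk X * Real.log 2) := by
      rw [mul_comm, Real.exp_mul, Real.exp_log (by norm_num), Real.rpow_natCast]
    rw [e]
    apply Real.exp_le_exp.2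
    have h3 := kk_ge X
    have h4 := Real.log_two_gt_d9
    nlinarith
  have h2' : Real.exp (2 * eL X) ≤ 2 ^ (kk X - c) * 2 ^ c := by
    refine h2.trans ?_
    rw [← pow_add]
    exact pow_le_pow_right₀ (by norm_num) (by omega)
  have hX0 : (0 : ℝ) ≤ X := Nat.cast_nonneg _
  have h5 : (((AA X).filter fun S => kk X - c < S.card).card : ℝ) * Real.exp (2 * eL X) ≤
      X * (2 * Real.exp (eL X)) * 2 ^ c := by
    calc _ ≤ (((AA X).filter fun S => kk X - c < S.card).card : ℝ) * (2 ^ (kk X - c) * 2 ^ c) := by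
          gcongr
      _ = (((AA X).filter fun S => kk X - c < S.card).card : ℝ) * 2 ^ (kk X - c) * 2 ^ c := by ring
      _ ≤ X * (1 + Real.log X) * 2 ^ c := by gcongr
      _ ≤ _ := mul_le_mul_of_nonneg_right (mul_le_mul_of_nonneg_left (one_add_log h0) hX0)
        (by positivity)
  have h6 : (2 : ℝ) * 2 ^ c * (X * Real.exp (-1 * eL X)) * Real.exp (2 * eL X) =
      X * (2 * Real.exp (eL X)) * 2 ^ c := by
    have e : Real.exp (-1 * eL X) * Real.exp (2 * eL X) = Real.exp (eL X) := by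
      rw [← Real.exp_add]; congr 1; ring
    calc _ = 2 * 2 ^ c * X * (Real.exp (-1 * eL X) * Real.exp (2 * eL X)) := by ring
      _ = _ := by rw [e]; ring
  rw [← h6] at h5
  exact le_of_mul_le_mul_right h5 (Real.exp_pos _)

/-- sets near the boundary -/
theorem sml_cut : Neg fun X => (X : ℝ) * kk X / HH X + 1 := by
  apply sml_of (C := 2) (a := 1) (by norm_num)
  have hlog : ∀ᶠ X : ℕ in atTop, Real.exp (eL X) ≤ X := by
    filter_upwards [ev_eL 1] with X hX
    rw [← logX_eq (by linarith)]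
    exact (Real.log_le_sub_one_of_pos (by exact_mod_cast X_pos (by linarith))).trans (by linarith)
  filter_upwards [ev_eL 1, lin_le (a := 1) (b := 11) (by norm_num) (by norm_num), hlog] with X hX h11 hl
  have h0 : 0 < eL X := by linarith
  have hH := HH_ge h0
  have hHp : (0 : ℝ) < HH X := lt_of_lt_of_le (Real.exp_pos _) hH
  have hX0 : (0 : ℝ) ≤ X := Nat.cast_nonneg _
  have h2 : (X : ℝ) * kk X / HH X ≤ X * Real.exp (-1 * eL X) := by
    rw [div_le_iff₀ hHp]
    calc (X : ℝ) * kk X ≤ X * Real.exp (eL X) := by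
          have := kk_le hX
          rw [one_mul] at h11
          have : (kk X : ℝ) ≤ Real.exp (eL X) := by linarith
          gcongr
      _ ≤ X * (Real.exp (-1 * eL X) * Real.exp (3 * eL X)) := by
          rw [← Real.exp_add]
          apply mul_le_mul_of_nonneg_left _ hX0
          apply Real.exp_le_exp.2
          linarith
      _ ≤ X * Real.exp (-1 * eL X) * HH X := by
          rw [mul_assoc]
          gcongr
  have h3 : (1 : ℝ) ≤ X * Real.exp (-1 * eL X) := by
    have e : Real.exp (eL X) * Real.exp (-1 * eL X) = 1 := by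
      rw [← Real.exp_add]
      have : eL X + -1 * eL X = 0 := by ring
      rw [this, Real.exp_zero]
    calc (1 : ℝ) = Real.exp (eL X) * Real.exp (-1 * eL X) := e.symm
      _ ≤ X * Real.exp (-1 * eL X) := mul_le_mul_of_nonneg_right hl (Real.exp_pos _).le
  linarith

/-- the main error term -/
theorem sml_main {C : ℝ} (hC : 1 ≤ C) : Neg fun X => (56 * (NN X : ℝ) + 56) ^ kk X *
    (3 ^ (6 * kk X ^ 2) * kap C X) * (X * (1 + Real.log X)) := by
  apply sml_of (C := 4 * C) (a := 1) (by norm_num)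
  filter_upwards [ev_eL 11000] with X hX
  set l := eL X with hl
  have h0 : 0 < eL X := by linarith
  have h1 : 1 ≤ eL X := by linarith
  have hX0 : (0 : ℝ) ≤ X := Nat.cast_nonneg _
  have hN : 56 * (NN X : ℝ) + 56 ≤ Real.exp (5 * l) := by
    have h2 : (NN X : ℝ) ≤ HH X * Real.log X + 1 := by
      unfold NN
      push_cast
      have := Nat.floor_le (a := (HH X : ℝ) * Real.log X)
        (mul_nonneg (Nat.cast_nonneg _) (Real.log_natCast_nonneg X))
      linarith
    have h3 : (HH X : ℝ) * Real.log X ≤ 2 * Real.exp (4 * l) := by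
      rw [logX_eq h0]
      calc (HH X : ℝ) * Real.exp (eL X) ≤ 2 * Real.exp (3 * eL X) * Real.exp (eL X) :=
            mul_le_mul_of_nonneg_right (HH_le h0) (Real.exp_pos _).le
        _ = 2 * Real.exp (4 * l) := by
            rw [mul_assoc, ← Real.exp_add]
            congr 2
            rw [hl]
            ring
    have h4 : 1 ≤ Real.exp (4 * l) := one_le_exp (by linarith)
    have h5 : (224 : ℝ) ≤ Real.exp l := by
      have := Real.add_one_le_exp l
      linarith
    have h6 : Real.exp (5 * l) = Real.exp (4 * l) * Real.exp l := by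
      rw [← Real.exp_add]; congr 1; ring
    rw [h6]
    nlinarith
  have hkk := kk_le h1
  have hkk0 : (0 : ℝ) ≤ kk X := Nat.cast_nonneg _
  have hA : (56 * (NN X : ℝ) + 56) ^ kk X ≤ Real.exp (55 * l ^ 2) := by
    calc (56 * (NN X : ℝ) + 56) ^ kk X ≤ (Real.exp (5 * l)) ^ kk X := by gcongr
      _ = Real.exp (kk X * (5 * l)) := (Real.exp_nat_mul _ _).symm
      _ ≤ Real.exp (55 * l ^ 2) := by
          apply Real.exp_le_exp.2
          nlinarith
  have hB : (3 : ℝ) ^ (6 * kk X ^ 2) ≤ Real.exp (800 * l ^ 2) := by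
    have e : (3 : ℝ) ^ (6 * kk X ^ 2) = Real.exp ((6 * (kk X : ℝ) ^ 2) * Real.log 3) := by
      rw [mul_comm (6 * (kk X : ℝ) ^ 2) (Real.log 3), Real.exp_mul, Real.exp_log (by norm_num)]
      rw [← Real.rpow_natCast]
      congr 1
      push_cast
      ring
    rw [e]
    apply Real.exp_le_exp.2
    have h2 : Real.log 3 ≤ 1.1 := by
      have h3 : (3 : ℝ) ≤ Real.exp 1.1 := by
        have h4 : (2.7182818283 : ℝ) < Real.exp 1 := Real.exp_one_gt_d9
        have h5 : (1.105 : ℝ) ≤ Real.exp 0.1 := by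
          have := Real.quadratic_le_exp_of_nonneg (x := 0.1) (by norm_num)
          norm_num at this ⊢
          linarith
        have h6 : Real.exp 1.1 = Real.exp 1 * Real.exp 0.1 := by
          rw [← Real.exp_add]; norm_num
        rw [h6]
        nlinarith
      calc Real.log 3 ≤ Real.log (Real.exp 1.1) := Real.log_le_log (by norm_num) h3
        _ = 1.1 := Real.log_exp _
    have h3 : (kk X : ℝ) ^ 2 ≤ 121 * l ^ 2 := by nlinarith
    have h4 : 0 ≤ (kk X : ℝ) ^ 2 := sq_nonneg _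
    nlinarith [sq_nonneg l]
  have hK := kap_le hC h1
  have hLg := one_add_log h0
  have hmain : (56 * (NN X : ℝ) + 56) ^ kk X * (3 ^ (6 * kk X ^ 2) * kap C X) *
      (X * (1 + Real.log X)) ≤ Real.exp (55 * l ^ 2) * (Real.exp (800 * l ^ 2) *
        (2 * C * Real.exp (-l ^ 3 / 12))) * (X * (2 * Real.exp l)) := by
    have := kap_nonneg hC X
    have : 0 ≤ 1 + Real.log X := by
      have := Real.log_natCast_nonneg X
      linarith
    gcongr
  refine hmain.trans ?_
  have e : Real.exp (55 * l ^ 2) * (Real.exp (800 * l ^ 2) *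
        (2 * C * Real.exp (-l ^ 3 / 12))) * (X * (2 * Real.exp l)) =
      4 * C * (X * Real.exp (55 * l ^ 2 + 800 * l ^ 2 + -l ^ 3 / 12 + l)) := by
    rw [Real.exp_add, Real.exp_add, Real.exp_add]
    ring
  rw [e]
  have h9 : 55 * l ^ 2 + 800 * l ^ 2 + -l ^ 3 / 12 + l ≤ -1 * l := by
    have h10 : 11000 * l ^ 2 ≤ l ^ 3 := by
      have : l ^ 3 = l * l ^ 2 := by ring
      rw [this]
      exact mul_le_mul_of_nonneg_right hX (sq_nonneg l)
    nlinarith
  have h11 := Real.exp_le_exp.2 h9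
  have hC0 : (0 : ℝ) ≤ 4 * C := by linarith
  gcongr

/-- the class is contained in the set of all sets of primes -/
theorem SS_sub {b r : ℕ} {v : ℤ} (X : ℕ) : SS b r v X ⊆ AA X := by
  intro S hS
  unfold SS at hS
  unfold Pool.Agent.NH5.PR.AA
  rw [mem_filter] at hS ⊢
  refine ⟨hS.1, fun p hp => ?_, hS.2.2⟩
  obtain ⟨h1, h2⟩ := hS.2.1.1 p hp
  refine ⟨h1, ?_, ?_⟩
  · rintro rfl
    exact h2 ⟨7 * b, by ring⟩
  · rintro rfl
    exact h2 ⟨2 * b, by ring⟩

theorem mem_Wm {M : ℕ} {m : Fin M → Finset ℕ} {u : ℕ} : u ∈ Wm m ↔ ∃ i, u ∈ m i := by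
  unfold Wm
  rw [mem_biUnion]
  simp

/-- the class is disjoint from the masks -/
theorem disj {M b r : ℕ} {v : ℤ} {m : Fin M → Finset ℕ} (hM : OkM b m) {X : ℕ} {S : Finset ℕ}
    (hS : S ∈ SS b r v X) : Disjoint S (Wm m) := by
  unfold SS at hS
  rw [mem_filter] at hS
  rw [Finset.disjoint_left]
  intro p hp hpW
  obtain ⟨i, hi⟩ := mem_Wm.1 hpW
  exact (hS.2.1.1 p hp).2 (Dvd.dvd.mul_left (hM.2 i p hi).2.2.2 14)

/-- degenerate labels -/
theorem bad_card {M b r : ℕ} {v : ℤ} {m : Fin M → Finset ℕ} (hM : OkM b m) {X z k : ℕ}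
    (hz : ∀ u ∈ Wm m, u ≤ z) (hk : (Wm m).card ≤ k) :
    ((SS b r v X).filter fun S => S.card ≤ k - (Wm m).card ∧ ¬ Nd (sm z S ∪ Wm m) (la z S)).card ≤
      ((AA ((∏ p ∈ Wm m, p) * X)).filter fun S => S.card ≤ k ∧ ¬ Nd (sm z S) (la z S)).card := by
  refine card_le_card_of_injOn (fun S => S ∪ Wm m) ?_ ?_
  · intro S hS
    rw [mem_coe, mem_filter] at hS
    obtain ⟨hS1, hS2, hS3⟩ := hS
    have hd := disj hM hS1
    have hA := SS_sub X hS1
    unfold Pool.Agent.NH5.PR.AA at hA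
    rw [mem_filter, mem_powerset] at hA
    have hprod : ∏ p ∈ S ∪ Wm m, p ≤ (∏ p ∈ Wm m, p) * X := by
      rw [prod_union hd, mul_comm]
      exact Nat.mul_le_mul_left _ hA.2.2
    have hpr : ∀ p ∈ S ∪ Wm m, p.Prime ∧ p ≠ 2 ∧ p ≠ 7 := by
      intro p hp
      rcases mem_union.1 hp with h | h
      · exact hA.2.1 p h
      · obtain ⟨i, hi⟩ := mem_Wm.1 h
        have := hM.2 i p hi
        exact ⟨this.1, this.2.1, this.2.2.1⟩
    rw [mem_coe, mem_filter]
    refine ⟨?_, ?_, ?_⟩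
    · unfold Pool.Agent.NH5.PR.AA
      rw [mem_filter, mem_powerset]
      refine ⟨?_, hpr, hprod⟩
      intro p hp
      rw [mem_range]
      have h1 : p ∣ ∏ p ∈ S ∪ Wm m, p := dvd_prod_of_mem _ hp
      have h2 : 0 < ∏ p ∈ S ∪ Wm m, p := prod_pos fun q hq => (hpr q hq).1.pos
      have h3 := Nat.le_of_dvd h2 h1
      omega
    · have := card_union_le S (Wm m)
      show (S ∪ Wm m).card ≤ k
      omega
    · have e1 : sm z (S ∪ Wm m) = sm z S ∪ Wm m := by
        unfold Pool.Agent.Y703.CX.sm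
        rw [filter_union, filter_true_of_mem hz]
      have e2 : la z (S ∪ Wm m) = la z S := by
        unfold Pool.Agent.Y703.CX.la
        rw [filter_union, filter_false_of_mem (s := Wm m) (fun u hu => not_not.2 (hz u hu)),
          union_empty]
      rw [e1, e2]
      exact hS3
  · intro S hS S' hS' h
    rw [mem_coe, mem_filter] at hS hS'
    have hd := disj hM hS.1
    have hd' := disj hM hS'.1
    have h1 : (S ∪ Wm m) \ Wm m = (S' ∪ Wm m) \ Wm m := by
      have h' : S ∪ Wm m = S' ∪ Wm m := h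
      rw [h']
    rwa [union_sdiff_cancel_right hd, union_sdiff_cancel_right hd'] at h1

/-- the sets outside the regular part -/
theorem out_sub {M : ℕ} (b r : ℕ) (v : ℤ) (m : Fin M → Finset ℕ) (X X' z H k L R : ℕ)
    (hXX : X ≤ X') :
    SS b r v X \ ((RR b r v m X z H k L R).filter fun S => NdJ L R m (sm z S) (la z S)) ⊆
      ((((((AA X').filter fun S => k < S.card) ∪
      ((AA X).filter fun S => S.card ≤ k ∧
        X < (∏ p ∈ sm z S, p) * ∏ p ∈ la z S, XX H (jj H p))) ∪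
      ((AA X').filter fun S => ¬ Set.InjOn (jj H) (la z S : Set ℕ))) ∪
      ((AA X').filter fun S => (sA (la z S)).card < L * (sm z S).card + (R + L * (Wm m).card) ∨
        sI (la z S) = ∅)) ∪
      ((univ : Finset (Fin M × Fin M)).filter fun q => q.1 ≠ q.2).biUnion (fun q =>
        (AA X').filter fun S => ((la z S).filter fun p => p % 8 = 1 ∧ sq7 p ∧
          ∑ u ∈ symmDiff (m q.1) (m q.2), nr p u ≠ 0).card <
            L * (sm z S).card + (R + L * (Wm m).card))) ∪
      ((SS b r v X).filter fun S => S.card ≤ k ∧ ¬ Nd (sm z S ∪ Wm m) (la z S)) := by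
  intro S hS
  rw [Finset.mem_sdiff, Finset.mem_filter] at hS
  obtain ⟨h1, h2⟩ := hS
  have h1' := SS_sub X h1
  have h1'' := AA_mono hXX h1'
  simp only [mem_union, mem_filter, mem_biUnion, mem_univ, true_and]
  by_contra hc
  push Not at hc
  obtain ⟨⟨⟨⟨⟨c1, c2⟩, c3⟩, c4⟩, c5⟩, c6⟩ := hc
  have d1 : S.card ≤ k := c1 h1''
  have d2 := c2 h1' d1
  have d3 := c3 h1''
  have d4 := c4 h1''
  have d6 := c6 h1 d1
  have hcu : L * (sm z S ∪ Wm m).card ≤ L * (sm z S).card + L * (Wm m).card := by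
    rw [← Nat.mul_add]
    exact Nat.mul_le_mul_left _ (card_union_le _ _)
  apply h2
  refine ⟨?_, d6, ?_⟩
  · unfold RR
    rw [mem_filter]
    refine ⟨h1, d3, d1, d2, ?_, d4.2⟩
    have := d4.1
    omega
  · intro i j hij
    have := c5 (i, j) hij h1''
    change L * (sm z S).card + (R + L * (Wm m).card) ≤ ((la z S).filter fun p => p % 8 = 1 ∧ sq7 p ∧
      ∑ u ∈ symmDiff (m i) (m j), nr p u ≠ 0).card at this
    omega

end AsyJ

open AsyJ in
theorem t_JASY : S_JASY := by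
  intro hBIL hEQ hJLA hLaw hBOX hKEY hC hSIE hHAL hBAD hMER hJMER hFEW hSEP hLOW hJLOW hETA
  intro M b r v f m rr hO hOM
  -- the masks
  set c := (Wm m).card with hc
  set w := ∏ p ∈ Wm m, p with hw
  have hw1 : 1 ≤ w := by
    rw [hw]
    refine Nat.one_le_iff_ne_zero.2 (prod_ne_zero_iff.2 fun p hp => ?_)
    obtain ⟨i, hi⟩ := mem_Wm.1 hp
    exact (hOM.2 i p hi).1.ne_zero
  obtain ⟨u0, hu0⟩ : ∃ u0 : ℕ, ∀ u ∈ Wm m, u ≤ u0 :=
    ⟨(Wm m).sup id, fun u hu => le_sup (f := id) hu⟩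
  obtain ⟨v0, hv0⟩ : ∃ v0 : ℕ, ∀ i, |v + dlt (m i)| ≤ v0 := by
    refine ⟨∑ i, (v + dlt (m i)).natAbs, fun i => ?_⟩
    rw [Int.abs_eq_natAbs]
    exact_mod_cast single_le_sum (f := fun i => (v + dlt (m i)).natAbs) (fun _ _ => Nat.zero_le _)
      (mem_univ i)
  set P := ∏ i, law (v + dlt (m i)) (rr i) with hP
  have hP0 : 0 ≤ P := prod_nonneg fun i _ => hLaw.nonneg _ _
  have hP1 : P ≤ 1 := prod_le_one (fun i _ => hLaw.nonneg _ _) fun i _ => hLaw.le_one _ _
  obtain ⟨cl, X₀, hcl, hlow⟩ := hJLOW hLOW hMER b r v hO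
  obtain ⟨CB, XB, hbad⟩ := hBAD hSIE hHAL hMER
  rw [Metric.tendsto_nhds]
  intro ε hε
  obtain ⟨L, R, C, hC1, hkey⟩ := hKEY hBIL hEQ hJLA hLaw hBOX M v0 rr (ε / 4) (by linarith)
  obtain ⟨CF, XF, hfew⟩ := hFEW hSIE hMER L (R + L * c)
  -- the negligible sets
  have s1 := sml_comp (sml_many hC c) hw1
  have s2 := sml_comp sml_cut hw1
  have s3 := sml_comp (Pool.Agent.NH5.PR.AsyP.sml_coll hC) hw1
  have s4 := sml_comp (sml_rpow (by norm_num) hfew) hw1
  have s5 : Neg fun X => ∑ q ∈ (univ : Finset (Fin M × Fin M)).filter (fun q => q.1 ≠ q.2),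
      (((AA (w * X)).filter fun S => ((la (zz (w * X)) S).filter fun p => p % 8 = 1 ∧ sq7 p ∧
          ∑ u ∈ symmDiff (m q.1) (m q.2), nr p u ≠ 0).card <
            L * (sm (zz (w * X)) S).card + (R + L * c)).card : ℝ) := by
    refine sml_sum _ fun q hq => ?_
    rw [mem_filter] at hq
    obtain ⟨C', X', h'⟩ := hSEP hSIE hMER hJMER L (R + L * c) (symmDiff (m q.1) (m q.2))
      (by
        rw [Finset.nonempty_iff_ne_empty]
        intro h
        exact hq.2 (hOM.1 (symmDiff_eq_bot.1 h)))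
      (by
        intro u hu
        rw [Finset.mem_symmDiff] at hu
        rcases hu with ⟨hu, -⟩ | ⟨hu, -⟩
        · have := hOM.2 _ u hu
          exact ⟨this.1, this.2.1, this.2.2.1⟩
        · have := hOM.2 _ u hu
          exact ⟨this.1, this.2.1, this.2.2.1⟩)
    exact sml_comp (sml_rpow (by norm_num) h') hw1
  have s6 := sml_comp (sml_rpow (by norm_num) hbad) hw1
  have s7 := sml_comp (sml_main hC1) hw1
  have s := sml_add (sml_add (sml_add (sml_add (sml_add (sml_add s1 s2) s3) s4) s5) s6) s7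
  have hδ : (0 : ℝ) < cl * ε / 4 := by positivity
  filter_upwards [s (cl * ε / 4) hδ, ev_eL 1, eventually_ge_atTop X₀,
    (tendsto_mul hw1).eventually (ev_eL (max 1 (max (u0 : ℝ) (2 * c))))] with X hX hl hX0 hlw
  have hl0 : 0 < eL X := by linarith
  have hl1 : 1 ≤ eL (w * X) := (le_max_left _ _).trans hlw
  have hl2 : (u0 : ℝ) ≤ eL (w * X) := ((le_max_left _ _).trans (le_max_right _ _)).trans hlw
  have hl3 : 2 * (c : ℝ) ≤ eL (w * X) := ((le_max_right _ _).trans (le_max_right _ _)).trans hlw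
  have hl0' : 0 < eL (w * X) := by linarith
  have hlo := hlow X hX0
  have hXp := X_pos hl0
  have hXp' : (0 : ℝ) < X := by exact_mod_cast hXp
  have hXX : X ≤ w * X := Nat.le_mul_of_pos_left X hw1
  have hXXr : (X : ℝ) ≤ ((w * X : ℕ) : ℝ) := by exact_mod_cast hXX
  have hsq : 0 < Real.sqrt (eL X) := Real.sqrt_pos.2 hl0
  have hSpos : (0 : ℝ) < ((SS b r v X).card : ℝ) := by
    refine lt_of_lt_of_le ?_ hlo
    positivity
  have hlogle : Real.log X ≤ Real.log ((w * X : ℕ) : ℝ) := Real.log_le_log hXp' hXXr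
  have hlog0 : 0 ≤ Real.log X := Real.log_natCast_nonneg X
  set Y := w * X with hY
  have hN : (HH Y : ℝ) * Real.log X < NN Y := by
    unfold NN
    push_cast
    refine lt_of_le_of_lt ?_ (Nat.lt_floor_add_one _)
    exact mul_le_mul_of_nonneg_left hlogle (Nat.cast_nonneg _)
  have hzbig : Real.exp ((eL Y) ^ 3) ≥ (eL Y) + 1 := by
    have h3 : eL Y ≤ (eL Y) ^ 3 := le_self_pow₀ hl1 (by norm_num)
    have h4 := Real.add_one_le_exp ((eL Y) ^ 3)
    linarith
  have hz2 : 2 ≤ zz Y := by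
    unfold Pool.Agent.Y703.CX.zz
    apply Nat.le_floor
    push_cast
    linarith
  have hzu : ∀ u ∈ Wm m, u ≤ zz Y := by
    intro u hu
    refine (hu0 u hu).trans ?_
    unfold Pool.Agent.Y703.CX.zz
    apply Nat.le_floor
    linarith
  have hkc : 2 * c ≤ kk Y := by
    have h3 := kk_ge Y
    have h4 : (2 * (c : ℝ)) ≤ kk Y := by linarith
    exact_mod_cast h4
  have hmain := hkey b r v f m X (zz Y) (HH Y) (kk Y - c) (NN Y) (kap C Y) hO hOM hv0 hzu
    (by omega) hXp (HH_pos hl0') hz2 (kap_nonneg hC1 Y) (kap_pow hC1 hl1) hN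
  set T := (RR b r v m X (zz Y) (HH Y) (kk Y - c) L R).filter
    fun S => NdJ L R m (sm (zz Y) S) (la (zz Y) S) with hT
  have hTG : (RR b r v m X (zz Y) (HH Y) (kk Y - c) L R).filter
      (fun S => NdJ L R m (sm (zz Y) S) (la (zz Y) S) ∧ Ev f m rr S) = T.filter (Ev f m rr) := by
    rw [hT, filter_filter]
  rw [hTG] at hmain
  have hTS : T ⊆ SS b r v X := (filter_subset _ _).trans (filter_subset _ _)
  have hRS : ((RR b r v m X (zz Y) (HH Y) (kk Y - c) L R).card : ℝ) ≤ ((SS b r v X).card : ℝ) := by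
    exact_mod_cast card_le_card (filter_subset _ _)
  have hcmp := cmp (Ev f m rr) T (SS b r v X) hTS P hP0 hP1
  -- the exceptional sets
  have hcut : (((AA X).filter fun S => S.card ≤ kk Y - c ∧
      X < (∏ p ∈ sm (zz Y) S, p) * ∏ p ∈ la (zz Y) S, XX (HH Y) (jj (HH Y) p)).card : ℝ) ≤
      (Y : ℝ) * kk Y / HH Y + 1 := by
    refine (hC.cut X (zz Y) (HH Y) (kk Y - c) hXp (HH_pos hl0')).trans ?_
    have h3 : ((kk Y - c : ℕ) : ℝ) ≤ kk Y := by exact_mod_cast Nat.sub_le _ _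
    have h4 : (0 : ℝ) < HH Y := by exact_mod_cast HH_pos hl0'
    gcongr
  have hbadc : (((SS b r v X).filter fun S => S.card ≤ kk Y - c ∧
      ¬ Nd (sm (zz Y) S ∪ Wm m) (la (zz Y) S)).card : ℝ) ≤
      (((AA Y).filter fun S => S.card ≤ kk Y ∧ ¬ Nd (sm (zz Y) S) (la (zz Y) S)).card : ℝ) := by
    exact_mod_cast bad_card hOM hzu (by omega)
  have hout : ((SS b r v X \ T).card : ℝ) ≤
      (((((AA Y).filter fun S => kk Y - c < S.card).card : ℝ) +
      ((Y : ℝ) * kk Y / HH Y + 1) +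
      (((AA Y).filter fun S => ¬ Set.InjOn (jj (HH Y)) (la (zz Y) S : Set ℕ)).card : ℝ) +
      (((AA Y).filter fun S => (sA (la (zz Y) S)).card < L * (sm (zz Y) S).card + (R + L * c) ∨
        sI (la (zz Y) S) = ∅).card : ℝ)) +
      ∑ q ∈ (univ : Finset (Fin M × Fin M)).filter (fun q => q.1 ≠ q.2),
      (((AA Y).filter fun S => ((la (zz Y) S).filter fun p => p % 8 = 1 ∧ sq7 p ∧
          ∑ u ∈ symmDiff (m q.1) (m q.2), nr p u ≠ 0).card <
            L * (sm (zz Y) S).card + (R + L * c)).card : ℝ)) +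
      (((AA Y).filter fun S => S.card ≤ kk Y ∧ ¬ Nd (sm (zz Y) S) (la (zz Y) S)).card : ℝ) := by
    have g := card_le_card (out_sub b r v m X Y (zz Y) (HH Y) (kk Y - c) L R hXX)
    rw [← hT, ← hc] at g
    have g2 := (g.trans (card_union_le _ _)).trans (Nat.add_le_add_right ((card_union_le _ _).trans
      (Nat.add_le_add ((card_union_le _ _).trans
      (Nat.add_le_add_right ((card_union_le _ _).trans
      (Nat.add_le_add_right (card_union_le _ _) _)) _)) card_biUnion_le)) _)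
    have g3 : ((SS b r v X \ T).card : ℝ) ≤ _ := Nat.cast_le.2 g2
    push_cast at g3
    linarith
  have hmt : (56 * (NN Y : ℝ) + 56) ^ (kk Y - c) * (3 ^ (6 * (kk Y - c) ^ 2) * kap C Y) *
      (X * (1 + Real.log X)) ≤
      (56 * (NN Y : ℝ) + 56) ^ kk Y * (3 ^ (6 * kk Y ^ 2) * kap C Y) *
      (Y * (1 + Real.log Y)) := by
    have h3 := kap_nonneg hC1 Y
    have h4 : (1 : ℝ) ≤ 56 * (NN Y : ℝ) + 56 := by
      have : (0 : ℝ) ≤ NN Y := Nat.cast_nonneg _
      linarith
    have h5 : (56 * (NN Y : ℝ) + 56) ^ (kk Y - c) ≤ (56 * (NN Y : ℝ) + 56) ^ kk Y :=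
      pow_le_pow_right₀ h4 (Nat.sub_le _ _)
    have h6 : (3 : ℝ) ^ (6 * (kk Y - c) ^ 2) ≤ 3 ^ (6 * kk Y ^ 2) :=
      pow_le_pow_right₀ (by norm_num) (Nat.mul_le_mul_left _ (Nat.pow_le_pow_left (Nat.sub_le _ _) 2))
    have h7 : (X : ℝ) * (1 + Real.log X) ≤ Y * (1 + Real.log Y) :=
      mul_le_mul hXXr (by linarith) (by linarith) (Nat.cast_nonneg _)
    exact mul_le_mul (mul_le_mul h5 (mul_le_mul_of_nonneg_right h6 h3) (by positivity)
      (by positivity)) h7 (by positivity) (by positivity)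
  have htot : |(((SS b r v X).filter (Ev f m rr)).card : ℝ) - P * ((SS b r v X).card : ℝ)| ≤
      ε / 4 * ((SS b r v X).card : ℝ) + cl * ε / 4 * (X / Real.sqrt (eL X)) := by
    have g1 : ε / 4 * ((RR b r v m X (zz Y) (HH Y) (kk Y - c) L R).card : ℝ) ≤
        ε / 4 * ((SS b r v X).card : ℝ) := mul_le_mul_of_nonneg_left hRS (by linarith)
    linarith
  rw [Real.dist_eq]
  have e3 : (((SS b r v X).filter (Ev f m rr)).card : ℝ) / ((SS b r v X).card : ℝ) - P =
      ((((SS b r v X).filter (Ev f m rr)).card : ℝ) - P * ((SS b r v X).card : ℝ)) /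
        ((SS b r v X).card : ℝ) := by
    field_simp
  rw [e3, abs_div, abs_of_pos hSpos, div_lt_iff₀ hSpos]
  refine lt_of_le_of_lt htot ?_
  have g2 : cl * ε / 4 * (X / Real.sqrt (eL X)) ≤ ε / 4 * ((SS b r v X).card : ℝ) := by
    calc cl * ε / 4 * (X / Real.sqrt (eL X)) =
          ε / 4 * (cl * X / Real.sqrt (eL X)) := by ring
      _ ≤ _ := mul_le_mul_of_nonneg_left hlo (by linarith)
  have g4 : 0 < ε * ((SS b r v X).card : ℝ) := by positivity
  linarith

end Pool.Agent.NH4.PJ
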