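import Mathlib
import Pool.Agent.NH4.PJ.Stm

/-!
# The joint law from the mixed moments
-/

set_option autoImplicit false
set_option linter.unusedVariables false

open scoped Classical

namespace Pool.Agent.NH4.PJ

open Finset

namespace ABS

/-- `∏ (2 ^ j - 1)` -/
noncomputable def Q (n : ℕ) : ℝ := ∏ j ∈ range n, ((2 : ℝ) ^ (j + 1) - 1)

lemma Q_zero : Q 0 = 1 := by simp [Q]

lemma Q_succ (n : ℕ) : Q (n + 1) = Q n * (2 ^ (n + 1) - 1) := prod_range_succ _ _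

lemma two_pow_sub_pos (n : ℕ) : (1 : ℝ) ≤ 2 ^ (n + 1) - 1 := by
  have h1 : (1 : ℝ) ≤ 2 ^ n := one_le_pow₀ (by norm_num)
  rw [pow_succ]; linarith

lemma Q_pos (n : ℕ) : 0 < Q n :=
  prod_pos fun j _ => lt_of_lt_of_le one_pos (two_pow_sub_pos j)

/-- the number of the invertible matrices -/
noncomputable def gl (r : ℕ) : ℝ := ∏ j ∈ range r, ((2 : ℝ) ^ r - 2 ^ j)

lemma gl_pos (r : ℕ) : 0 < gl r := by
  apply prod_pos
  intro j hj
  have h1 : (2 : ℝ) ^ j < 2 ^ r := pow_lt_pow_right₀ one_lt_two (mem_range.1 hj)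
  linarith

/-- the coefficients -/
noncomputable def e (r j : ℕ) : ℝ := 1 / (gl r * (2 ^ r) ^ j * Q j)

lemma e_pos (r j : ℕ) : 0 < e r j := by
  unfold e
  have := gl_pos r
  have := Q_pos j
  positivity

/-- the `q`-binomial polynomials -/
noncomputable def B (j : ℕ) (x : ℝ) : ℝ := (∏ i ∈ range j, (x - 2 ^ i)) / Q j

lemma sum_B (n : ℕ) (x : ℝ) : ∑ j ∈ range (n + 1), (-1) ^ j * B j x =
    (-1) ^ n * (∏ i ∈ range n, (x - 2 ^ (i + 1))) / Q n := by
  induction n with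
  | zero => simp [B, Q]
  | succ n ih =>
    rw [sum_range_succ, ih, B, prod_range_succ', prod_range_succ, Q_succ, pow_succ]
    have h1 := (Q_pos n).ne'
    have h2 : (2 : ℝ) ^ (n + 1) - 1 ≠ 0 := (lt_of_lt_of_le one_pos (two_pow_sub_pos n)).ne'
    field_simp
    ring

lemma prod_nonneg_aux (k κ : ℕ) : 0 ≤ ∏ j ∈ range k, ((2 : ℝ) ^ κ - 2 ^ j) := by
  by_cases h : k ≤ κ
  · apply prod_nonneg
    intro j hj
    have h1 : (2 : ℝ) ^ j ≤ 2 ^ κ := pow_le_pow_right₀ one_le_two (by have := mem_range.1 hj; omega)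
    linarith
  · rw [prod_eq_zero (mem_range.2 (not_le.1 h))]
    simp

lemma B_nonneg (j s : ℕ) : 0 ≤ B j (2 ^ s) := div_nonneg (prod_nonneg_aux j s) (Q_pos j).le

lemma bern (n s : ℕ) : |(if s = 0 then (1 : ℝ) else 0) -
    ∑ j ∈ range (n + 1), (-1) ^ j * B j (2 ^ s)| ≤ B (n + 1) (2 ^ s) := by
  rw [sum_B]
  rcases Nat.eq_zero_or_pos s with rfl | hs
  · have h1 : ∏ i ∈ range n, ((2 : ℝ) ^ 0 - 2 ^ (i + 1)) = (-1) ^ n * Q n := by
      have hc : (-1 : ℝ) ^ n = ∏ i ∈ range n, (-1 : ℝ) := by simp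
      rw [hc, Q, ← prod_mul_distrib]
      apply prod_congr rfl
      intro i _
      ring
    have h2 : (-1 : ℝ) ^ n * ((-1) ^ n * Q n) / Q n = 1 := by
      rw [← mul_assoc, ← mul_pow]
      have := (Q_pos n).ne'
      field_simp
      norm_num
    rw [h1, h2]
    simpa using B_nonneg (n + 1) 0
  · rw [if_neg hs.ne', zero_sub, abs_neg]
    by_cases hn : s ≤ n
    · have h0 : ∏ i ∈ range n, ((2 : ℝ) ^ s - 2 ^ (i + 1)) = 0 := by
        apply prod_eq_zero (i := s - 1) (mem_range.2 (by omega))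
        rw [Nat.sub_add_cancel hs]; ring
      rw [h0]
      simpa using B_nonneg (n + 1) s
    · have h0 : 0 ≤ ∏ i ∈ range n, ((2 : ℝ) ^ s - 2 ^ (i + 1)) := by
        apply prod_nonneg
        intro i hi
        have h1 : (2 : ℝ) ^ (i + 1) ≤ 2 ^ s :=
          pow_le_pow_right₀ one_le_two (by have := mem_range.1 hi; omega)
        linarith
      have hq := Q_pos n
      have h3 := two_pow_sub_pos n
      have h4 : (2 : ℝ) ^ (n + 1) ≤ 2 ^ s := pow_le_pow_right₀ one_le_two (by omega)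
      rw [abs_div, abs_mul, abs_pow, abs_neg, abs_one, one_pow, one_mul, abs_of_nonneg h0,
        abs_of_pos hq, B, prod_range_succ', Q_succ, pow_zero]
      rw [div_le_div_iff₀ hq (by positivity)]
      have h5 : (∏ i ∈ range n, ((2 : ℝ) ^ s - 2 ^ (i + 1))) * Q n * (2 ^ (n + 1) - 1) ≤
          (∏ i ∈ range n, ((2 : ℝ) ^ s - 2 ^ (i + 1))) * Q n * (2 ^ s - 1) :=
        mul_le_mul_of_nonneg_left (by linarith) (by positivity)
      linarith

lemma inj_pow (k κ : ℕ) : inj k (2 ^ κ) = ∏ j ∈ range k, ((2 : ℝ) ^ κ - 2 ^ j) := by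
  unfold inj
  push_cast
  rfl

lemma inj_nonneg (k κ : ℕ) : 0 ≤ inj k (2 ^ κ) := by
  rw [inj_pow]; exact prod_nonneg_aux k κ

lemma e_inj (r j κ : ℕ) (h : r ≤ κ) :
    e r j * inj (r + j) (2 ^ κ) = inj r (2 ^ κ) / gl r * B j (2 ^ (κ - r)) := by
  rw [inj_pow, inj_pow, prod_range_add, e, B]
  have h1 : ∏ x ∈ range j, ((2 : ℝ) ^ κ - 2 ^ (r + x)) =
      (2 ^ r) ^ j * ∏ x ∈ range j, ((2 : ℝ) ^ (κ - r) - 2 ^ x) := by
    have hc : ((2 : ℝ) ^ r) ^ j = ∏ i ∈ range j, ((2 : ℝ) ^ r) := by simp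
    rw [hc, ← prod_mul_distrib]
    apply prod_congr rfl
    intro i _
    rw [mul_sub, ← pow_add, ← pow_add, Nat.add_sub_cancel' h]
  rw [h1]
  have := (gl_pos r).ne'
  have := (Q_pos j).ne'
  field_simp

lemma inj_zero (k κ : ℕ) (h : κ < k) : inj k (2 ^ κ) = 0 := by
  rw [inj_pow]
  exact prod_eq_zero (mem_range.2 h) (by simp)

/-- the pointwise approximation of the indicator -/
lemma key (r n κ : ℕ) : |(if κ = r then (1 : ℝ) else 0) -
    ∑ j ∈ range (n + 1), ((-1) ^ j * e r j) * inj (r + j) (2 ^ κ)| ≤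
      e r (n + 1) * inj (r + (n + 1)) (2 ^ κ) := by
  by_cases h : r ≤ κ
  · rw [e_inj r _ κ h]
    have hg : 0 ≤ inj r (2 ^ κ) / gl r := div_nonneg (inj_nonneg _ _) (gl_pos r).le
    have h1 : (if κ = r then (1 : ℝ) else 0) -
        ∑ j ∈ range (n + 1), ((-1) ^ j * e r j) * inj (r + j) (2 ^ κ) =
        inj r (2 ^ κ) / gl r * ((if κ - r = 0 then (1 : ℝ) else 0) -
          ∑ j ∈ range (n + 1), (-1) ^ j * B j (2 ^ (κ - r))) := by
      rw [mul_sub, mul_sum]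
      congr 1
      · by_cases hk : κ = r
        · subst hk
          rw [if_pos rfl, if_pos (by omega), inj_pow, mul_one]
          exact (div_self (gl_pos κ).ne').symm
        · rw [if_neg hk, if_neg (by omega), mul_zero]
      · apply sum_congr rfl
        intro j _
        rw [mul_assoc, e_inj r j κ h]
        ring
    rw [h1, abs_mul, abs_of_nonneg hg]
    exact mul_le_mul_of_nonneg_left (bern n (κ - r)) hg
  · have h1 : ∀ j, inj (r + j) (2 ^ κ) = 0 := fun j => inj_zero _ _ (by omega)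
    simp only [h1, mul_zero, sum_const_zero, sub_zero]
    rw [if_neg (by omega), abs_zero]

/-- products -/
lemma prod_diff {ι : Type} (A : Finset ι) (a T s E : ι → ℝ) (h1 : ∀ i, |T i| ≤ s i)
    (h2 : ∀ i, |a i - T i| ≤ E i) :
    |∏ i ∈ A, a i - ∏ i ∈ A, T i| ≤ ∏ i ∈ A, (s i + E i) - ∏ i ∈ A, s i := by
  have hs : ∀ i, 0 ≤ s i := fun i => (abs_nonneg _).trans (h1 i)
  have hE : ∀ i, 0 ≤ E i := fun i => (abs_nonneg _).trans (h2 i)
  have ha : ∀ i, |a i| ≤ s i + E i := by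
    intro i
    have := abs_add_le (T i) (a i - T i)
    rw [add_sub_cancel] at this
    linarith [h1 i, h2 i]
  induction A using Finset.induction_on with
  | empty => simp
  | insert i A hi ih =>
    rw [prod_insert hi, prod_insert hi, prod_insert hi, prod_insert hi]
    have h3 : |∏ i ∈ A, a i| ≤ ∏ i ∈ A, (s i + E i) := by
      rw [abs_prod]
      exact prod_le_prod (fun i _ => abs_nonneg _) (fun i _ => ha i)
    have h4 : a i * ∏ i ∈ A, a i - T i * ∏ i ∈ A, T i =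
        (a i - T i) * ∏ i ∈ A, a i + T i * (∏ i ∈ A, a i - ∏ i ∈ A, T i) := by ring
    rw [h4]
    refine (abs_add_le _ _).trans ?_
    rw [abs_mul, abs_mul]
    have h5 : |a i - T i| * |∏ i ∈ A, a i| ≤ E i * ∏ i ∈ A, (s i + E i) :=
      mul_le_mul (h2 i) h3 (abs_nonneg _) (hE i)
    have h6 : |T i| * |∏ i ∈ A, a i - ∏ i ∈ A, T i| ≤
        s i * (∏ i ∈ A, (s i + E i) - ∏ i ∈ A, s i) :=
      mul_le_mul (h1 i) ih (abs_nonneg _) (hs i)
    linarith

/-- the mean of a product of linear combinations -/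
lemma lin {M : ℕ} (rr : Fin M → ℕ) (m n' : ℕ) (c : Fin M → ℕ → ℝ) (h : ∀ i, rr i + m ≤ n')
    (θ : ℝ) (Ω : Type) [Fintype Ω] [Nonempty Ω] (N : Fin M → Ω → ℕ) (δ : Fin M → ℤ)
    (hk : ∀ k : Fin M → ℕ, (∀ i, k i ≤ n') →
      |(∑ ω, ∏ i, inj (k i) (N i ω)) / (Fintype.card Ω : ℝ) - ∏ i, (2 : ℝ) ^ ((k i : ℤ) * δ i)| ≤ θ) :
    |(∑ ω, ∏ i, ∑ j ∈ range (m + 1), c i j * inj (rr i + j) (N i ω)) / (Fintype.card Ω : ℝ) -
      ∏ i, ∑ j ∈ range (m + 1), c i j * (2 : ℝ) ^ (((rr i + j : ℕ) : ℤ) * δ i)| ≤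
      θ * ∏ i, ∑ j ∈ range (m + 1), |c i j| := by
  have h1 : (∑ ω, ∏ i, ∑ j ∈ range (m + 1), c i j * inj (rr i + j) (N i ω)) /
      (Fintype.card Ω : ℝ) = ∑ x ∈ Fintype.piFinset (fun _ : Fin M => range (m + 1)),
        (∏ i, c i (x i)) * ((∑ ω, ∏ i, inj (rr i + x i) (N i ω)) / (Fintype.card Ω : ℝ)) := by
    simp_rw [Finset.prod_univ_sum]
    rw [sum_comm, sum_div]
    apply sum_congr rfl
    intro x _
    rw [← mul_div_assoc, mul_sum]
    congr 1
    apply sum_congr rfl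
    intro ω _
    rw [prod_mul_distrib]
  rw [h1, Finset.prod_univ_sum, Finset.prod_univ_sum, ← sum_sub_distrib, mul_sum]
  refine (abs_sum_le_sum_abs _ _).trans (sum_le_sum ?_)
  intro x hx
  rw [prod_mul_distrib, ← mul_sub, abs_mul, abs_prod, mul_comm]
  apply mul_le_mul_of_nonneg_right _ (prod_nonneg fun i _ => abs_nonneg _)
  apply hk (fun i => rr i + x i)
  intro i
  have h2 := mem_range.1 ((Fintype.mem_piFinset.1 hx) i)
  have h3 := h i
  omega

/-! ### Euler's series -/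

lemma fact_le_Q (j : ℕ) : (j.factorial : ℝ) ≤ Q j := by
  induction j with
  | zero => simp [Q]
  | succ j ih =>
    rw [Q_succ, Nat.factorial_succ]
    push_cast
    have h1 : ((j + 1 : ℕ) : ℝ) + 1 ≤ 2 ^ (j + 1) := by
      have h2 : j + 1 + 1 ≤ 2 ^ (j + 1) := Nat.lt_two_pow_self
      exact_mod_cast h2
    push_cast at h1
    rw [mul_comm]
    exact mul_le_mul ih (by linarith) (by positivity) (Q_pos j).le

lemma summ (z : ℝ) : Summable (fun j : ℕ => z ^ j / Q j) := by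
  apply Summable.of_norm_bounded (Real.summable_pow_div_factorial |z|)
  intro j
  rw [norm_div, norm_pow, Real.norm_eq_abs, Real.norm_eq_abs, abs_of_pos (Q_pos j)]
  apply div_le_div_of_nonneg_left (by positivity) (by positivity) (fact_le_Q j)

/-- the series -/
noncomputable def G (z : ℝ) : ℝ := ∑' j : ℕ, z ^ j / Q j

lemma G_zero : G 0 = 1 := by
  unfold G
  rw [tsum_eq_single 0]
  · simp [Q]
  · intro j hj
    simp [hj]

lemma G_two (z : ℝ) : G (2 * z) = (1 + z) * G z := by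
  have h1 : G (2 * z) - G z = ∑' j : ℕ, ((2 * z) ^ j / Q j - z ^ j / Q j) :=
    ((summ (2 * z)).tsum_sub (summ z)).symm
  have h2 : Summable (fun j : ℕ => (2 * z) ^ j / Q j - z ^ j / Q j) :=
    (summ (2 * z)).sub (summ z)
  have h3 : ∑' j : ℕ, ((2 * z) ^ j / Q j - z ^ j / Q j) = z * G z := by
    rw [h2.tsum_eq_zero_add, G, ← tsum_mul_left]
    simp only [pow_zero, sub_self, zero_add]
    apply tsum_congr
    intro j
    rw [Q_succ]
    have := (Q_pos j).ne'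
    have := (lt_of_lt_of_le one_pos (two_pow_sub_pos j)).ne'
    field_simp
    ring
  rw [h3] at h1
  linarith

lemma G_prod (z : ℝ) (m : ℕ) :
    G (-z) = (∏ i ∈ range m, (1 - z / 2 ^ (i + 1))) * G (-(z / 2 ^ m)) := by
  induction m with
  | zero => simp
  | succ m ih =>
    rw [ih, prod_range_succ, mul_assoc]
    congr 1
    have h1 := G_two (-(z / 2 ^ (m + 1)))
    have h2 : 2 * -(z / 2 ^ (m + 1)) = -(z / 2 ^ m) := by rw [pow_succ]; field_simp
    rw [h2] at h1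
    rw [h1]
    ring

lemma G_tendsto (z : ℝ) :
    Filter.Tendsto (fun m : ℕ => G (-(z / 2 ^ m))) Filter.atTop (nhds 1) := by
  rw [← G_zero]
  unfold G
  apply tendsto_tsum_of_dominated_convergence (bound := fun j : ℕ => |z| ^ j / Q j) (summ |z|)
  · intro k
    apply Filter.Tendsto.div_const
    apply Filter.Tendsto.pow
    have h1 : Filter.Tendsto (fun m : ℕ => z * (1 / 2 : ℝ) ^ m) Filter.atTop (nhds (z * 0)) :=
      (tendsto_pow_atTop_nhds_zero_of_lt_one (by norm_num) (by norm_num)).const_mul z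
    have h2 := h1.neg
    rw [mul_zero, neg_zero] at h2
    refine h2.congr fun m => ?_
    rw [one_div, inv_pow, div_eq_mul_inv]
  · apply Filter.Eventually.of_forall
    intro m k
    rw [norm_div, norm_pow, Real.norm_eq_abs, Real.norm_eq_abs, abs_of_pos (Q_pos k), abs_neg,
      abs_div, abs_of_pos (show (0 : ℝ) < 2 ^ m by positivity)]
    apply div_le_div_of_nonneg_right _ (Q_pos k).le
    apply pow_le_pow_left₀ (by positivity)
    exact div_le_self (abs_nonneg _) (one_le_pow₀ one_le_two)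

lemma euler (z : ℝ) : ∏' i : ℕ, (1 - z / 2 ^ (i + 1)) = G (-z) := by
  have h1 : Multipliable fun i : ℕ => (1 - z / 2 ^ (i + 1)) := by
    have h2 : Summable fun i : ℕ => ‖-(z / 2 ^ (i + 1))‖ := by
      have h3 : Summable fun i : ℕ => |z| / 2 * (1 / 2 : ℝ) ^ i :=
        (summable_geometric_of_lt_one (by norm_num) (by norm_num)).mul_left _
      refine h3.congr fun i => ?_
      rw [norm_neg, norm_div, Real.norm_eq_abs, norm_pow, Real.norm_eq_abs,
        abs_of_pos (two_pos : (0 : ℝ) < 2), pow_succ, one_div, inv_pow]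
      field_simp
    have h4 := multipliable_one_add_of_summable h2
    exact h4.congr fun i => by rw [sub_eq_add_neg]
  have h5 := h1.hasProd.tendsto_prod_nat
  have h6 : Filter.Tendsto (fun m : ℕ => (∏ i ∈ range m, (1 - z / 2 ^ (i + 1))) *
      G (-(z / 2 ^ m))) Filter.atTop (nhds ((∏' i : ℕ, (1 - z / 2 ^ (i + 1))) * 1)) :=
    h5.mul (G_tendsto z)
  have h7 : (fun m : ℕ => (∏ i ∈ range m, (1 - z / 2 ^ (i + 1))) * G (-(z / 2 ^ m))) =
      fun _ => G (-z) := by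
    funext m
    exact (G_prod z m).symm
  rw [h7, mul_one] at h6
  exact tendsto_nhds_unique h6 tendsto_const_nhds

lemma gl_eq (r : ℕ) : gl r = 2 ^ (r ^ 2) * ∏ i ∈ range r, (1 - (1 / 2 : ℝ) ^ (i + 1)) := by
  have hc : (2 : ℝ) ^ (r ^ 2) = ∏ i ∈ range r, ((2 : ℝ) ^ r) := by
    simp [← pow_mul, sq]
  rw [hc, ← prod_mul_distrib, gl, ← prod_range_reflect]
  apply prod_congr rfl
  intro j hj
  have hj' := mem_range.1 hj
  have h1 : (2 : ℝ) ^ r = 2 ^ (r - 1 - j) * 2 ^ (j + 1) := by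
    rw [← pow_add]; congr 1; omega
  rw [mul_sub, mul_one]
  congr 1
  rw [h1, mul_assoc, ← mul_pow]
  norm_num

lemma term_eq (r j : ℕ) (δ : ℤ) : e r j * (2 : ℝ) ^ (((r + j : ℕ) : ℤ) * δ) =
    (2 : ℝ) ^ ((r : ℤ) * δ) / gl r * (((2 : ℝ) ^ (δ - (r : ℤ))) ^ j / Q j) := by
  have h1 : (2 : ℝ) ^ (((r + j : ℕ) : ℤ) * δ) = 2 ^ ((r : ℤ) * δ) * (2 ^ δ) ^ j := by
    rw [← zpow_natCast, ← zpow_mul, ← zpow_add₀ (two_ne_zero)]
    congr 1
    push_cast
    ring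
  rw [h1, e, zpow_sub₀ two_ne_zero, zpow_natCast, div_pow]
  have := (gl_pos r).ne'
  have := (Q_pos j).ne'
  field_simp

lemma law_eq (δ : ℤ) (r : ℕ) :
    law δ r = (2 : ℝ) ^ ((r : ℤ) * δ) / gl r * G (-((2 : ℝ) ^ (δ - (r : ℤ)))) := by
  have h1 : (fun i : ℕ => 1 - (2 : ℝ) ^ (δ - (r : ℤ) - ((i : ℤ) + 1))) =
      fun i : ℕ => 1 - (2 : ℝ) ^ (δ - (r : ℤ)) / 2 ^ (i + 1) := by
    funext i
    rw [zpow_sub₀ two_ne_zero (δ - (r : ℤ)), ← zpow_natCast]
    push_cast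
    rfl
  have h2 : (2 : ℝ) ^ ((r : ℤ) ^ 2) = 2 ^ (r ^ 2) := by
    rw [← zpow_natCast]
    push_cast
    rfl
  unfold law
  rw [← euler, gl_eq, zpow_sub₀ two_ne_zero, ← div_div, h1, h2]

lemma law_hasSum (δ : ℤ) (r : ℕ) :
    HasSum (fun j : ℕ => ((-1) ^ j * e r j) * (2 : ℝ) ^ (((r + j : ℕ) : ℤ) * δ)) (law δ r) := by
  rw [law_eq]
  have h1 := ((summ (-((2 : ℝ) ^ (δ - (r : ℤ))))).hasSum).mul_left
    ((2 : ℝ) ^ ((r : ℤ) * δ) / gl r)
  have h2 : (fun j : ℕ => ((-1) ^ j * e r j) * (2 : ℝ) ^ (((r + j : ℕ) : ℤ) * δ)) =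
      fun j : ℕ => (2 : ℝ) ^ ((r : ℤ) * δ) / gl r * ((-((2 : ℝ) ^ (δ - (r : ℤ)))) ^ j / Q j) := by
    funext j
    rw [mul_assoc, term_eq, neg_pow ((2 : ℝ) ^ (δ - (r : ℤ)))]
    ring
  rw [h2]
  exact h1

lemma e_summable (δ : ℤ) (r : ℕ) :
    Summable (fun j : ℕ => e r j * (2 : ℝ) ^ (((r + j : ℕ) : ℤ) * δ)) := by
  have h1 := (summ ((2 : ℝ) ^ (δ - (r : ℤ)))).mul_left ((2 : ℝ) ^ ((r : ℤ) * δ) / gl r)
  exact h1.congr fun j => (term_eq r j δ).symm

/-- the law for fixed `δ` -/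
lemma fixed (M : ℕ) (rr : Fin M → ℕ) (ε : ℝ) (hε : 0 < ε) (δ : Fin M → ℤ) :
    ∃ (n : ℕ) (θ : ℝ), 0 < θ ∧
    ∀ (Ω : Type) [Fintype Ω] [Nonempty Ω] (N : Fin M → Ω → ℕ),
    (∀ i ω, ∃ κ : ℕ, N i ω = 2 ^ κ) →
    (∀ k : Fin M → ℕ, (∀ i, k i ≤ n) →
      |(∑ ω, ∏ i, inj (k i) (N i ω)) / (Fintype.card Ω : ℝ) - ∏ i, (2 : ℝ) ^ ((k i : ℤ) * δ i)| ≤ θ) →
    |((univ.filter fun ω => ∀ i, N i ω = 2 ^ rr i).card : ℝ) / (Fintype.card Ω : ℝ) -
      ∏ i, law (δ i) (rr i)| ≤ ε := by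
  -- the limits
  set τ : ℕ → ℝ := fun n => ∏ i, ∑ j ∈ range (n + 1),
    ((-1) ^ j * e (rr i) j) * (2 : ℝ) ^ (((rr i + j : ℕ) : ℤ) * δ i) with hτ
  set σ : ℕ → ℝ := fun n => ∏ i, ∑ j ∈ range (n + 1),
    e (rr i) j * (2 : ℝ) ^ (((rr i + j : ℕ) : ℤ) * δ i) with hσ
  have l1 : Filter.Tendsto τ Filter.atTop (nhds (∏ i, law (δ i) (rr i))) := by
    apply tendsto_finsetProd
    intro i _
    exact (Filter.tendsto_add_atTop_iff_nat 1).2 (law_hasSum (δ i) (rr i)).tendsto_sum_nat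
  have l2 : ∃ L, Filter.Tendsto σ Filter.atTop (nhds L) := by
    refine ⟨∏ i, ∑' j : ℕ, e (rr i) j * (2 : ℝ) ^ (((rr i + j : ℕ) : ℤ) * δ i), ?_⟩
    apply tendsto_finsetProd
    intro i _
    exact (Filter.tendsto_add_atTop_iff_nat 1).2 (e_summable (δ i) (rr i)).hasSum.tendsto_sum_nat
  obtain ⟨L, l2⟩ := l2
  have l3 : Filter.Tendsto (fun n => σ (n + 1) - σ n) Filter.atTop (nhds 0) := by
    have := ((Filter.tendsto_add_atTop_iff_nat 1).2 l2).sub l2
    rwa [sub_self] at this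
  have e1 : ∀ᶠ n in Filter.atTop, |τ n - ∏ i, law (δ i) (rr i)| < ε / 4 := by
    have := (Metric.tendsto_atTop.1 l1) (ε / 4) (by positivity)
    obtain ⟨N, hN⟩ := this
    exact Filter.eventually_atTop.2 ⟨N, fun n hn => hN n hn⟩
  have e2 : ∀ᶠ n in Filter.atTop, σ (n + 1) - σ n < ε / 4 :=
    l3.eventually (gt_mem_nhds (by positivity))
  obtain ⟨n, h1, h2⟩ := (e1.and e2).exists
  set C1 : ℝ := ∏ i, ∑ j ∈ range (n + 1), |(-1) ^ j * e (rr i) j| with hC1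
  set C2 : ℝ := ∏ i, ∑ j ∈ range (n + 1), |e (rr i) j| with hC2
  set C3 : ℝ := ∏ i, ∑ j ∈ range (n + 1 + 1), |e (rr i) j| with hC3
  have p1 : 0 ≤ C1 := prod_nonneg fun i _ => sum_nonneg fun j _ => abs_nonneg _
  have p2 : 0 ≤ C2 := prod_nonneg fun i _ => sum_nonneg fun j _ => abs_nonneg _
  have p3 : 0 ≤ C3 := prod_nonneg fun i _ => sum_nonneg fun j _ => abs_nonneg _
  refine ⟨(∑ i, rr i) + (n + 1), ε / (2 * (C1 + C2 + C3 + 1)), by positivity, ?_⟩
  intro Ω _ _ N hN hk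
  have hr : ∀ i, rr i ≤ ∑ i, rr i := fun i => single_le_sum (fun _ _ => Nat.zero_le _) (mem_univ i)
  set θ : ℝ := ε / (2 * (C1 + C2 + C3 + 1)) with hθ
  have a1 := lin rr n _ (fun i j => (-1) ^ j * e (rr i) j) (fun i => by have := hr i; omega) θ Ω N δ hk
  have a2 := lin rr n _ (fun i j => e (rr i) j) (fun i => by have := hr i; omega) θ Ω N δ hk
  have a3 := lin rr (n + 1) _ (fun i j => e (rr i) j) (fun i => by have := hr i; omega) θ Ω N δ hk
  have hΩ : (0 : ℝ) < Fintype.card Ω := by exact_mod_cast Fintype.card_pos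
  -- the count
  have hcount : ((univ.filter fun ω => ∀ i, N i ω = 2 ^ rr i).card : ℝ) =
      ∑ ω, ∏ i, (if N i ω = 2 ^ rr i then (1 : ℝ) else 0) := by
    rw [card_filter]
    push_cast
    apply sum_congr rfl
    intro ω _
    rw [prod_boole]
    simp
  have hpt : ∀ ω, |∏ i, (if N i ω = 2 ^ rr i then (1 : ℝ) else 0) -
      ∏ i, ∑ j ∈ range (n + 1), ((-1) ^ j * e (rr i) j) * inj (rr i + j) (N i ω)| ≤
      ∏ i, ∑ j ∈ range (n + 1 + 1), e (rr i) j * inj (rr i + j) (N i ω) -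
        ∏ i, ∑ j ∈ range (n + 1), e (rr i) j * inj (rr i + j) (N i ω) := by
    intro ω
    choose κ hκ using fun i => hN i ω
    have h := prod_diff univ (fun i => if N i ω = 2 ^ rr i then (1 : ℝ) else 0)
      (fun i => ∑ j ∈ range (n + 1), ((-1) ^ j * e (rr i) j) * inj (rr i + j) (N i ω))
      (fun i => ∑ j ∈ range (n + 1), e (rr i) j * inj (rr i + j) (N i ω))
      (fun i => e (rr i) (n + 1) * inj (rr i + (n + 1)) (N i ω)) ?_ ?_
    · simpa only [sum_range_succ _ (n + 1)] using h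
    · intro i
      refine (abs_sum_le_sum_abs _ _).trans (sum_le_sum fun j _ => ?_)
      rw [hκ i, abs_mul, abs_mul, abs_pow, abs_neg, abs_one, one_pow, one_mul,
        abs_of_pos (e_pos _ _), abs_of_nonneg (inj_nonneg _ _)]
    · intro i
      have hif : (if N i ω = 2 ^ rr i then (1 : ℝ) else 0) = if κ i = rr i then 1 else 0 := by
        rw [hκ i]
        simp only [Nat.pow_right_inj (le_refl 2)]
      rw [hif, hκ i]
      exact key (rr i) n (κ i)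
  have hdiff : |(∑ ω, ∏ i, (if N i ω = 2 ^ rr i then (1 : ℝ) else 0)) / (Fintype.card Ω : ℝ) -
      (∑ ω, ∏ i, ∑ j ∈ range (n + 1), ((-1) ^ j * e (rr i) j) * inj (rr i + j) (N i ω)) /
        (Fintype.card Ω : ℝ)| ≤
      (∑ ω, ∏ i, ∑ j ∈ range (n + 1 + 1), e (rr i) j * inj (rr i + j) (N i ω)) /
        (Fintype.card Ω : ℝ) -
      (∑ ω, ∏ i, ∑ j ∈ range (n + 1), e (rr i) j * inj (rr i + j) (N i ω)) /
        (Fintype.card Ω : ℝ) := by
    rw [← sub_div, ← sub_div, abs_div, abs_of_pos hΩ, ← sum_sub_distrib, ← sum_sub_distrib]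
    apply div_le_div_of_nonneg_right _ hΩ.le
    exact (abs_sum_le_sum_abs _ _).trans (sum_le_sum fun ω _ => hpt ω)
  have hθC : θ * (C1 + C2 + C3) ≤ ε / 2 := by
    rw [hθ, div_mul_eq_mul_div, div_le_div_iff₀ (by positivity) two_pos]
    nlinarith
  have b1 : |_ - τ n| ≤ θ * C1 := a1
  have b2 : |_ - σ n| ≤ θ * C2 := a2
  have b3 : |_ - σ (n + 1)| ≤ θ * C3 := a3
  rw [hcount]
  rw [abs_le] at hdiff b1 b2 b3 ⊢
  rw [abs_lt] at h1
  constructor <;> linarith [hdiff.1, hdiff.2, b1.1, b1.2, b2.1, b2.2, b3.1, b3.2, h1.1, h1.2]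

end ABS

theorem t_ABS : S_ABS := by
  intro M v0 rr ε hε
  choose n θ hθ h using fun δ : Fin M → ℤ => ABS.fixed M rr ε hε δ
  set D : Finset (Fin M → ℤ) := Fintype.piFinset fun _ => Icc (-(v0 : ℤ)) v0 with hD
  obtain ⟨t, ht, ht0⟩ : ∃ t : ℝ, (∀ δ ∈ D, t ≤ θ δ) ∧ 0 < t := by
    have h1 : ∀ᶠ t in nhdsWithin (0 : ℝ) (Set.Ioi 0), ∀ δ ∈ D, t ≤ θ δ := by
      rw [Filter.eventually_all_finset]
      intro δ _
      exact (Filter.Eventually.filter_mono nhdsWithin_le_nhds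
        ((gt_mem_nhds (hθ δ)).mono fun t ht => le_of_lt ht))
    exact (h1.and self_mem_nhdsWithin).exists
  refine ⟨D.sup n, t, ht0, ?_⟩
  intro Ω _ _ N δ hN hδ hk
  have hδD : δ ∈ D := by
    rw [hD, Fintype.mem_piFinset]
    intro i
    rw [mem_Icc]
    exact abs_le.1 (hδ i)
  apply h δ Ω N hN
  intro k hk'
  exact (hk k fun i => (hk' i).trans (le_sup (f := n) hδD)).trans (ht δ hδD)

end Pool.Agent.NH4.PJ
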