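import Pool.Agent.NH4.PJ.Stm
import Pool.Agent.NH5.PR.ETA

/-!
PJ-2: simple facts on the law, and: the numbers of solutions are powers of two.
-/

set_option autoImplicit false

open scoped Classical

namespace Pool.Agent.NH4.PJ

open Finset Filter
open Pool.Agent.NH5.PR (eta S_ETA t_ETA ex2)
open Pool.Agent.Y703.CQ (prs)

/-- the denominator -/
noncomputable def dn (r : ℕ) : ℝ := ∏ i ∈ range r, (1 - (1 / 2 : ℝ) ^ (i + 1))

/-- the infinite product -/
noncomputable def ip (e : ℤ) : ℝ := ∏' i : ℕ, (1 - (2 : ℝ) ^ (e - ((i : ℤ) + 1)))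

lemma law_eq (δ : ℤ) (r : ℕ) : law δ r = (2 : ℝ) ^ ((r : ℤ) * δ - (r : ℤ) ^ 2) / dn r * ip (δ - r) :=
  rfl

lemma zp (e : ℤ) (i : ℕ) : (2 : ℝ) ^ (e - ((i : ℤ) + 1)) = (2 : ℝ) ^ e * (1 / 2 : ℝ) ^ (i + 1) := by
  rw [zpow_sub₀ (by norm_num), div_eq_mul_inv]
  congr 1
  rw [one_div, inv_pow]
  congr 1

lemma hp (i : ℕ) : 0 < (1 / 2 : ℝ) ^ (i + 1) ∧ (1 / 2 : ℝ) ^ (i + 1) ≤ 1 / 2 := by
  refine ⟨by positivity, ?_⟩
  rw [pow_succ]
  have : (1 / 2 : ℝ) ^ i ≤ 1 := pow_le_one₀ (by norm_num) (by norm_num)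
  linarith

lemma mulip (e : ℤ) : Multipliable (fun i : ℕ => 1 - (2 : ℝ) ^ (e - ((i : ℤ) + 1))) := by
  have hs : Summable (fun i : ℕ => (2 : ℝ) ^ (e - ((i : ℤ) + 1))) := by
    simp_rw [zp]
    apply Summable.mul_left
    have := (summable_geometric_of_lt_one (r := (1 / 2 : ℝ)) (by norm_num) (by norm_num)).mul_left
      (1 / 2)
    refine this.congr fun i => ?_
    rw [pow_succ]; ring
  have := multipliable_one_add_of_summable (f := fun i : ℕ => -(2 : ℝ) ^ (e - ((i : ℤ) + 1)))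
    (by
      refine hs.congr fun i => ?_
      rw [norm_neg, Real.norm_of_nonneg (by positivity)])
  simpa [sub_eq_add_neg] using this

lemma limip (e : ℤ) : Tendsto (fun n : ℕ => ∏ i ∈ range n, (1 - (2 : ℝ) ^ (e - ((i : ℤ) + 1))))
    atTop (nhds (ip e)) := (mulip e).hasProd.tendsto_prod_nat

lemma ip_zero : ip 0 = eta := by
  rw [ip, eta]
  congr 1
  funext i
  rw [zp, zpow_zero, one_mul]

lemma ip_pos_zero (e : ℤ) (he : 0 < e) : ip e = 0 := by
  apply tprod_of_exists_eq_zero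
  refine ⟨(e - 1).toNat, ?_⟩
  have : (((e - 1).toNat : ℕ) : ℤ) = e - 1 := Int.toNat_of_nonneg (by omega)
  rw [this]
  simp

lemma fac_bd (e : ℤ) (he : e ≤ 0) (i : ℕ) :
    1 - (1 / 2 : ℝ) ^ (i + 1) ≤ 1 - (2 : ℝ) ^ (e - ((i : ℤ) + 1)) ∧
    1 - (2 : ℝ) ^ (e - ((i : ℤ) + 1)) ≤ 1 := by
  rw [zp]
  have h1 : (2 : ℝ) ^ e ≤ 1 := zpow_le_one_of_nonpos₀ (by norm_num) he
  have h2 : 0 < (2 : ℝ) ^ e := by positivity
  have h3 := hp i
  constructor
  · nlinarith
  · nlinarith [mul_pos h2 h3.1]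

lemma dn_anti : Antitone dn := by
  apply antitone_nat_of_succ_le
  intro n
  rw [dn, dn, prod_range_succ]
  have h0 : 0 ≤ ∏ i ∈ range n, (1 - (1 / 2 : ℝ) ^ (i + 1)) :=
    prod_nonneg fun i _ => by linarith [(hp i).2]
  nlinarith [(hp n).1]

lemma dn_pos (r : ℕ) : 0 < dn r := prod_pos fun i _ => by linarith [(hp i).2]

lemma eta_le (r : ℕ) : eta ≤ dn r := by
  have h := limip 0
  rw [ip_zero] at h
  have h2 : Tendsto dn atTop (nhds eta) := by
    refine h.congr fun n => ?_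
    rw [dn]
    apply prod_congr rfl
    intro i _
    rw [zp, zpow_zero, one_mul]
  exact dn_anti.le_of_tendsto h2 r

lemma ip_ge (e : ℤ) (he : e ≤ 0) : eta ≤ ip e ∧ ip e ≤ 1 := by
  constructor
  · rw [← ip_zero]
    refine le_of_tendsto_of_tendsto' (limip 0) (limip e) fun n => ?_
    apply Finset.prod_le_prod
    · intro i _
      rw [zp, zpow_zero, one_mul]
      linarith [(hp i).2]
    · intro i _
      rw [zp 0, zpow_zero, one_mul]
      exact (fac_bd e he i).1
  · refine le_of_tendsto' (limip e) fun n => ?_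
    apply prod_le_one
    · intro i _
      linarith [(fac_bd e he i).1, (hp i).2]
    · intro i _
      exact (fac_bd e he i).2

lemma law_pos (δ : ℤ) (r : ℕ) (h : δ ≤ r) : 0 < law δ r := by
  rw [law_eq]
  have h1 : 0 < ip (δ - r) := lt_of_lt_of_le t_ETA.2.1 (ip_ge _ (by omega)).1
  have h2 := dn_pos r
  positivity

lemma law_zero_of_lt (δ : ℤ) (r : ℕ) (h : (r : ℤ) < δ) : law δ r = 0 := by
  rw [law_eq, ip_pos_zero _ (by omega), mul_zero]

lemma law_le_one (δ : ℤ) (r : ℕ) : law δ r ≤ 1 := by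
  rcases lt_or_ge (r : ℤ) δ with h | h
  · rw [law_zero_of_lt δ r h]; norm_num
  · have hd := dn_pos r
    rcases eq_or_lt_of_le h with h1 | h1
    · rw [law_eq, h1]
      have e1 : (r : ℤ) * r - (r : ℤ) ^ 2 = 0 := by ring
      rw [e1, zpow_zero, sub_self, ip_zero, div_mul_eq_mul_div, one_mul, div_le_one hd]
      exact eta_le r
    · rw [law_eq]
      have h2 := (ip_ge (δ - r) (by omega))
      have h3 : (2 : ℝ) ^ ((r : ℤ) * δ - (r : ℤ) ^ 2) / dn r ≤ 1 := by
        rw [div_le_one hd]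
        have h4 : (1 / 2 : ℝ) ^ r ≤ dn r := by
          have h8 : (1 / 2 : ℝ) ^ r = ∏ i ∈ range r, (1 / 2 : ℝ) := by
            rw [prod_const, card_range]
          rw [h8, dn]
          apply Finset.prod_le_prod
          · intro i _
            norm_num
          · intro i _
            linarith [(hp i).2]
        refine le_trans ?_ h4
        have h5 : (1 / 2 : ℝ) ^ r = (2 : ℝ) ^ (-(r : ℤ)) := by
          rw [zpow_neg, zpow_natCast, one_div, inv_pow]
        rw [h5]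
        apply zpow_le_zpow_right₀ (by norm_num)
        nlinarith
      have h6 : 0 ≤ (2 : ℝ) ^ ((r : ℤ) * δ - (r : ℤ) ^ 2) / dn r := by positivity
      have h7 : 0 ≤ ip (δ - r) := le_trans t_ETA.2.1.le h2.1
      nlinarith [h2.2]

theorem t_LAW : LawP where
  nonneg := by
    intro δ r
    rcases lt_or_ge (r : ℤ) δ with h | h
    · rw [law_zero_of_lt δ r h]
    · exact (law_pos δ r h).le
  le_one := law_le_one
  zero := by
    rw [law_eq]
    simp only [CharP.cast_eq_zero, zero_mul, ne_eq, OfNat.ofNat_ne_zero, not_false_eq_true, zero_pow,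
      sub_self, zpow_zero, ip_zero, dn, range_zero, prod_empty, div_one, one_mul]
  zero_of_lt := law_zero_of_lt
  pos := law_pos

section pow

variable {U J : Type} [Fintype U] [Fintype J] [LinearOrder J]

/-- the space of the solutions -/
noncomputable def solSp (d : Dat U J) (mm : Finset U) (α : prs (univ : Finset J) → ZMod 2) :
    AddSubgroup ((U → ZMod 2) × (J → ZMod 2)) where
  carrier := {z | Sml d mm z.1 z.2 ∧ Lrg d mm α z.1 z.2}
  zero_mem' := by
    refine ⟨⟨fun _ _ => rfl, fun _ _ => rfl, fun _ _ => rfl, fun u _ _ => ?_⟩, fun k _ => ?_⟩ <;> simp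
  add_mem' := by
    rintro z w ⟨⟨h1, h2, h3, h4⟩, h5⟩ ⟨⟨g1, g2, g3, g4⟩, g5⟩
    refine ⟨⟨fun u hu => ?_, fun u hu => ?_, fun u hu => ?_, fun u hu hm => ?_⟩, fun k hk => ?_⟩
    · rw [Prod.fst_add, Pi.add_apply, h1 u hu, g1 u hu, add_zero]
    · rw [Prod.fst_add, Pi.add_apply, h2 u hu, g2 u hu, add_zero]
    · rw [Prod.snd_add, Pi.add_apply, h3 u hu, g3 u hu, add_zero]
    · have e := congrArg₂ (· + ·) (h4 u hu hm) (g4 u hu hm)
      simp only [add_zero] at e
      rw [← e]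
      simp only [Prod.fst_add, Prod.snd_add, Pi.add_apply, mul_add, sum_add_distrib]
      ring
    · have e := congrArg₂ (· + ·) (h5 k hk) (g5 k hk)
      simp only [add_zero] at e
      rw [← e]
      simp only [Prod.fst_add, Prod.snd_add, Pi.add_apply, mul_add, sum_add_distrib]
      ring
  neg_mem' := by
    rintro z hz
    have : -z = z := by
      ext u
      · simp [ZMod.neg_eq_self_mod_two]
      · simp [ZMod.neg_eq_self_mod_two]
    rw [this]
    exact hz

theorem t_POW : S_POW := by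
  intro U J _ _ _ d mm α
  let W := AddSubgroup.toZModSubmodule 2 (solSp d mm α)
  refine ⟨Module.finrank (ZMod 2) W, ?_⟩
  have h := Module.card_eq_pow_finrank (K := ZMod 2) (V := W)
  rw [ZMod.card] at h
  rw [← h, nkM, Fintype.card_subtype]
  congr 1
  ext z
  simp only [mem_filter, mem_univ, true_and]
  exact Iff.rfl

end pow

end Pool.Agent.NH4.PJ
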