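import Pool.Agent.NH4.PJ.Stm

/-!
# Project PJ: the size of the class with difference `v`, and the translation to numbers

`t_JLOW`: `|v|` auxiliary primes of type `A` (for `v > 0`) or `B` (for `v < 0`) are added to the sets of
the balanced class; `t_JNS`: `D` and the set of the prime factors of `D`.
-/

set_option autoImplicit false

open scoped Classical

namespace Pool.Agent.NH4.PJ

open Finset
open Pool.Agent.NH1 (sq2 sq7 sA sB)
open Pool.Agent.NH5.PR (Ok S_LOW)
open Pool.Agent.Y703.CX (eL)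

theorem card_eq (b r : ℕ) (v : ℤ) (X : ℕ) (Q : Finset ℕ → Prop) :
    ((Icc 1 X).filter fun D => Squarefree D ∧ Cl b r v D.primeFactors ∧ Q D.primeFactors).card =
      ((SS b r v X).filter Q).card := by
  refine Finset.card_bij (fun D _ => D.primeFactors) ?_ ?_ ?_
  · intro D hD
    obtain ⟨h1, h2, hcl, h4⟩ := Finset.mem_filter.1 hD
    obtain ⟨h5, h6⟩ := Finset.mem_Icc.1 h1
    refine Finset.mem_filter.2 ⟨Finset.mem_filter.2 ⟨?_, hcl, ?_⟩, h4⟩
    · rw [Finset.mem_powerset]
      intro p hp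
      have := Nat.le_of_dvd (by omega) (Nat.dvd_of_mem_primeFactors hp)
      exact Finset.mem_range.2 (by omega)
    · rw [Nat.prod_primeFactors_of_squarefree h2]
      exact h6
  · intro D hD E hE h
    have h2 := (Finset.mem_filter.1 hD).2.1
    have h3 := (Finset.mem_filter.1 hE).2.1
    have h' : D.primeFactors = E.primeFactors := h
    rw [← Nat.prod_primeFactors_of_squarefree h2, ← Nat.prod_primeFactors_of_squarefree h3, h']
  · intro S hS
    obtain ⟨h1, h2⟩ := Finset.mem_filter.1 hS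
    obtain ⟨h3, h4, h5⟩ := Finset.mem_filter.1 h1
    have hpr : ∀ p ∈ S, p.Prime := fun p hp => (h4.1 p hp).1
    have hpf : (∏ p ∈ S, p).primeFactors = S := Nat.primeFactors_prod hpr
    have hsq : Squarefree (∏ p ∈ S, p) := by
      refine Finset.squarefree_prod_of_pairwise_isCoprime (fun p hp q hq hpq => ?_)
        fun p hp => (hpr p hp).squarefree
      show IsRelPrime p q
      rw [← Nat.coprime_iff_isRelPrime]
      exact (Nat.coprime_primes (hpr p hp) (hpr q hq)).mpr hpq
    refine ⟨∏ p ∈ S, p, ?_, hpf⟩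
    have hcl : Cl b r v (∏ p ∈ S, p).primeFactors := by rw [hpf]; exact h4
    refine Finset.mem_filter.2 ⟨Finset.mem_Icc.2 ⟨?_, h5⟩, hsq, hcl, ?_⟩
    · exact Nat.one_le_iff_ne_zero.2 hsq.ne_zero
    · rw [hpf]
      exact h2

theorem t_JNS : S_JNS := by
  intro hdq M b r v f m rr hOk hm
  refine (hdq M b r v f m rr hOk hm).congr fun X => ?_
  have e1 := card_eq b r v X (Ev f m rr)
  have e2 := card_eq b r v X (fun _ => True)
  rw [Finset.filter_true] at e2
  simp only [and_true] at e2
  rw [← e1, ← e2]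

/-- `n` primes in a residue class modulo `56`, not dividing `b` -/
theorem exists_primes (a : ℕ) (ha : Nat.Coprime a 56) (b : ℕ) (hb : 0 < b) (n : ℕ) :
    ∃ T : Finset ℕ, T.card = n ∧ ∀ p ∈ T, p.Prime ∧ ¬ p ∣ 14 * b ∧ p % 56 = a % 56 := by
  have hu : IsUnit (a : ZMod 56) := (ZMod.isUnit_iff_coprime a 56).2 ha
  have hinf : {p : ℕ | p.Prime ∧ (p : ZMod 56) = a}.Infinite := Nat.infinite_setOfPred_prime_and_eq_mod hu
  have hinf2 : ({p : ℕ | p.Prime ∧ (p : ZMod 56) = a} \ ((14 * b).divisors : Set ℕ)).Infinite :=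
    hinf.sdiff (Finset.finite_toSet _)
  obtain ⟨T, hT, hc⟩ := hinf2.exists_subset_card_eq n
  refine ⟨T, hc, fun p hp => ?_⟩
  obtain ⟨⟨h1, h2⟩, h3⟩ := hT hp
  refine ⟨h1, fun h => h3 ?_, ?_⟩
  · exact Finset.mem_coe.2 (Nat.mem_divisors.2 ⟨h, by positivity⟩)
  · exact (ZMod.natCast_eq_natCast_iff' p a 56).1 h2

/-- a set of primes with difference `v` -/
theorem exists_T (b : ℕ) (hb : 0 < b) (v : ℤ) :
    ∃ T : Finset ℕ, (∀ p ∈ T, p.Prime ∧ ¬ p ∣ 14 * b) ∧ dlt T = v := by
  rcases le_total 0 v with hv | hv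
  · -- type A : sq2 and not sq7, e.g. 17 mod 56
    obtain ⟨T, hc, hT⟩ := exists_primes 17 (by decide) b hb v.toNat
    refine ⟨T, fun p hp => ⟨(hT p hp).1, (hT p hp).2.1⟩, ?_⟩
    have h1 : sA T = T := by
      refine Finset.filter_true_of_mem fun p hp => ?_
      have := (hT p hp).2.2
      unfold sq2 sq7
      omega
    have h2 : sB T = ∅ := by
      refine Finset.filter_false_of_mem fun p hp => ?_
      have := (hT p hp).2.2
      unfold sq2 sq7
      omega
    unfold dlt
    rw [h1, h2, hc, Finset.card_empty]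
    omega
  · -- type B : 11 mod 56
    obtain ⟨T, hc, hT⟩ := exists_primes 11 (by decide) b hb (-v).toNat
    refine ⟨T, fun p hp => ⟨(hT p hp).1, (hT p hp).2.1⟩, ?_⟩
    have h1 : sB T = T := by
      refine Finset.filter_true_of_mem fun p hp => ?_
      have := (hT p hp).2.2
      unfold sq2 sq7
      omega
    have h2 : sA T = ∅ := by
      refine Finset.filter_false_of_mem fun p hp => ?_
      have := (hT p hp).2.2
      unfold sq2 sq7
      omega
    unfold dlt
    rw [h1, h2, hc, Finset.card_empty]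
    omega

theorem dlt_union {S T : Finset ℕ} (h : Disjoint S T) : dlt (S ∪ T) = dlt S + dlt T := by
  have h1 : (sA (S ∪ T)).card = (sA S).card + (sA T).card := by
    unfold sA
    rw [Finset.filter_union, Finset.card_union_of_disjoint]
    exact Finset.disjoint_filter_filter h
  have h2 : (sB (S ∪ T)).card = (sB S).card + (sB T).card := by
    unfold sB
    rw [Finset.filter_union, Finset.card_union_of_disjoint]
    exact Finset.disjoint_filter_filter h
  unfold dlt
  rw [h1, h2]
  push_cast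
  ring

/-- the residue of the cofactor -/
theorem exists_res (a r : ℕ) (ha : a % 2 = 1) (hr : r = 1 ∨ r = 3 ∨ r = 5 ∨ r = 7) :
    ∃ r' : ℕ, (r' = 1 ∨ r' = 3 ∨ r' = 5 ∨ r' = 7) ∧ ∀ m : ℕ, m % 8 = r' → (m * a) % 8 = r := by
  have ha8 : a % 8 = 1 ∨ a % 8 = 3 ∨ a % 8 = 5 ∨ a % 8 = 7 := by omega
  refine ⟨(r * (a % 8)) % 8, ?_, fun m hm => ?_⟩
  · rcases hr with rfl | rfl | rfl | rfl <;> rcases ha8 with h | h | h | h <;> rw [h] <;> decide
  · rw [Nat.mul_mod, hm]
    rcases hr with rfl | rfl | rfl | rfl <;> rcases ha8 with h | h | h | h <;> rw [h]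

theorem t_JLOW : S_JLOW := by
  intro hLOW _ b r v hOk
  obtain ⟨hb, hr⟩ := hOk
  obtain ⟨T, hT, hTv⟩ := exists_T b hb v
  set a : ℕ := ∏ p ∈ T, p with ha
  have hTp : ∀ p ∈ T, p.Prime := fun p hp => (hT p hp).1
  have ha0 : 0 < a := Finset.prod_pos fun p hp => (hTp p hp).pos
  have haodd : a % 2 = 1 := by
    rcases Nat.mod_two_eq_zero_or_one a with h | h
    · exfalso
      have h2 : (2 : ℕ) ∣ a := Nat.dvd_of_mod_eq_zero h
      obtain ⟨p, hp, h3⟩ := (Nat.prime_two.prime.dvd_finsetProd_iff _).1 h2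
      have h4 : (2 : ℕ) = p := (Nat.prime_dvd_prime_iff_eq Nat.prime_two (hTp p hp)).1 h3
      refine (hT p hp).2 ?_
      rw [← h4]
      exact Dvd.dvd.mul_right (by norm_num) b
    · exact h
  obtain ⟨r', hr', hres⟩ := exists_res a r haodd hr
  obtain ⟨c, X₀, hc, hX⟩ := hLOW (b * a) r' ⟨Nat.mul_pos hb ha0, hr'⟩
  -- the injection
  have hinj : ∀ X : ℕ, (Pool.Agent.NH5.PR.SS (b * a) r' (X / a)).card ≤ (SS b r v X).card := by
    intro X
    have hdisj : ∀ S ∈ Pool.Agent.NH5.PR.SS (b * a) r' (X / a), Disjoint S T := by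
      intro S hS
      obtain ⟨h1, h2, h3⟩ := Finset.mem_filter.1 hS
      rw [Finset.disjoint_left]
      intro p hp hpT
      refine (h2.1 p hp).2 ?_
      have : p ∣ a := Finset.dvd_prod_of_mem (fun p => p) hpT
      exact Dvd.dvd.mul_left (Dvd.dvd.mul_left this b) 14
    refine Finset.card_le_card_of_injOn (fun S => S ∪ T) ?_ ?_
    · intro S hS
      have hd := hdisj S hS
      obtain ⟨h1, h2, h3⟩ := Finset.mem_filter.1 (Finset.mem_coe.1 hS)
      have hprod : ∏ p ∈ S ∪ T, p = (∏ p ∈ S, p) * a := by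
        rw [Finset.prod_union hd]
      have hle : ∏ p ∈ S ∪ T, p ≤ X := by
        rw [hprod]
        exact (Nat.mul_le_mul_right a h3).trans (Nat.div_mul_le_self X a)
      have hcl : Cl b r v (S ∪ T) := by
        refine ⟨fun p hp => ?_, ?_, ?_⟩
        · rcases Finset.mem_union.1 hp with hp | hp
          · refine ⟨(h2.1 p hp).1, fun h => (h2.1 p hp).2 ?_⟩
            rw [← mul_assoc]
            exact Dvd.dvd.mul_right h a
          · exact hT p hp
        · rw [dlt_union hd, hTv]
          have : dlt S = 0 := by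
            unfold dlt
            rw [h2.2.1]
            ring
          rw [this, zero_add]
        · rw [hprod]
          exact hres _ h2.2.2
      refine Finset.mem_coe.2 (Finset.mem_filter.2 ⟨?_, hcl, hle⟩)
      rw [Finset.mem_powerset]
      intro p hp
      have hpos : 0 < ∏ p ∈ S ∪ T, p := Finset.prod_pos fun p hp => (hcl.1 p hp).1.pos
      have := Nat.le_of_dvd hpos (Finset.dvd_prod_of_mem (fun p => p) hp)
      exact Finset.mem_range.2 (by omega)
    · intro S hS S' hS' h
      have hd := hdisj S hS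
      have hd' := hdisj S' hS'
      have h' : S ∪ T = S' ∪ T := h
      calc S = (S ∪ T) \ T := (Finset.union_sdiff_cancel_right hd).symm
        _ = (S' ∪ T) \ T := by rw [h']
        _ = S' := Finset.union_sdiff_cancel_right hd'
  -- asymptotics
  refine ⟨c / (2 * a), a * (X₀ + 16), by positivity, fun X hX1 => ?_⟩
  refine le_trans ?_ (by exact_mod_cast hinj X : ((Pool.Agent.NH5.PR.SS (b * a) r' (X / a)).card : ℝ) ≤ _)
  have hdiv : X₀ + 16 ≤ X / a := (Nat.le_div_iff_mul_le ha0).2 (by rw [mul_comm]; exact hX1)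
  refine le_trans ?_ (hX (X / a) (by omega))
  have hXa : ((X : ℝ)) / (2 * a) ≤ ((X / a : ℕ) : ℝ) := by
    have h1 : X < (X / a + 1) * a := by
      have := Nat.lt_div_mul_add ha0 (a := X)
      calc X < X / a * a + a := this
        _ = (X / a + 1) * a := by ring
    have h2 : X ≤ (X / a) * (2 * a) := by nlinarith
    rw [div_le_iff₀ (by positivity)]
    exact_mod_cast h2
  have h16 : (16 : ℝ) ≤ ((X / a : ℕ) : ℝ) := by
    have : 16 ≤ X / a := by omega
    exact_mod_cast this
  have hle : ((X / a : ℕ) : ℝ) ≤ (X : ℝ) := by exact_mod_cast Nat.div_le_self X a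
  have hlog1 : 1 < Real.log ((X / a : ℕ) : ℝ) := by
    rw [Real.lt_log_iff_exp_lt (by linarith)]
    have := Real.exp_one_lt_d9
    linarith
  have heL : eL (X / a) ≤ eL X := by
    unfold eL
    exact Real.log_le_log (by linarith) (Real.log_le_log (by linarith) hle)
  have heL0 : 0 < eL (X / a) := Real.log_pos hlog1
  have hs0 : 0 < Real.sqrt (eL (X / a)) := Real.sqrt_pos.2 heL0
  have hs1 : Real.sqrt (eL (X / a)) ≤ Real.sqrt (eL X) := Real.sqrt_le_sqrt heL
  calc c / (2 * a) * X / Real.sqrt (eL X) ≤ c / (2 * a) * X / Real.sqrt (eL (X / a)) := by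
        exact div_le_div_of_nonneg_left (by positivity) hs0 hs1
    _ ≤ c * ((X / a : ℕ) : ℝ) / Real.sqrt (eL (X / a)) := by
        refine div_le_div_of_nonneg_right ?_ hs0.le
        calc c / (2 * a) * X = c * (X / (2 * a)) := by ring
          _ ≤ c * ((X / a : ℕ) : ℝ) := by gcongr

end Pool.Agent.NH4.PJ
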