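import Pool.Agent.NH4.PJ.Stm

/-!
# Project PJ: the joint law for a random completion
-/

set_option autoImplicit false
set_option linter.unusedSectionVars false
set_option linter.unusedVariables false

open scoped Classical

namespace Pool.Agent.NH4.PJ

open Finset
open Pool.Agent.Y703.CQ (prs)

theorem t_JLA (ha : S_ABS) (hm : S_MOM) (hp : S_POW) : S_JLA := by
  intro M v0 rr ε hε
  obtain ⟨n, θ, hθ, H⟩ := ha M v0 rr ε hε
  choose C L hC hM using hm M v0
  set K : Finset (Fin M → ℕ) := Fintype.piFinset fun _ : Fin M => range (n + 1) with hK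
  have hmem : ∀ k : Fin M → ℕ, (∀ i, k i ≤ n) → k ∈ K := by
    intro k hk
    rw [hK, Fintype.mem_piFinset]
    intro i
    rw [mem_range]
    exact Nat.lt_succ_of_le (hk i)
  obtain ⟨R, hR⟩ := pow_unbounded_of_one_lt ((∑ k ∈ K, C k) / θ) (by norm_num : (1 : ℝ) < 2)
  refine ⟨∑ k ∈ K, L k, R, ?_⟩
  intro U J _ _ _ d m δ hg hδ h1 h2
  have hcard : (Fintype.card (prs (univ : Finset J) → ZMod 2) : ℝ) =
      2 ^ (prs (univ : Finset J)).card := by
    rw [Fintype.card_fun, ZMod.card, Fintype.card_coe]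
    push_cast
    rfl
  have h3 := H (prs (univ : Finset J) → ZMod 2) (fun i ω => nkM d (m i) ω) δ
    (fun i ω => hp U J d (m i) ω) hδ ?_
  · rw [hcard] at h3
    exact h3
  · intro k hk
    rw [hcard]
    have h4 := hM k U J d m δ ((∑ k ∈ K, L k) * Fintype.card U + R) hg hδ h1 h2
    refine h4.trans ?_
    have hkK := hmem k hk
    have hL : L k ≤ ∑ k ∈ K, L k := Finset.single_le_sum (fun _ _ => Nat.zero_le _) hkK
    have hCk : C k ≤ ∑ k ∈ K, C k := Finset.single_le_sum (fun k _ => (hC k).le) hkK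
    have hR' : ∑ k ∈ K, C k ≤ θ * 2 ^ R := by
      rw [div_lt_iff₀ hθ] at hR
      linarith [hR]
    rw [div_le_iff₀ (by positivity), pow_add]
    have hLp : (2 : ℝ) ^ (L k * Fintype.card U) ≤ 2 ^ ((∑ k ∈ K, L k) * Fintype.card U) :=
      pow_le_pow_right₀ (by norm_num) (Nat.mul_le_mul_right _ hL)
    calc C k * 2 ^ (L k * Fintype.card U)
        ≤ (θ * 2 ^ R) * 2 ^ ((∑ k ∈ K, L k) * Fintype.card U) := by
          apply mul_le_mul (hCk.trans hR') hLp (by positivity) (by positivity)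
      _ = θ * (2 ^ ((∑ k ∈ K, L k) * Fintype.card U) * 2 ^ R) := by ring

end Pool.Agent.NH4.PJ
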