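import Pool.Agent.NH4.PJ.Stm

/-!
# PJ-4 (helper56): the number of the dependencies, and the number of the solutions of the small rows
-/

set_option autoImplicit false
set_option linter.unusedVariables false

open scoped Classical

namespace Pool.Agent.NH4.PJ

open Finset

namespace M23

section M2

variable {J S : Type} [Fintype J] [Fintype S]

/-- The space of the dependencies. -/
def depSub (JR : Finset J) (y : J → S → ZMod 2) : Submodule (ZMod 2) (J → S → ZMod 2) where
  carrier := {c | Dep JR y c}
  zero_mem' := by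
    refine ⟨fun _ _ => rfl, fun k => ?_, fun k l => ?_⟩ <;> simp
  add_mem' := by
    rintro a b ⟨a1, a2, a3⟩ ⟨b1, b2, b3⟩
    refine ⟨fun k hk => ?_, fun k => ?_, fun k l => ?_⟩
    · rw [Pi.add_apply, a1 k hk, b1 k hk, add_zero]
    · simp only [Pi.add_apply, add_mul, sum_add_distrib]
      rw [a2, b2, add_zero]
    · simp only [Pi.add_apply, add_mul, sum_add_distrib]
      rw [a3, b3]
  smul_mem' := by
    rintro r a ⟨a1, a2, a3⟩
    refine ⟨fun k hk => ?_, fun k => ?_, fun k l => ?_⟩
    · rw [Pi.smul_apply, a1 k hk, smul_zero]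
    · simp only [Pi.smul_apply, smul_eq_mul, mul_assoc, ← mul_sum]
      rw [a2, mul_zero]
    · simp only [Pi.smul_apply, smul_eq_mul, mul_assoc, ← mul_sum]
      rw [a3]

omit [Fintype J] in
theorem span_orth {y : J → S → ZMod 2} {Q : Set J} (v : S → ZMod 2)
    (h : ∀ l ∈ Q, ∑ s, v s * y l s = 0) {z : S → ZMod 2} (hz : z ∈ rs y Q) :
    ∑ s, v s * z s = 0 := by
  unfold rs at hz
  induction hz using Submodule.span_induction with
  | mem x hx =>
    obtain ⟨l, hl, rfl⟩ := hx
    exact h l hl
  | zero => simp
  | add a b _ _ ha hb =>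
    simp only [Pi.add_apply, mul_add, sum_add_distrib]
    rw [ha, hb, add_zero]
  | smul r a _ ha =>
    have : ∀ s, v s * (r • a) s = r * (v s * a s) := by
      intro s
      rw [Pi.smul_apply, smul_eq_mul]
      ring
    rw [Finset.sum_congr rfl fun s _ => this s, ← mul_sum, ha, mul_zero]

/-- The space orthogonal to all the rows. -/
noncomputable def orth (y : J → S → ZMod 2) : Submodule (ZMod 2) (S → ZMod 2) :=
  LinearMap.ker (Matrix.of y).mulVecLin

omit [Fintype J] in
theorem mem_orth {y : J → S → ZMod 2} {v : S → ZMod 2} :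
    v ∈ orth y ↔ ∀ l, ∑ s, v s * y l s = 0 := by
  unfold orth
  rw [LinearMap.mem_ker, Matrix.mulVecLin_apply]
  constructor
  · intro h l
    have h1 := congrFun h l
    rw [Matrix.mulVec, dotProduct] at h1
    rw [← show ∑ s, Matrix.of y l s * v s = 0 from h1]
    exact Finset.sum_congr rfl fun s _ => mul_comm _ _
  · intro h
    ext l
    rw [Matrix.mulVec, dotProduct]
    rw [← show ∑ s, v s * y l s = (0 : J → ZMod 2) l from h l]
    exact Finset.sum_congr rfl fun s _ => mul_comm _ _

theorem finrank_orth (y : J → S → ZMod 2) :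
    Module.finrank (ZMod 2) (rs y Set.univ) + Module.finrank (ZMod 2) (orth y) =
      Fintype.card S := by
  have h1 := LinearMap.finrank_range_add_finrank_ker (Matrix.of y).mulVecLin
  rw [Module.finrank_fintype_fun_eq_card] at h1
  have h2 : Module.finrank (ZMod 2) (LinearMap.range (Matrix.of y).mulVecLin) =
      Module.finrank (ZMod 2) (rs y Set.univ) := by
    have h3 := Matrix.rank_eq_finrank_span_row (Matrix.of y)
    rw [Matrix.rank] at h3
    rw [h3, rs, Set.image_univ]
    rfl
  rw [← h1, h2]
  rfl

theorem finrank_dep (JR : Finset J) (y : J → S → ZMod 2) :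
    Module.finrank (ZMod 2) (depSub JR y) + Module.finrank (ZMod 2) (rs y Set.univ) * JR.card ≤
      Fintype.card S ^ 2 + Fintype.card S * JR.card := by
  obtain ⟨κ, a, hinj, hspan, hli⟩ := exists_linearIndependent' (ZMod 2) y
  have : Fintype κ := Fintype.ofInjective a hinj
  have hκ : Fintype.card κ ≤ Fintype.card S := by
    have h1 := hli.fintype_card_le_finrank
    rwa [Module.finrank_fintype_fun_eq_card] at h1
  -- the restriction
  let ρ : depSub JR y →ₗ[ZMod 2] (κ → S → ZMod 2) :=
    (LinearMap.funLeft (ZMod 2) (S → ZMod 2) a).comp (depSub JR y).subtype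
  have h1 := LinearMap.finrank_range_add_finrank_ker ρ
  have h2 : Module.finrank (ZMod 2) (LinearMap.range ρ) ≤ Fintype.card S ^ 2 := by
    refine (Submodule.finrank_le _).trans ?_
    rw [Module.finrank_pi_fintype]
    simp only [Module.finrank_fintype_fun_eq_card, sum_const, card_univ, smul_eq_mul]
    rw [pow_two]
    exact Nat.mul_le_mul_right _ hκ
  have hker : ∀ e : depSub JR y, e ∈ LinearMap.ker ρ → ∀ k, (e : J → S → ZMod 2) k ∈ orth y := by
    intro e he k
    rw [mem_orth]
    intro l
    have h3 : y l ∈ rs y (Set.range a) := by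
      have h4 : rs y (Set.range a) = Submodule.span (ZMod 2) (Set.range y) := by
        rw [rs, ← Set.range_comp, hspan]
      rw [h4]
      exact Submodule.subset_span ⟨l, rfl⟩
    refine span_orth _ ?_ h3
    rintro _ ⟨i, rfl⟩
    rw [e.2.2.2 k (a i)]
    have h4 : (e : J → S → ZMod 2) (a i) = 0 := congrFun (LinearMap.mem_ker.mp he) i
    rw [h4]
    simp
  let τ : LinearMap.ker ρ →ₗ[ZMod 2] (JR → orth y) :=
    { toFun := fun e k => ⟨(e : depSub JR y).1 k, hker e.1 e.2 k⟩
      map_add' := fun _ _ => rfl
      map_smul' := fun _ _ => rfl }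
  have hτ : Function.Injective τ := by
    rw [← LinearMap.ker_eq_bot, LinearMap.ker_eq_bot']
    intro e he
    apply Subtype.ext
    apply Subtype.ext
    funext k
    by_cases hk : k ∈ JR
    · exact congrArg Subtype.val (congrFun he ⟨k, hk⟩)
    · exact (e : depSub JR y).2.1 k hk
  have h3 : Module.finrank (ZMod 2) (LinearMap.ker ρ) ≤
      JR.card * Module.finrank (ZMod 2) (orth y) := by
    refine (LinearMap.finrank_le_finrank_of_injective hτ).trans ?_
    rw [Module.finrank_pi_fintype]
    simp
  have h4 := finrank_orth y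
  calc Module.finrank (ZMod 2) (depSub JR y) + Module.finrank (ZMod 2) (rs y Set.univ) * JR.card
      ≤ Fintype.card S ^ 2 + JR.card * Module.finrank (ZMod 2) (orth y) +
        Module.finrank (ZMod 2) (rs y Set.univ) * JR.card := by omega
    _ = Fintype.card S ^ 2 + (Module.finrank (ZMod 2) (rs y Set.univ) +
        Module.finrank (ZMod 2) (orth y)) * JR.card := by ring
    _ = _ := by rw [h4]

theorem card_filter_sub {V : Type} [AddCommGroup V] [Module (ZMod 2) V] [Fintype V]
    (P : V → Prop) (D : Submodule (ZMod 2) V) (h : ∀ v, v ∈ D ↔ P v) :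
    (univ.filter P).card = 2 ^ Module.finrank (ZMod 2) D := by
  have h1 : Nat.card D = 2 ^ Module.finrank (ZMod 2) D := by
    rw [Module.natCard_eq_pow_finrank (K := ZMod 2), Nat.card_zmod]
  rw [← h1, Nat.card_eq_fintype_card, Fintype.card_subtype]
  congr 1
  ext v
  simp [h]

end M2

end M23

theorem t_M2 : S_M2 := by
  intro J S _ _ JR y
  constructor
  · rw [M23.card_filter_sub (fun c => Dep JR y c) (M23.depSub JR y) (fun v => Iff.rfl),
      Module.natCard_eq_pow_finrank (K := ZMod 2) (V := rs y Set.univ), Nat.card_zmod, ← pow_mul,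
      ← pow_add]
    exact Nat.pow_le_pow_right (by norm_num) (M23.finrank_dep JR y)
  · intro h c hc
    funext k
    have h1 : ∀ z : S → ZMod 2, ∑ s, c k s * z s = 0 := by
      intro z
      refine M23.span_orth (y := y) (Q := {l | l ∉ JR}) (c k) ?_ (by rw [h]; trivial)
      intro l hl
      rw [hc.2.2 k l, hc.1 l hl]
      simp
    funext s
    have h2 := h1 (Pi.single s 1)
    rw [Finset.sum_eq_single s] at h2
    · simpa using h2
    · intro b _ hb
      rw [Pi.single_eq_of_ne hb, mul_zero]
    · intro h3
      exact absurd (Finset.mem_univ s) h3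

theorem t_M3 : S_M3 := by
  intro U J _ _ _ d mm hB
  -- the space of the pairs with the given supports
  let X : Submodule (ZMod 2) ((U → ZMod 2) × (J → ZMod 2)) :=
    { carrier := {z | (∀ u, u ∉ d.UC ∩ mm → z.1 u = 0) ∧ ∀ k, k ∉ d.JC → z.2 k = 0}
      zero_mem' := ⟨fun _ _ => rfl, fun _ _ => rfl⟩
      add_mem' := by
        rintro a b ⟨a1, a2⟩ ⟨b1, b2⟩
        refine ⟨fun u hu => ?_, fun k hk => ?_⟩
        · rw [Prod.fst_add, Pi.add_apply, a1 u hu, b1 u hu, add_zero]
        · rw [Prod.snd_add, Pi.add_apply, a2 k hk, b2 k hk, add_zero]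
      smul_mem' := by
        rintro r a ⟨a1, a2⟩
        refine ⟨fun u hu => ?_, fun k hk => ?_⟩
        · rw [Prod.smul_fst, Pi.smul_apply, a1 u hu, smul_zero]
        · rw [Prod.smul_snd, Pi.smul_apply, a2 k hk, smul_zero] }
  let row : U → ((U → ZMod 2) × (J → ZMod 2)) → ZMod 2 := fun u z =>
    ∑ v ∈ mm, d.A u v * (z.1 v + z.1 u) + ∑ l, d.B u l * (z.2 l + z.1 u) + d.f u * z.1 u
  let Φ : X →ₗ[ZMod 2] ((d.UR ∩ mm : Finset U) → ZMod 2) :=
    { toFun := fun z u => row u z.1
      map_add' := by
        intro a b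
        funext u
        change row u (a.1 + b.1) = row u a.1 + row u b.1
        simp only [row, Prod.fst_add, Prod.snd_add, Pi.add_apply]
        have e1 : ∑ v ∈ mm, d.A u v * (a.1.1 v + b.1.1 v + (a.1.1 u + b.1.1 u)) =
            ∑ v ∈ mm, d.A u v * (a.1.1 v + a.1.1 u) + ∑ v ∈ mm, d.A u v * (b.1.1 v + b.1.1 u) := by
          rw [← sum_add_distrib]
          exact Finset.sum_congr rfl fun v _ => by ring
        have e2 : ∑ l, d.B u l * (a.1.2 l + b.1.2 l + (a.1.1 u + b.1.1 u)) =
            ∑ l, d.B u l * (a.1.2 l + a.1.1 u) + ∑ l, d.B u l * (b.1.2 l + b.1.1 u) := by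
          rw [← sum_add_distrib]
          exact Finset.sum_congr rfl fun v _ => by ring
        rw [e1, e2]
        ring
      map_smul' := by
        intro r a
        funext u
        change row u (r • a.1) = r * row u a.1
        simp only [row, Prod.smul_fst, Prod.smul_snd, Pi.smul_apply, smul_eq_mul]
        have e1 : ∑ v ∈ mm, d.A u v * (r * a.1.1 v + r * a.1.1 u) =
            r * ∑ v ∈ mm, d.A u v * (a.1.1 v + a.1.1 u) := by
          rw [mul_sum]
          exact Finset.sum_congr rfl fun v _ => by ring
        have e2 : ∑ l, d.B u l * (r * a.1.2 l + r * a.1.1 u) =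
            r * ∑ l, d.B u l * (a.1.2 l + a.1.1 u) := by
          rw [mul_sum]
          exact Finset.sum_congr rfl fun v _ => by ring
        rw [e1, e2]
        ring }
  have hsurj : LinearMap.range Φ = ⊤ := by
    by_contra hne
    obtain ⟨f, hf0, hf⟩ := Submodule.exists_le_ker_of_lt_top _ (lt_top_iff_ne_top.mpr hne)
    have hfe : ∀ w, f w = ∑ u : (d.UR ∩ mm : Finset U), w u * f (Pi.single u 1) := by
      intro w
      conv_lhs => rw [← Finset.univ_sum_single w, map_sum]
      refine Finset.sum_congr rfl fun u _ => ?_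
      have h1 : (Pi.single u (w u) : (d.UR ∩ mm : Finset U) → ZMod 2) = w u • Pi.single u 1 := by
        rw [← Pi.single_smul, smul_eq_mul, mul_one]
      rw [h1, map_smul, smul_eq_mul]
    let w : U → ZMod 2 := fun u => if h : u ∈ d.UR ∩ mm then f (Pi.single ⟨u, h⟩ 1) else 0
    have hw : ∃ u, w u ≠ 0 := by
      by_contra hall
      push Not at hall
      apply hf0
      apply LinearMap.ext
      intro z
      rw [hfe, LinearMap.zero_apply]
      refine Finset.sum_eq_zero fun u _ => ?_
      have h1 := hall u
      simp only [w, dif_pos u.2] at h1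
      rw [h1, mul_zero]
    obtain ⟨k, _, hkC, hk⟩ := hB w hw
    apply hk
    let z : X := ⟨(0, Pi.single k 1), fun _ _ => rfl, fun l hl =>
      Pi.single_eq_of_ne (by rintro rfl; exact hl hkC) _⟩
    have h1 : f (Φ z) = 0 := hf ⟨z, rfl⟩
    have h2 : ∀ u : (d.UR ∩ mm : Finset U), Φ z u = d.B u k := by
      intro u
      change row u z.1 = _
      simp only [row, z, Pi.zero_apply, add_zero, mul_zero, sum_const_zero, zero_add]
      rw [Finset.sum_eq_single k]
      · rw [Pi.single_eq_same, mul_one]
      · intro l _ hl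
        rw [Pi.single_eq_of_ne hl, mul_zero]
      · intro h
        exact absurd (Finset.mem_univ k) h
    rw [hfe] at h1
    rw [← h1]
    have h3 : ∑ u, w u * d.B u k = ∑ u ∈ d.UR ∩ mm, w u * d.B u k := by
      symm
      refine Finset.sum_subset (Finset.subset_univ _) fun u _ hu => ?_
      simp only [w, dif_neg hu, zero_mul]
    rw [h3, ← Finset.sum_coe_sort (d.UR ∩ mm) (fun u => w u * d.B u k)]
    refine Finset.sum_congr rfl fun u _ => ?_
    rw [h2 u]
    simp only [w, dif_pos u.2]
    ring
  have hrn := LinearMap.finrank_range_add_finrank_ker Φ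
  rw [hsurj, finrank_top, Module.finrank_fintype_fun_eq_card, Fintype.card_coe] at hrn
  -- the dimension of X
  have hX : Module.finrank (ZMod 2) X = (d.UC ∩ mm).card + d.JC.card := by
    let E : X ≃ₗ[ZMod 2] ((d.UC ∩ mm : Finset U) → ZMod 2) × (d.JC → ZMod 2) :=
      { toFun := fun z => (fun u => z.1.1 u, fun k => z.1.2 k)
        map_add' := fun _ _ => rfl
        map_smul' := fun _ _ => rfl
        invFun := fun z => ⟨(fun u => if h : u ∈ d.UC ∩ mm then z.1 ⟨u, h⟩ else 0,
          fun k => if h : k ∈ d.JC then z.2 ⟨k, h⟩ else 0), fun u hu => dif_neg hu,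
            fun k hk => dif_neg hk⟩
        left_inv := by
          intro z
          apply Subtype.ext
          apply Prod.ext
          · funext u
            change (if h : u ∈ d.UC ∩ mm then z.1.1 u else 0) = z.1.1 u
            split_ifs with h
            · rfl
            · exact (z.2.1 u h).symm
          · funext k
            change (if h : k ∈ d.JC then z.1.2 k else 0) = z.1.2 k
            split_ifs with h
            · rfl
            · exact (z.2.2 k h).symm
        right_inv := by
          intro z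
          apply Prod.ext
          · funext u
            exact dif_pos u.2
          · funext k
            exact dif_pos k.2 }
    rw [E.finrank_eq, Module.finrank_prod, Module.finrank_fintype_fun_eq_card,
      Module.finrank_fintype_fun_eq_card, Fintype.card_coe, Fintype.card_coe]
  -- the solutions
  have hsol : (univ.filter fun z : (U → ZMod 2) × (J → ZMod 2) => Sml d mm z.1 z.2).card =
      2 ^ Module.finrank (ZMod 2) (LinearMap.ker Φ) := by
    rw [M23.card_filter_sub _ ((LinearMap.ker Φ).map X.subtype)]
    · rw [Submodule.finrank_map_subtype_eq]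
    · intro z
      rw [Submodule.mem_map]
      constructor
      · rintro ⟨y, hy, rfl⟩
        have hy' := LinearMap.mem_ker.mp hy
        refine ⟨fun u hu => y.2.1 u fun h => hu (mem_inter.mp h).1,
          fun u hu => y.2.1 u fun h => hu (mem_inter.mp h).2, y.2.2, fun u hu hm => ?_⟩
        exact congrFun hy' ⟨u, mem_inter.mpr ⟨hu, hm⟩⟩
      · rintro ⟨h1, h2, h3, h4⟩
        refine ⟨⟨z, fun u hu => ?_, h3⟩, ?_, rfl⟩
        · by_cases hc : u ∈ d.UC
          · exact h2 u fun hm => hu (mem_inter.mpr ⟨hc, hm⟩)
          · exact h1 u hc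
        · rw [LinearMap.mem_ker]
          funext u
          exact h4 u (mem_inter.mp u.2).1 (mem_inter.mp u.2).2
  rw [hsol, ← pow_add, ← hX, ← hrn]
  congr 1
  ring

end Pool.Agent.NH4.PJ
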