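import Pool.Agent.NH4.PJ.MomD

/-!
# Project PJ: the mixed moments
-/

set_option autoImplicit false
set_option linter.unusedSectionVars false
set_option linter.unusedVariables false

open scoped Classical

namespace Pool.Agent.NH4.PJ.Mom

open Finset Module
open Pool.Agent.Y703.CQ (prs)
open Pool.Agent.NH5.PR (ex2)

instance finSub {S : Type} [Fintype S] : Finite (Submodule F (S → F)) :=
  Finite.of_injective (fun W : Submodule F (S → F) => (W : Set (S → F))) SetLike.coe_injective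

section

variable {U J : Type} [Fintype U] [Fintype J] [LinearOrder J] {M : ℕ}

theorem gen_li (d : Dat U J) (m : Fin M → Finset U) (k : Fin M → ℕ)
    {z : Ix k → (U → F) × (J → F)} (ht : rs (yf z) {l | l ∉ d.JR} = ⊤) : LiF k z := by
  intro i
  rw [Fintype.linearIndependent_iff]
  intro g hg a₀
  set Φ : (Ix k → F) →ₗ[F] F := ∑ a : Fin (k i), g a • LinearMap.proj (⟨i, a⟩ : Ix k) with hΦ
  have hker : (⊤ : Submodule F (Ix k → F)) ≤ LinearMap.ker Φ := by
    rw [← ht]
    unfold rs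
    rw [Submodule.span_le]
    rintro w ⟨l, hl, rfl⟩
    rw [SetLike.mem_coe, LinearMap.mem_ker, hΦ]
    simp only [LinearMap.sum_apply, LinearMap.smul_apply, LinearMap.proj_apply, smul_eq_mul]
    have h1 : (∑ a : Fin (k i), g a • z ⟨i, a⟩).2 l = 0 := by rw [hg]; rfl
    rw [Prod.snd_sum, Finset.sum_apply] at h1
    exact h1
  have h2 : Φ (Pi.single (⟨i, a₀⟩ : Ix k) 1) = 0 := hker Submodule.mem_top
  rw [hΦ] at h2
  simp only [LinearMap.sum_apply, LinearMap.smul_apply, LinearMap.proj_apply, smul_eq_mul] at h2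
  rw [Finset.sum_eq_single a₀] at h2
  · rw [Pi.single_eq_same, mul_one] at h2
    exact h2
  · intro a _ ha
    rw [Pi.single_eq_of_ne, mul_zero]
    intro h
    apply ha
    have := (Sigma.mk.inj_iff.1 h).2
    exact eq_of_heq this
  · intro h
    exact absurd (mem_univ _) h

/-- the families satisfying the small rows -/
noncomputable def Sm (d : Dat U J) (m : Fin M → Finset U) (k : Fin M → ℕ) :
    Finset (Ix k → (U → F) × (J → F)) := univ.filter fun z => SmF d (fun s => m s.1) z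

/-- the families satisfying the small rows, linearly independent in each block -/
noncomputable def Tf (d : Dat U J) (m : Fin M → Finset U) (k : Fin M → ℕ) :
    Finset (Ix k → (U → F) × (J → F)) :=
  univ.filter fun z => SmF d (fun s => m s.1) z ∧ LiF k z

/-- generic families -/
def Gn (d : Dat U J) {k : Fin M → ℕ} (z : Ix k → (U → F) × (J → F)) : Prop :=
  rs (yf z) {l | l ∉ d.JR} = ⊤

theorem Tf_gen (d : Dat U J) (m : Fin M → Finset U) (k : Fin M → ℕ) :
    (Tf d m k).filter (Gn d) = (Sm d m k).filter (Gn d) := by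
  ext z
  unfold Tf Sm
  simp only [mem_filter, mem_univ, true_and]
  constructor
  · rintro ⟨⟨h1, -⟩, h2⟩
    exact ⟨h1, h2⟩
  · rintro ⟨h1, h2⟩
    exact ⟨⟨h1, gen_li d m k h2⟩, h2⟩

theorem card_Sm (h3 : S_M3) (d : Dat U J) (m : Fin M → Finset U) (k : Fin M → ℕ)
    (δ : Fin M → ℤ) (hg : d.Good m δ) :
    ((Sm d m k).card : ℝ) / 2 ^ (d.JR.card * Fintype.card (Ix k)) =
      ∏ i, (2 : ℝ) ^ ((k i : ℤ) * δ i) := by
  have e1 : Sm d m k = Fintype.piFinset fun s : Ix k =>
      univ.filter fun z : (U → F) × (J → F) => Sml d (m s.1) z.1 z.2 := by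
    ext z
    simp only [Sm, mem_filter, mem_univ, true_and, Fintype.mem_piFinset]
    exact Iff.rfl
  have e2 : ∀ i : Fin M, (((univ.filter fun z : (U → F) × (J → F) =>
      Sml d (m i) z.1 z.2).card : ℕ) : ℝ) / 2 ^ d.JR.card = (2 : ℝ) ^ (δ i) := by
    intro i
    have h4 := h3 U J d (m i) hg.nB
    have h5 : (((univ.filter fun z : (U → F) × (J → F) =>
      Sml d (m i) z.1 z.2).card : ℕ) : ℝ) * 2 ^ (d.UR ∩ m i).card =
        2 ^ ((d.UC ∩ m i).card + d.JC.card) := by exact_mod_cast h4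
    have h6 : (((univ.filter fun z : (U → F) × (J → F) =>
      Sml d (m i) z.1 z.2).card : ℕ) : ℝ) =
        2 ^ ((d.UC ∩ m i).card + d.JC.card) / 2 ^ (d.UR ∩ m i).card := by
      rw [← h5]
      field_simp
    have h7 : δ i = (((d.UC ∩ m i).card + d.JC.card : ℕ) : ℤ) - ((d.UR ∩ m i).card : ℤ) -
        (d.JR.card : ℤ) := by
      have := hg.dim i
      push_cast
      linarith
    rw [h6, h7, zpow_sub₀ (by norm_num), zpow_sub₀ (by norm_num), zpow_natCast, zpow_natCast,
      zpow_natCast]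
  rw [e1, Fintype.card_piFinset, Nat.cast_prod, pow_mul]
  have e3 : ((2 : ℝ) ^ d.JR.card) ^ Fintype.card (Ix k) = ∏ s : Ix k, (2 : ℝ) ^ d.JR.card := by
    rw [Finset.prod_const, card_univ]
  rw [e3, ← Finset.prod_div_distrib]
  rw [Finset.prod_congr rfl fun s _ => e2 s.1, Fintype.prod_sigma]
  refine Finset.prod_congr rfl fun i _ => ?_
  show ∏ _y : Fin (k i), (2 : ℝ) ^ δ i = _
  rw [Finset.prod_const, card_univ, Fintype.card_fin, ← zpow_natCast, ← zpow_mul, mul_comm]

theorem count0' (d : Dat U J) (m : Fin M → Finset U) (k : Fin M → ℕ)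
    (T : Finset (Ix k → (U → F) × (J → F)))
    (hT : ∀ z ∈ T, SmF d (fun s => m s.1) z ∧ rs (yf z) {l | l ∉ d.JR} ≠ ⊤) :
    (T.card : ℝ) * 2 ^ (d.JC \ d.JR).card ≤ 2 ^ Fintype.card (Ix k) *
      (2 ^ (Fintype.card (Ix k) * Fintype.card U) *
        ((2 : ℝ) ^ Fintype.card (Ix k)) ^ d.JC.card) := by
  exact count0T (S := Ix k) d (fun s => m s.1) T hT

theorem count1' (d : Dat U J) (m : Fin M → Finset U) (k : Fin M → ℕ)
    {W W' : Submodule F (Ix k → F)} (hWW : W' < W)
    (T : Finset (Ix k → (U → F) × (J → F)))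
    (hT : ∀ z ∈ T, SmF d (fun s => m s.1) z ∧ rs (yf z) Set.univ = W ∧
      rs (yf z) {l | l ∉ d.JR} = W') :
    (T.card : ℝ) * 2 ^ (d.JC \ d.JR).card ≤
      2 ^ (Fintype.card (Ix k) * Fintype.card U) * (Nat.card W : ℝ) ^ d.JC.card := by
  exact count1T (S := Ix k) d (fun s => m s.1) hWW T hT

theorem count2' (d : Dat U J) (m : Fin M → Finset U) (k : Fin M → ℕ) (δ : Fin M → ℤ)
    (hg : d.Good m δ) (V : ℕ) (hV : ∀ i j, i ≠ j → V ≤ (sepJ d m i j).card)
    {W : Submodule F (Ix k → F)} (hW : W ≠ ⊤) (T : Finset (Ix k → (U → F) × (J → F)))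
    (hT : ∀ z ∈ T, (SmF d (fun s => m s.1) z ∧ LiF k z) ∧
      rs (yf z) Set.univ = W ∧ Az d (fun s => m s.1) z ≠ 0) :
    (T.card : ℝ) * 2 ^ V ≤
      2 ^ (Fintype.card (Ix k) * Fintype.card U) * (Nat.card W : ℝ) ^ d.JC.card := by
  refine le_trans ?_ (count2 d m k δ hg V hV hW)
  have h : T.card ≤ _ := card_le_card fun z hz => mem_filter.2 ⟨mem_univ z, hT z hz⟩
  have h' := (Nat.cast_le (α := ℝ)).2 h
  exact mul_le_mul_of_nonneg_right h' (by positivity)

theorem t_MOM (h1 : S_M1) (h2 : S_M2) (h3 : S_M3) : S_MOM := by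
  intro M v0 k
  set K := Fintype.card (Ix k) with hK
  letI : Fintype (Submodule F (Ix k → F)) := Fintype.ofFinite _
  set NS : ℝ := (Fintype.card (Submodule F (Ix k → F) × Submodule F (Ix k → F)) : ℝ) with hNS
  have hNS0 : 0 ≤ NS := Nat.cast_nonneg _
  refine ⟨2 ^ (K ^ 2 + K * v0) * NS + 2 ^ (K + K * v0), 2 * K, by positivity, ?_⟩
  intro U J _ _ _ d m δ V hg hδ hV hsep
  set P : ℝ := 2 ^ (prs (univ : Finset J)).card with hP
  have hP0 : 0 < P := by positivity
  rcases isEmpty_or_nonempty (Ix k) with hE | ⟨⟨s₁⟩⟩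
  · -- no vectors
    have hk0 : ∀ i, k i = 0 := by
      intro i
      by_contra h
      exact hE.elim ⟨i, ⟨0, Nat.pos_of_ne_zero h⟩⟩
    have e1 : ∀ α : prs (univ : Finset J) → F, ∏ i, inj (k i) (nkM d (m i) α) = 1 := by
      intro α
      refine Finset.prod_eq_one fun i _ => ?_
      rw [hk0 i]
      unfold inj
      rw [Finset.range_zero, Finset.prod_empty]
    have e2 : ∏ i, (2 : ℝ) ^ ((k i : ℤ) * δ i) = 1 := by
      refine Finset.prod_eq_one fun i _ => ?_
      rw [hk0 i]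
      simp
    have e3 : (∑ α : prs (univ : Finset J) → ZMod 2, ∏ i, inj (k i) (nkM d (m i) α)) = P := by
      rw [Finset.sum_congr rfl fun α _ => e1 α, Finset.sum_const, nsmul_eq_mul, mul_one, card_univ,
        Fintype.card_fun, ZMod.card, Fintype.card_coe, hP]
      push_cast
      rfl
    rw [e3, e2, div_self hP0.ne', sub_self, abs_zero]
    positivity
  -- the dimensions
  have hJ : d.JC.card ≤ d.JR.card + (v0 + Fintype.card U) := by
    have a1 := hg.dim s₁.1
    have a2 := abs_le.1 (hδ s₁.1)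
    have a3 : (d.UR ∩ m s₁.1).card ≤ Fintype.card U := Finset.card_le_univ _
    zify
    linarith [a2.2, (Nat.cast_nonneg (d.UC ∩ m s₁.1).card : (0 : ℤ) ≤ _),
      (by exact_mod_cast a3 : ((d.UR ∩ m s₁.1).card : ℤ) ≤ Fintype.card U)]
  have hw : ∀ w : ℝ, 1 ≤ w → w ≤ 2 ^ K → w ^ d.JC.card ≤
      w ^ d.JR.card * 2 ^ (K * (v0 + Fintype.card U)) := by
    intro w hw1 hwK
    calc w ^ d.JC.card ≤ w ^ (d.JR.card + (v0 + Fintype.card U)) := pow_le_pow_right₀ hw1 hJ
      _ = w ^ d.JR.card * w ^ (v0 + Fintype.card U) := pow_add _ _ _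
      _ ≤ w ^ d.JR.card * (2 ^ K) ^ (v0 + Fintype.card U) := by gcongr
      _ = _ := by rw [← pow_mul]
  have hVV : (2 : ℝ) ^ V ≤ 2 ^ (d.JC \ d.JR).card := pow_le_pow_right₀ (by norm_num) hV
  set m' : Ix k → Finset U := fun s => m s.1 with hm'
  -- the sum over the families
  have hsum : ∑ α : prs (univ : Finset J) → ZMod 2, ∏ i, inj (k i) (nkM d (m i) α) =
      ∑ z ∈ Tf d m k, (Az d m' z : ℝ) := by
    rw [sum_prod]
    have e : (univ.filter (fun z : Ix k → (U → F) × (J → F) =>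
        (∀ s, Sml d (m s.1) (z s).1 (z s).2) ∧ LiF k z)) = Tf d m k := by
      unfold Tf SmF
      congr!
    rw [e]
  -- the generic part
  have hgen : ∑ z ∈ (Tf d m k).filter (Gn d), (Az d m' z : ℝ) =
      P / 2 ^ (d.JR.card * K) * (((Tf d m k).filter (Gn d)).card : ℝ) := by
    have e : ∀ z ∈ (Tf d m k).filter (Gn d), (Az d m' z : ℝ) = P / 2 ^ (d.JR.card * K) := by
      intro z hz
      rw [mem_filter] at hz
      have h4 := gen_A h1 h2 hg.free (m := m') (mem_filter.1 hz.1).2.1 hz.2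
      rw [eq_div_iff (by positivity)]
      exact h4
    rw [Finset.sum_congr rfl e, Finset.sum_const, nsmul_eq_mul, mul_comm]
  have hcount0 : (((Sm d m k).filter fun z => ¬ Gn d z).card : ℝ) * 2 ^ V ≤
      2 ^ K * (2 ^ (K * Fintype.card U) * ((2 : ℝ) ^ K) ^ d.JC.card) := by
    have h4 := count0' d m k ((Sm d m k).filter fun z => ¬ Gn d z) (by
      intro z hz
      rw [mem_filter] at hz
      exact ⟨(mem_filter.1 hz.1).2, hz.2⟩)
    refine le_trans ?_ h4
    gcongr
  have hgen2 : |(∑ z ∈ (Tf d m k).filter (Gn d), (Az d m' z : ℝ)) / P -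
      ∏ i, (2 : ℝ) ^ ((k i : ℤ) * δ i)| ≤ 2 ^ (K + K * v0) * 2 ^ (2 * K * Fintype.card U) / 2 ^ V := by
    rw [hgen, ← card_Sm h3 d m k δ hg, Tf_gen]
    have e1 : ((Sm d m k).card : ℝ) = (((Sm d m k).filter (Gn d)).card : ℝ) +
        (((Sm d m k).filter fun z => ¬ Gn d z).card : ℝ) := by
      rw [← Nat.cast_add, Finset.card_filter_add_card_filter_not]
    have e2 : P / 2 ^ (d.JR.card * K) * (((Sm d m k).filter (Gn d)).card : ℝ) / P -
        ((Sm d m k).card : ℝ) / 2 ^ (d.JR.card * Fintype.card (Ix k)) =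
        -((((Sm d m k).filter fun z => ¬ Gn d z).card : ℝ) / 2 ^ (d.JR.card * K)) := by
      rw [e1, ← hK]
      field_simp
      ring
    rw [e2, abs_neg, abs_of_nonneg (by positivity), div_le_div_iff₀ (by positivity) (by positivity)]
    have h4 := hw (2 ^ K) (one_le_pow₀ (by norm_num)) le_rfl
    calc (((Sm d m k).filter fun z => ¬ Gn d z).card : ℝ) * 2 ^ V ≤
          2 ^ K * (2 ^ (K * Fintype.card U) * ((2 : ℝ) ^ K) ^ d.JC.card) := hcount0
      _ ≤ 2 ^ K * (2 ^ (K * Fintype.card U) * (((2 : ℝ) ^ K) ^ d.JR.card *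
          2 ^ (K * (v0 + Fintype.card U)))) := by gcongr
      _ = _ := by
          rw [← pow_mul (2 : ℝ) K d.JR.card, ← pow_add, ← pow_add, ← pow_add, ← pow_add, ← pow_add]
          congr 1
          ring
  -- the rest
  have hrest : (∑ z ∈ (Tf d m k).filter (fun z => ¬ Gn d z), (Az d m' z : ℝ)) * 2 ^ V ≤
      NS * (P * 2 ^ (K ^ 2) * (2 ^ (K * Fintype.card U) * 2 ^ (K * (v0 + Fintype.card U)))) := by
    rw [← Finset.sum_fiberwise ((Tf d m k).filter (fun z => ¬ Gn d z))
      (fun z => (rs (yf z) Set.univ, rs (yf z) {l | l ∉ d.JR})) (fun z => (Az d m' z : ℝ)),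
      Finset.sum_mul]
    refine (Finset.sum_le_card_nsmul _ _ (P * 2 ^ (K ^ 2) * (2 ^ (K * Fintype.card U) *
      2 ^ (K * (v0 + Fintype.card U)))) ?_).trans (le_of_eq ?_)
    · rintro ⟨W, W'⟩ -
      set Tp := ((Tf d m k).filter (fun z => ¬ Gn d z)).filter
        (fun z => (rs (yf z) Set.univ, rs (yf z) {l | l ∉ d.JR}) = (W, W')) with hTp
      have hmem : ∀ z ∈ Tp, (SmF d m' z ∧ LiF k z) ∧ ¬ Gn d z ∧ rs (yf z) Set.univ = W ∧
          rs (yf z) {l | l ∉ d.JR} = W' := by
        intro z hz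
        rw [hTp, mem_filter, mem_filter] at hz
        unfold Tf at hz
        rw [mem_filter] at hz
        have h4 := Prod.ext_iff.1 hz.2
        exact ⟨hz.1.1.2, hz.1.2, h4.1, h4.2⟩
      have hWp := cardW_pos W
      have hWle := cardW_le W
      have hAle : ∀ z ∈ Tp, (Az d m' z : ℝ) ≤ P * 2 ^ (K ^ 2) / (Nat.card W : ℝ) ^ d.JR.card := by
        intro z hz
        obtain ⟨h4, -, h5, -⟩ := hmem z hz
        have h6 := non_A h1 h2 hg.free h4.1
        rw [h5] at h6
        rw [le_div_iff₀ (by positivity)]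
        exact h6
      have hcnt : ((Tp.filter fun z => Az d m' z ≠ 0).card : ℝ) * 2 ^ V ≤
          2 ^ (K * Fintype.card U) * (Nat.card W : ℝ) ^ d.JC.card := by
        rcases Tp.eq_empty_or_nonempty with hemp | ⟨z₀, hz₀⟩
        · rw [hemp, Finset.filter_empty, Finset.card_empty, Nat.cast_zero, zero_mul]
          positivity
        obtain ⟨-, h4, h5, h6⟩ := hmem z₀ hz₀
        have hle : W' ≤ W := by
          rw [← h5, ← h6]
          exact Submodule.span_mono (Set.image_mono (Set.subset_univ _))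
        have hne : W' ≠ ⊤ := by
          rw [← h6]
          exact h4
        rcases hle.lt_or_eq with hlt | heq
        · have h7 := count1' d m k hlt (Tp.filter fun z => Az d m' z ≠ 0) (by
            intro z hz
            rw [mem_filter] at hz
            obtain ⟨g1, -, g3, g4⟩ := hmem z hz.1
            exact ⟨g1.1, g3, g4⟩)
          refine le_trans ?_ h7
          gcongr
        · exact count2' d m k δ hg V hsep (W := W) (by rw [← heq]; exact hne)
            (Tp.filter fun z => Az d m' z ≠ 0) (by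
            intro z hz
            rw [mem_filter] at hz
            obtain ⟨g1, -, g3, g4⟩ := hmem z hz.1
            exact ⟨g1, g3, hz.2⟩)
      have hsumle : ∑ z ∈ Tp, (Az d m' z : ℝ) ≤
          ((Tp.filter fun z => Az d m' z ≠ 0).card : ℝ) *
            (P * 2 ^ (K ^ 2) / (Nat.card W : ℝ) ^ d.JR.card) := by
        have e : ∑ z ∈ Tp, (Az d m' z : ℝ) = ∑ z ∈ Tp.filter (fun z => Az d m' z ≠ 0),
            (Az d m' z : ℝ) := by
          symm
          apply Finset.sum_filter_of_ne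
          intro z _ hz
          exact_mod_cast hz
        rw [e, ← nsmul_eq_mul]
        exact Finset.sum_le_card_nsmul _ _ _ fun z hz => hAle z (mem_filter.1 hz).1
      show (∑ z ∈ Tp, (Az d m' z : ℝ)) * 2 ^ V ≤ _
      calc (∑ z ∈ Tp, (Az d m' z : ℝ)) * 2 ^ V ≤
            (((Tp.filter fun z => Az d m' z ≠ 0).card : ℝ) *
            (P * 2 ^ (K ^ 2) / (Nat.card W : ℝ) ^ d.JR.card)) * 2 ^ V := by gcongr
        _ = (((Tp.filter fun z => Az d m' z ≠ 0).card : ℝ) * 2 ^ V) *
            (P * 2 ^ (K ^ 2) / (Nat.card W : ℝ) ^ d.JR.card) := by ring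
        _ ≤ (2 ^ (K * Fintype.card U) * (Nat.card W : ℝ) ^ d.JC.card) *
            (P * 2 ^ (K ^ 2) / (Nat.card W : ℝ) ^ d.JR.card) := by gcongr
        _ ≤ (2 ^ (K * Fintype.card U) * ((Nat.card W : ℝ) ^ d.JR.card *
            2 ^ (K * (v0 + Fintype.card U)))) *
            (P * 2 ^ (K ^ 2) / (Nat.card W : ℝ) ^ d.JR.card) := by
            have := hw (Nat.card W) hWp hWle
            gcongr
        _ = _ := by
            field_simp
    · rw [nsmul_eq_mul, card_univ]
  have hrest2 : (∑ z ∈ (Tf d m k).filter (fun z => ¬ Gn d z), (Az d m' z : ℝ)) / P ≤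
      2 ^ (K ^ 2 + K * v0) * NS * 2 ^ (2 * K * Fintype.card U) / 2 ^ V := by
    rw [div_le_div_iff₀ hP0 (by positivity)]
    refine hrest.trans (le_of_eq ?_)
    have e : (2 : ℝ) ^ (K * Fintype.card U) * 2 ^ (K * (v0 + Fintype.card U)) =
        2 ^ (K * v0) * 2 ^ (2 * K * Fintype.card U) := by
      rw [← pow_add, ← pow_add]
      congr 1
      ring
    rw [e, pow_add]
    ring
  have hrest0 : 0 ≤ (∑ z ∈ (Tf d m k).filter (fun z => ¬ Gn d z), (Az d m' z : ℝ)) / P :=
    div_nonneg (Finset.sum_nonneg fun z _ => Nat.cast_nonneg _) hP0.le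
  rw [hsum, ← Finset.sum_filter_add_sum_filter_not (Tf d m k) (Gn d), add_div]
  have e : ∀ a b c : ℝ, |a + b - c| ≤ |a - c| + |b| := by
    intro a b c
    have : a + b - c = (a - c) + b := by ring
    rw [this]
    exact abs_add_le _ _
  refine (e _ _ _).trans ?_
  rw [abs_of_nonneg hrest0]
  refine (add_le_add hgen2 hrest2).trans (le_of_eq ?_)
  ring

end

end Pool.Agent.NH4.PJ.Mom
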