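import Pool.Agent.NH4.PJ.ABS
import Pool.Agent.NH4.PJ.LAW
import Pool.Agent.NH4.PJ.M1
import Pool.Agent.NH4.PJ.M23
import Pool.Agent.NH4.PJ.MOM
import Pool.Agent.NH4.PJ.LA
import Pool.Agent.NH4.PJ.BOX
import Pool.Agent.NH4.PJ.Key
import Pool.Agent.NH4.PJ.FEW
import Pool.Agent.NH4.PJ.LOW
import Pool.Agent.NH4.PJ.Asy
import Pool.Agent.NH5.PR.Fin
import Pool.Agent.Y405.JQ.MER

/-!
# Project PJ: the joint law, unconditionally

Joint work: helper70 (the law from the moments), helper67 (the law), helper47, helper56 (linear algebra),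
helper13 (boxes), helper39 (sum over the boxes), helper17 (exceptional sets), helper87 (lower bound),
helper57 (asymptotics), helper4 (statements, moments), and the authors of the projects PR, JQ, CQ.
-/

set_option autoImplicit false

namespace Pool.Agent.NH4.PJ

theorem f_MOM : S_MOM := Mom.t_MOM t_M1 t_M2 t_M3

theorem f_JLA : S_JLA := t_JLA t_ABS f_MOM t_POW

theorem f_JLOW : S_JLOW := t_JLOW

theorem f_JDQ : S_JDQ :=
  t_JASY Pool.Agent.NH5.PR.t_BIL Pool.Agent.Y356.CQ.t_EQ f_JLA t_LAW t_JBOX t_JKEY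
    Pool.Agent.NH5.PR.t_CNT Pool.Agent.Y488.CX.t_SIE Pool.Agent.NH5.PR.t_HAL
    Pool.Agent.NH5.PR.t_BAD Pool.Agent.Y405.CQ.t_MER Pool.Agent.Y405.JQ.t_JMER t_JFEW t_JSEP
    Pool.Agent.NH5.PR.f_LOW t_JLOW Pool.Agent.NH5.PR.t_ETA

theorem f_JDEN : S_JDEN := t_JNS f_JDQ

end Pool.Agent.NH4.PJ
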