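import Pool.Agent.NH4.PJ.MomA

/-!
# Project PJ: the mixed moments, part B: families of solutions
-/

set_option autoImplicit false
set_option linter.unusedSectionVars false

open scoped Classical

namespace Pool.Agent.NH4.PJ.Mom

open Finset Module
open Pool.Agent.Y703.CQ (prs)
open Pool.Agent.NH5.PR (ex2)

/-- the indices of a family -/
abbrev Ix {M : ℕ} (k : Fin M → ℕ) : Type := (i : Fin M) × Fin (k i)

section

variable {U J : Type} [Fintype U] [Fintype J] [LinearOrder J] {M : ℕ}

/-- linear independence in each block -/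
def LiF {V : Type} [AddCommGroup V] [Module F V] (k : Fin M → ℕ) (z : Ix k → V) : Prop :=
  ∀ i, LinearIndependent F fun a : Fin (k i) => z ⟨i, a⟩

theorem prod_inj (d : Dat U J) (m : Fin M → Finset U) (k : Fin M → ℕ)
    (α : prs (univ : Finset J) → F) :
    ∏ i, inj (k i) (nkM d (m i) α) =
      (Nat.card {z : Ix k → (U → F) × (J → F) // (∀ s, z s ∈ Sol d (m s.1) α) ∧ LiF k z} : ℝ) := by
  have e : {z : Ix k → (U → F) × (J → F) // (∀ s, z s ∈ Sol d (m s.1) α) ∧ LiF k z} ≃
      ((i : Fin M) → {f : Fin (k i) → (U → F) × (J → F) // (∀ a, f a ∈ Sol d (m i) α) ∧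
        LinearIndependent F f}) :=
    { toFun := fun z i => ⟨fun a => z.1 ⟨i, a⟩, fun a => z.2.1 ⟨i, a⟩, z.2.2 i⟩
      invFun := fun g => ⟨fun s => (g s.1).1 s.2, fun s => (g s.1).2.1 s.2, fun i => (g i).2.2⟩
      left_inv := fun z => rfl
      right_inv := fun g => rfl }
  rw [Nat.card_congr e, Nat.card_pi]
  push_cast
  refine Finset.prod_congr rfl fun i _ => ?_
  rw [card_li, nkM_eq]

/-- the family of the large parts, by the large indices -/
def yf {S : Type} (z : S → (U → F) × (J → F)) : J → S → F := fun l s => (z s).2 l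

/-- the family of the small parts -/
def xf {S : Type} (z : S → (U → F) × (J → F)) : S → U → F := fun s => (z s).1

/-- the constant parts of the large rows -/
noncomputable def c0 {S : Type} (d : Dat U J) (m : S → Finset U) (z : S → (U → F) × (J → F)) :
    J → S → F := fun k s => ∑ u ∈ m s, d.C k u * ((z s).1 u + (z s).2 k) + d.g k * (z s).2 k

/-- the number of the completions for which a family satisfies the large rows -/
noncomputable def Az {S : Type} (d : Dat U J) (m : S → Finset U) (z : S → (U → F) × (J → F)) : ℕ :=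
  (univ.filter fun α : prs (univ : Finset J) → F => ∀ s, Lrg d (m s) α (z s).1 (z s).2).card

theorem Az_eq {S : Type} (d : Dat U J) (m : S → Finset U) (z : S → (U → F) × (J → F)) :
    Az d m z = (univ.filter fun α : prs (univ : Finset J) → F => ∀ k ∈ d.JR, ∀ s,
      c0 d m z k s + ∑ l, ex2 d.t α k l * (yf z l s + yf z k s) = 0).card := by
  unfold Az
  congr 1
  refine Finset.filter_congr fun α _ => ?_
  unfold Lrg c0 yf
  constructor
  · intro h k hk s
    rw [← h s k hk]
    ring
  · intro h s k hk
    rw [← h k hk s]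
    ring

theorem sum_prod (d : Dat U J) (m : Fin M → Finset U) (k : Fin M → ℕ) :
    ∑ α : prs (univ : Finset J) → F, ∏ i, inj (k i) (nkM d (m i) α) =
      ∑ z ∈ univ.filter (fun z : Ix k → (U → F) × (J → F) =>
        (∀ s, Sml d (m s.1) (z s).1 (z s).2) ∧ LiF k z), (Az d (fun s => m s.1) z : ℝ) := by
  simp only [prod_inj]
  have h1 : ∀ α : prs (univ : Finset J) → F,
      (Nat.card {z : Ix k → (U → F) × (J → F) // (∀ s, z s ∈ Sol d (m s.1) α) ∧ LiF k z} : ℝ) =
      ∑ z ∈ univ.filter (fun z : Ix k → (U → F) × (J → F) =>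
        (∀ s, Sml d (m s.1) (z s).1 (z s).2) ∧ LiF k z),
        if ∀ s, Lrg d (m s.1) α (z s).1 (z s).2 then (1 : ℝ) else 0 := by
    intro α
    rw [Finset.sum_boole, Finset.filter_filter, Nat.card_eq_fintype_card, Fintype.card_subtype]
    congr 2
    ext z
    simp only [mem_filter, mem_univ, true_and, mem_Sol]
    constructor
    · rintro ⟨h, h'⟩
      exact ⟨⟨fun s => (h s).1, h'⟩, fun s => (h s).2⟩
    · rintro ⟨⟨h, h'⟩, h2⟩
      exact ⟨fun s => ⟨h s, h2 s⟩, h'⟩
  simp only [h1]
  rw [Finset.sum_comm]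
  refine Finset.sum_congr rfl fun z _ => ?_
  unfold Az
  rw [Finset.sum_boole]
  congr!

/-- the families as pairs -/
def ze {S : Type} : (S → (U → F) × (J → F)) ≃ (S → U → F) × (J → S → F) where
  toFun z := (xf z, yf z)
  invFun p := fun s => (p.1 s, fun l => p.2 l s)
  left_inv z := rfl
  right_inv p := rfl

/-- counting families with restricted large parts -/
theorem cnt_le {S : Type} [Fintype S] (Q : (S → (U → F) × (J → F)) → Prop)
    (Y : (S → U → F) → J → Finset (S → F)) (B : ℝ)
    (hQ : ∀ z, Q z → ∀ l, yf z l ∈ Y (xf z) l) (hB : ∀ x, (∏ l, ((Y x l).card : ℝ)) ≤ B) :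
    ((univ.filter Q).card : ℝ) ≤ 2 ^ (Fintype.card S * Fintype.card U) * B := by
  have h1 : (univ.filter Q).card ≤
      (univ.filter fun p : (S → U → F) × (J → S → F) => ∀ l, p.2 l ∈ Y p.1 l).card := by
    refine Finset.card_le_card_of_injOn (ze (U := U) (J := J) (S := S)) ?_
      (ze (U := U) (J := J) (S := S)).injective.injOn
    intro z hz
    rw [Finset.mem_coe, mem_filter] at hz
    rw [Finset.mem_coe, mem_filter]
    exact ⟨mem_univ _, hQ z hz.2⟩
  have h2 : ((univ.filter fun p : (S → U → F) × (J → S → F) => ∀ l, p.2 l ∈ Y p.1 l).card : ℝ) =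
      ∑ x : S → U → F, ∏ l, ((Y x l).card : ℝ) := by
    rw [← Finset.sum_boole, ← Finset.univ_product_univ, Finset.sum_product]
    refine Finset.sum_congr rfl fun x _ => ?_
    rw [Finset.sum_boole]
    have : (univ.filter fun y : J → S → F => ∀ l, y l ∈ Y x l) = Fintype.piFinset (Y x) := by
      ext y
      rw [mem_filter, Fintype.mem_piFinset]
      exact ⟨fun h => h.2, fun h => ⟨mem_univ _, h⟩⟩
    rw [this, Fintype.card_piFinset]
    push_cast
    rfl
  have h3 : ((univ.filter Q).card : ℝ) ≤ ∑ x : S → U → F, ∏ l, ((Y x l).card : ℝ) := by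
    rw [← h2]
    exact_mod_cast h1
  refine h3.trans ((Finset.sum_le_sum fun x _ => hB x).trans ?_)
  rw [Finset.sum_const, nsmul_eq_mul, card_univ, Fintype.card_fun, Fintype.card_fun, ZMod.card]
  apply le_of_eq
  congr 1
  push_cast
  rw [← pow_mul]
  congr 1
  ring

end

section

variable {S : Type} [Fintype S]

/-- the scalar product -/
def dp (c w : S → F) : F := ∑ s, c s * w s

theorem dp_add (c w w' : S → F) : dp c (w + w') = dp c w + dp c w' := by
  unfold dp
  rw [← Finset.sum_add_distrib]
  refine Finset.sum_congr rfl fun s _ => ?_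
  rw [Pi.add_apply, mul_add]

theorem f2 {a : F} (h : a ≠ 0) : a = 1 := by
  revert a; decide

/-- a proper subspace is orthogonal to a nonzero vector -/
theorem exists_orth {W : Submodule F (S → F)} (h : W ≠ ⊤) :
    ∃ c : S → F, c ≠ 0 ∧ ∀ w ∈ W, dp c w = 0 := by
  obtain ⟨f, hf, hW⟩ := Submodule.exists_le_ker_of_lt_top W (lt_top_iff_ne_top.2 h)
  have key : ∀ w : S → F, f w = dp (fun s => f (Pi.single s 1)) w := by
    intro w
    have : w = ∑ s, w s • (Pi.single s (1 : F) : S → F) := by
      ext t
      rw [Finset.sum_apply]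
      simp only [Pi.smul_apply, smul_eq_mul, Pi.single_apply, mul_ite, mul_one, mul_zero]
      rw [Finset.sum_ite_eq]
      simp
    conv_lhs => rw [this]
    rw [map_sum]
    unfold dp
    refine Finset.sum_congr rfl fun s _ => ?_
    rw [map_smul, smul_eq_mul, mul_comm]
  refine ⟨fun s => f (Pi.single s 1), ?_, fun w hw => ?_⟩
  · intro h0
    apply hf
    ext w
    rw [LinearMap.comp_apply, LinearMap.comp_apply, key, h0]
    simp [dp]
  · rw [← key]
    exact hW hw

/-- the elements of a subspace with a given nontrivial scalar product -/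
theorem half (W : Submodule F (S → F)) (c : S → F) (b : F) (h : ∃ w ∈ W, dp c w ≠ 0) :
    ((univ.filter fun w : S → F => w ∈ W ∧ dp c w = b).card : ℝ) * 2 ≤ Nat.card W := by
  obtain ⟨w0, hw0, hc⟩ := h
  have h1 : (univ.filter fun w : S → F => w ∈ W ∧ dp c w = b).card ≤
      (univ.filter fun w : S → F => w ∈ W ∧ dp c w ≠ b).card := by
    refine Finset.card_le_card_of_injOn (fun w => w + w0) ?_ (add_left_injective w0).injOn
    intro w hw
    rw [Finset.mem_coe, mem_filter] at hw
    rw [Finset.mem_coe, mem_filter]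
    refine ⟨mem_univ _, W.add_mem hw.2.1 hw0, ?_⟩
    rw [dp_add, hw.2.2, f2 hc]
    exact (by decide : ∀ b : F, b + 1 ≠ b) b
  have h2 : (univ.filter fun w : S → F => w ∈ W ∧ dp c w = b).card +
      (univ.filter fun w : S → F => w ∈ W ∧ dp c w ≠ b).card = Nat.card W := by
    rw [Nat.card_eq_fintype_card, Fintype.card_subtype, ← Finset.filter_filter,
      ← Finset.filter_filter]
    exact Finset.card_filter_add_card_filter_not _
  have h3 : (univ.filter fun w : S → F => w ∈ W ∧ dp c w = b).card * 2 ≤ Nat.card W := by omega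
  exact_mod_cast h3

theorem cardW_pos (W : Submodule F (S → F)) : (1 : ℝ) ≤ Nat.card W := by
  exact_mod_cast Nat.card_pos

theorem cardW_le (W : Submodule F (S → F)) : (Nat.card W : ℝ) ≤ 2 ^ Fintype.card S := by
  have h : Nat.card W ≤ Nat.card (S → F) := Nat.card_le_card_of_injective _ Subtype.val_injective
  rw [Nat.card_eq_fintype_card (α := S → F), Fintype.card_fun, ZMod.card] at h
  exact_mod_cast h

theorem cardW_lt {W W' : Submodule F (S → F)} (h : W' < W) : (Nat.card W' : ℝ) * 2 ≤ Nat.card W := by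
  have h1 : Nat.card W' = 2 ^ finrank F W' := by
    rw [Module.natCard_eq_pow_finrank (K := F) (V := W'), Nat.card_zmod]
  have h2 : Nat.card W = 2 ^ finrank F W := by
    rw [Module.natCard_eq_pow_finrank (K := F) (V := W), Nat.card_zmod]
  have h3 := Submodule.finrank_lt_finrank_of_lt h
  rw [h1, h2]
  push_cast
  rw [← pow_succ]
  exact pow_le_pow_right₀ (by norm_num) (by omega)

end

end Pool.Agent.NH4.PJ.Mom
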