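import Pool.Agent.NH4.PJ.MomB

/-!
# Project PJ: the mixed moments, part C: the estimates
-/

set_option autoImplicit false
set_option linter.unusedSectionVars false
set_option linter.unusedVariables false

open scoped Classical

namespace Pool.Agent.NH4.PJ.Mom

open Finset Module
open Pool.Agent.Y703.CQ (prs)
open Pool.Agent.NH5.PR (ex2)

section

variable {U J : Type} [Fintype U] [Fintype J] [LinearOrder J] {S : Type} [Fintype S]

/-- the small rows for a family -/
def SmF (d : Dat U J) (m : S → Finset U) (z : S → (U → F) × (J → F)) : Prop :=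
  ∀ s, Sml d (m s) (z s).1 (z s).2

theorem yf_zero {d : Dat U J} {m : S → Finset U} {z : S → (U → F) × (J → F)} (h : SmF d m z)
    {l : J} (hl : l ∉ d.JC) : yf z l = 0 := by
  funext s
  exact (h s).2.2.1 l hl

theorem Az_eq' (d : Dat U J) (m : S → Finset U) (z : S → (U → F) × (J → F)) :
    (univ.filter fun α : prs (univ : Finset J) → F => ∀ k ∈ d.JR, ∀ s,
      c0 d m z k s + ∑ l, ex2 d.t α k l * (yf z l s + yf z k s) = 0).card = Az d m z := by
  rw [Az_eq]
  congr!

theorem gen_A (h1 : S_M1) (h2 : S_M2) {d : Dat U J} (hf : ∃ l, l ∉ d.JR ∧ l ∉ d.JC)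
    {m : S → Finset U} {z : S → (U → F) × (J → F)} (h : SmF d m z)
    (ht : rs (yf z) {l | l ∉ d.JR} = ⊤) :
    (Az d m z : ℝ) * 2 ^ (d.JR.card * Fintype.card S) = 2 ^ (prs (univ : Finset J)).card := by
  obtain ⟨l, hl1, hl2⟩ := hf
  have h3 := (h1 J S d.JR d.t (yf z) (c0 d m z) ⟨l, hl1, yf_zero h hl2⟩).2
    ((h2 J S d.JR (yf z)).2 ht)
  rw [Az_eq'] at h3
  exact_mod_cast h3

theorem non_A (h1 : S_M1) (h2 : S_M2) {d : Dat U J} (hf : ∃ l, l ∉ d.JR ∧ l ∉ d.JC)
    {m : S → Finset U} {z : S → (U → F) × (J → F)} (h : SmF d m z) :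
    (Az d m z : ℝ) * (Nat.card (rs (yf z) Set.univ) : ℝ) ^ d.JR.card ≤
      2 ^ (prs (univ : Finset J)).card * 2 ^ (Fintype.card S ^ 2) := by
  obtain ⟨l, hl1, hl2⟩ := hf
  have h3 := (h1 J S d.JR d.t (yf z) (c0 d m z) ⟨l, hl1, yf_zero h hl2⟩).1
  have h4 : (univ.filter fun c : J → S → ZMod 2 => Dep d.JR (yf z) c).card *
      Nat.card (rs (yf z) Set.univ) ^ d.JR.card ≤
        2 ^ (Fintype.card S ^ 2 + Fintype.card S * d.JR.card) := by
    refine le_trans (le_of_eq ?_) (h2 J S d.JR (yf z)).1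
    congr
    all_goals (funext a b; exact Subsingleton.elim _ _)
  rw [Az_eq'] at h3
  set w := Nat.card (rs (yf z) Set.univ) with hw
  have h5 : Az d m z * 2 ^ (d.JR.card * Fintype.card S) * w ^ d.JR.card ≤
      2 ^ (prs (univ : Finset J)).card * 2 ^ (Fintype.card S ^ 2 + Fintype.card S * d.JR.card) :=
    calc _ ≤ (2 ^ (prs (univ : Finset J)).card *
        (univ.filter fun c : J → S → ZMod 2 => Dep d.JR (yf z) c).card) * w ^ d.JR.card :=
          Nat.mul_le_mul_right _ h3
      _ = 2 ^ (prs (univ : Finset J)).card *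
        ((univ.filter fun c : J → S → ZMod 2 => Dep d.JR (yf z) c).card * w ^ d.JR.card) := by ring
      _ ≤ _ := Nat.mul_le_mul_left _ h4
  have h6 : (Az d m z * w ^ d.JR.card) * 2 ^ (d.JR.card * Fintype.card S) ≤
      (2 ^ (prs (univ : Finset J)).card * 2 ^ (Fintype.card S ^ 2)) *
        2 ^ (d.JR.card * Fintype.card S) := by
    calc _ = Az d m z * 2 ^ (d.JR.card * Fintype.card S) * w ^ d.JR.card := by ring
      _ ≤ _ := h5
      _ = _ := by
        rw [pow_add, Nat.mul_comm (Fintype.card S) d.JR.card]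
        ring
  have h7 := Nat.le_of_mul_le_mul_right h6 (by positivity)
  exact_mod_cast h7

/-- the product over the large indices of a constant -/
theorem prod_split (JR JC : Finset J) (a b : ℝ) :
    ∏ l, (if l ∈ JC then (if l ∈ JR then a else b) else 1) =
      a ^ (JC ∩ JR).card * b ^ (JC \ JR).card := by
  rw [← Finset.prod_filter]
  have e1 : (univ.filter fun l => l ∈ JC) = JC := by
    ext l; simp
  have e2 : (JC.filter fun l => l ∈ JR) = JC ∩ JR := by
    ext l; simp
  have e3 : (JC.filter fun l => l ∉ JR) = JC \ JR := by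
    ext l; simp
  rw [e1, Finset.prod_ite, Finset.prod_const, Finset.prod_const, e2, e3]

theorem card_mem (W : Submodule F (S → F)) :
    ((univ.filter fun w : S → F => w ∈ W).card : ℝ) = Nat.card W := by
  rw [Nat.card_eq_fintype_card, Fintype.card_subtype]

/-- case 1 -/
theorem count1 (d : Dat U J) (m : S → Finset U) {W W' : Submodule F (S → F)} (hWW : W' < W) :
    ((univ.filter fun z : S → (U → F) × (J → F) => SmF d m z ∧ rs (yf z) Set.univ = W ∧
      rs (yf z) {l | l ∉ d.JR} = W').card : ℝ) * 2 ^ (d.JC \ d.JR).card ≤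
    2 ^ (Fintype.card S * Fintype.card U) * (Nat.card W : ℝ) ^ d.JC.card := by
  have h := cnt_le (U := U) (J := J) (S := S) (fun z => SmF d m z ∧ rs (yf z) Set.univ = W ∧
      rs (yf z) {l | l ∉ d.JR} = W')
    (fun _ l => if l ∈ d.JC then (if l ∈ d.JR then univ.filter (fun w => w ∈ W) else
      univ.filter (fun w => w ∈ W')) else {0})
    ((Nat.card W : ℝ) ^ (d.JC ∩ d.JR).card * (Nat.card W' : ℝ) ^ (d.JC \ d.JR).card)
    (by
      rintro z ⟨hz, rfl, rfl⟩ l
      split_ifs with h1 h2
      · rw [mem_filter]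
        exact ⟨mem_univ _, Submodule.subset_span ⟨l, Set.mem_univ _, rfl⟩⟩
      · rw [mem_filter]
        exact ⟨mem_univ _, Submodule.subset_span ⟨l, h2, rfl⟩⟩
      · rw [mem_singleton]
        exact yf_zero hz h1)
    (by
      intro x
      rw [← prod_split]
      apply le_of_eq
      refine Finset.prod_congr rfl fun l _ => ?_
      split_ifs with h1 h2
      · exact card_mem W
      · exact card_mem W'
      · simp)
  replace h : ((univ.filter fun z : S → (U → F) × (J → F) => SmF d m z ∧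
      rs (yf z) Set.univ = W ∧ rs (yf z) {l | l ∉ d.JR} = W').card : ℝ) ≤
      2 ^ (Fintype.card S * Fintype.card U) *
      ((Nat.card W : ℝ) ^ (d.JC ∩ d.JR).card * (Nat.card W' : ℝ) ^ (d.JC \ d.JR).card) := by
    convert h
  have h2 : (Nat.card W' : ℝ) ^ (d.JC \ d.JR).card * 2 ^ (d.JC \ d.JR).card ≤
      (Nat.card W : ℝ) ^ (d.JC \ d.JR).card := by
    rw [← mul_pow]
    exact pow_le_pow_left₀ (by positivity) (cardW_lt hWW) _
  have h3 : (d.JC ∩ d.JR).card + (d.JC \ d.JR).card = d.JC.card := by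
    rw [Nat.add_comm]
    exact Finset.card_sdiff_add_card_inter _ _
  calc _ ≤ (2 ^ (Fintype.card S * Fintype.card U) *
        ((Nat.card W : ℝ) ^ (d.JC ∩ d.JR).card * (Nat.card W' : ℝ) ^ (d.JC \ d.JR).card)) *
          2 ^ (d.JC \ d.JR).card := mul_le_mul_of_nonneg_right h (by positivity)
    _ = 2 ^ (Fintype.card S * Fintype.card U) * ((Nat.card W : ℝ) ^ (d.JC ∩ d.JR).card *
        ((Nat.card W' : ℝ) ^ (d.JC \ d.JR).card * 2 ^ (d.JC \ d.JR).card)) := by ring
    _ ≤ 2 ^ (Fintype.card S * Fintype.card U) * ((Nat.card W : ℝ) ^ (d.JC ∩ d.JR).card *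
        (Nat.card W : ℝ) ^ (d.JC \ d.JR).card) := by gcongr
    _ = _ := by rw [← pow_add, h3]

/-- the degenerate families satisfying only the support conditions and the small rows -/
theorem count0 (d : Dat U J) (m : S → Finset U) :
    ((univ.filter fun z : S → (U → F) × (J → F) => SmF d m z ∧
      rs (yf z) {l | l ∉ d.JR} ≠ ⊤).card : ℝ) * 2 ^ (d.JC \ d.JR).card ≤
    2 ^ Fintype.card S * (2 ^ (Fintype.card S * Fintype.card U) *
      ((2 : ℝ) ^ Fintype.card S) ^ d.JC.card) := by
  -- a union over the vectors `c`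
  have h1 : (univ.filter fun z : S → (U → F) × (J → F) => SmF d m z ∧
      rs (yf z) {l | l ∉ d.JR} ≠ ⊤) ⊆ (univ.filter fun c : S → F => c ≠ 0).biUnion fun c =>
        univ.filter fun z : S → (U → F) × (J → F) => SmF d m z ∧
          ∀ l, l ∉ d.JR → dp c (yf z l) = 0 := by
    intro z hz
    rw [mem_filter] at hz
    obtain ⟨c, hc, hc2⟩ := exists_orth hz.2.2
    rw [mem_biUnion]
    refine ⟨c, mem_filter.2 ⟨mem_univ _, hc⟩, mem_filter.2 ⟨mem_univ _, hz.2.1, fun l hl => ?_⟩⟩
    exact hc2 _ (Submodule.subset_span ⟨l, hl, rfl⟩)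
  have h2 : ∀ c : S → F, c ≠ 0 → ((univ.filter fun z : S → (U → F) × (J → F) => SmF d m z ∧
          ∀ l, l ∉ d.JR → dp c (yf z l) = 0).card : ℝ) * 2 ^ (d.JC \ d.JR).card ≤
        2 ^ (Fintype.card S * Fintype.card U) * ((2 : ℝ) ^ Fintype.card S) ^ d.JC.card := by
    intro c hc
    have hhalf : ((univ.filter fun w : S → F => dp c w = 0).card : ℝ) * 2 ≤
        2 ^ Fintype.card S := by
      have h3 := half (S := S) ⊤ c 0 (by
        by_contra hcon
        push Not at hcon
        apply hc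
        funext s
        have := hcon (Pi.single s 1) Submodule.mem_top
        unfold dp at this
        simpa [Pi.single_apply] using this)
      have h4 : (univ.filter fun w : S → F => w ∈ (⊤ : Submodule F (S → F)) ∧ dp c w = 0) =
          univ.filter fun w : S → F => dp c w = 0 := by
        ext w
        simp
      rw [h4] at h3
      exact h3.trans (cardW_le _)
    have h := cnt_le (U := U) (J := J) (S := S) (fun z => SmF d m z ∧
          ∀ l, l ∉ d.JR → dp c (yf z l) = 0)
      (fun _ l => if l ∈ d.JC then (if l ∈ d.JR then univ else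
        univ.filter (fun w => dp c w = 0)) else {0})
      (((2 : ℝ) ^ Fintype.card S) ^ (d.JC ∩ d.JR).card *
        ((univ.filter fun w : S → F => dp c w = 0).card : ℝ) ^ (d.JC \ d.JR).card)
      (by
        rintro z ⟨hz, hz2⟩ l
        split_ifs with h1 h2
        · exact mem_univ _
        · exact mem_filter.2 ⟨mem_univ _, hz2 l h2⟩
        · rw [mem_singleton]
          exact yf_zero hz h1)
      (by
        intro x
        rw [← prod_split]
        apply le_of_eq
        refine Finset.prod_congr rfl fun l _ => ?_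
        split_ifs with h1 h2
        · rw [card_univ, Fintype.card_fun, ZMod.card]
          push_cast
          rfl
        · rfl
        · simp)
    replace h : ((univ.filter fun z : S → (U → F) × (J → F) => SmF d m z ∧
          ∀ l, l ∉ d.JR → dp c (yf z l) = 0).card : ℝ) ≤ 2 ^ (Fintype.card S * Fintype.card U) *
          (((2 : ℝ) ^ Fintype.card S) ^ (d.JC ∩ d.JR).card *
          ((univ.filter fun w : S → F => dp c w = 0).card : ℝ) ^ (d.JC \ d.JR).card) := by
      convert h
    have h3 : (d.JC ∩ d.JR).card + (d.JC \ d.JR).card = d.JC.card := by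
      rw [Nat.add_comm]
      exact Finset.card_sdiff_add_card_inter _ _
    have h4 : ((univ.filter fun w : S → F => dp c w = 0).card : ℝ) ^ (d.JC \ d.JR).card *
        2 ^ (d.JC \ d.JR).card ≤ ((2 : ℝ) ^ Fintype.card S) ^ (d.JC \ d.JR).card := by
      rw [← mul_pow]
      exact pow_le_pow_left₀ (by positivity) hhalf _
    calc _ ≤ (2 ^ (Fintype.card S * Fintype.card U) *
          (((2 : ℝ) ^ Fintype.card S) ^ (d.JC ∩ d.JR).card *
          ((univ.filter fun w : S → F => dp c w = 0).card : ℝ) ^ (d.JC \ d.JR).card)) *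
            2 ^ (d.JC \ d.JR).card := mul_le_mul_of_nonneg_right h (by positivity)
      _ = 2 ^ (Fintype.card S * Fintype.card U) * (((2 : ℝ) ^ Fintype.card S) ^ (d.JC ∩ d.JR).card *
          (((univ.filter fun w : S → F => dp c w = 0).card : ℝ) ^ (d.JC \ d.JR).card *
            2 ^ (d.JC \ d.JR).card)) := by ring
      _ ≤ 2 ^ (Fintype.card S * Fintype.card U) * (((2 : ℝ) ^ Fintype.card S) ^ (d.JC ∩ d.JR).card *
          ((2 : ℝ) ^ Fintype.card S) ^ (d.JC \ d.JR).card) := by gcongr
      _ = _ := by rw [← pow_add, h3]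
  have h3 : ((univ.filter fun z : S → (U → F) × (J → F) => SmF d m z ∧
      rs (yf z) {l | l ∉ d.JR} ≠ ⊤).card : ℝ) ≤ ∑ c ∈ univ.filter (fun c : S → F => c ≠ 0),
        ((univ.filter fun z : S → (U → F) × (J → F) => SmF d m z ∧
          ∀ l, l ∉ d.JR → dp c (yf z l) = 0).card : ℝ) := by
    have := (card_le_card h1).trans card_biUnion_le
    exact_mod_cast this
  calc _ ≤ (∑ c ∈ univ.filter (fun c : S → F => c ≠ 0),
        ((univ.filter fun z : S → (U → F) × (J → F) => SmF d m z ∧
          ∀ l, l ∉ d.JR → dp c (yf z l) = 0).card : ℝ)) * 2 ^ (d.JC \ d.JR).card :=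
        mul_le_mul_of_nonneg_right h3 (by positivity)
    _ ≤ ∑ c ∈ univ.filter (fun c : S → F => c ≠ 0), (2 ^ (Fintype.card S * Fintype.card U) *
        ((2 : ℝ) ^ Fintype.card S) ^ d.JC.card) := by
        rw [Finset.sum_mul]
        exact Finset.sum_le_sum fun c hc => h2 c (mem_filter.1 hc).2
    _ ≤ _ := by
        rw [Finset.sum_const, nsmul_eq_mul]
        apply mul_le_mul_of_nonneg_right _ (by positivity)
        have h4 : (univ.filter (fun c : S → F => c ≠ 0)).card ≤ 2 ^ Fintype.card S := by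
          refine (card_filter_le _ _).trans (le_of_eq ?_)
          rw [card_univ, Fintype.card_fun, ZMod.card]
        exact_mod_cast h4

theorem count1T (d : Dat U J) (m : S → Finset U) {W W' : Submodule F (S → F)} (hWW : W' < W)
    (T : Finset (S → (U → F) × (J → F)))
    (hT : ∀ z ∈ T, SmF d m z ∧ rs (yf z) Set.univ = W ∧ rs (yf z) {l | l ∉ d.JR} = W') :
    (T.card : ℝ) * 2 ^ (d.JC \ d.JR).card ≤
    2 ^ (Fintype.card S * Fintype.card U) * (Nat.card W : ℝ) ^ d.JC.card := by
  refine le_trans ?_ (count1 d m hWW)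
  have h := card_le_card (fun z hz => mem_filter.2 ⟨mem_univ z, hT z hz⟩ :
    T ⊆ univ.filter fun z : S → (U → F) × (J → F) => SmF d m z ∧ rs (yf z) Set.univ = W ∧
      rs (yf z) {l | l ∉ d.JR} = W')
  have h' := (Nat.cast_le (α := ℝ)).2 h
  exact mul_le_mul_of_nonneg_right h' (by positivity)

theorem count0T (d : Dat U J) (m : S → Finset U) (T : Finset (S → (U → F) × (J → F)))
    (hT : ∀ z ∈ T, SmF d m z ∧ rs (yf z) {l | l ∉ d.JR} ≠ ⊤) :
    (T.card : ℝ) * 2 ^ (d.JC \ d.JR).card ≤
    2 ^ Fintype.card S * (2 ^ (Fintype.card S * Fintype.card U) *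
      ((2 : ℝ) ^ Fintype.card S) ^ d.JC.card) := by
  refine le_trans ?_ (count0 d m)
  have h := card_le_card (fun z hz => mem_filter.2 ⟨mem_univ z, hT z hz⟩ :
    T ⊆ univ.filter fun z : S → (U → F) × (J → F) => SmF d m z ∧
      rs (yf z) {l | l ∉ d.JR} ≠ ⊤)
  have h' := (Nat.cast_le (α := ℝ)).2 h
  exact mul_le_mul_of_nonneg_right h' (by positivity)

end

end Pool.Agent.NH4.PJ.Mom
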