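import Pool.Agent.NH4.PJ.MomC

/-!
# Project PJ: the mixed moments, part D: the second case
-/

set_option autoImplicit false
set_option linter.unusedSectionVars false
set_option linter.unusedVariables false

open scoped Classical

namespace Pool.Agent.NH4.PJ.Mom

open Finset Module
open Pool.Agent.Y703.CQ (prs)
open Pool.Agent.NH5.PR (ex2)

section

variable {S : Type} [Fintype S]

/-- the elements of a subspace -/
noncomputable def Wf (W : Submodule F (S → F)) : Finset (S → F) := univ.filter fun w => w ∈ W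

/-- the elements of a subspace with a given scalar product -/
noncomputable def Hf (W : Submodule F (S → F)) (c : S → F) (b : F) : Finset (S → F) :=
  univ.filter fun w => w ∈ W ∧ dp c w = b

theorem mem_Wf {W : Submodule F (S → F)} {w : S → F} : w ∈ Wf W ↔ w ∈ W := by
  unfold Wf
  rw [mem_filter]
  exact ⟨fun h => h.2, fun h => ⟨mem_univ _, h⟩⟩

theorem mem_Hf {W : Submodule F (S → F)} {c : S → F} {b : F} {w : S → F} :
    w ∈ Hf W c b ↔ w ∈ W ∧ dp c w = b := by
  unfold Hf
  rw [mem_filter]
  exact ⟨fun h => h.2, fun h => ⟨mem_univ _, h⟩⟩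

theorem card_Wf (W : Submodule F (S → F)) : ((Wf W).card : ℝ) = Nat.card W := card_mem W

theorem card_Hf (W : Submodule F (S → F)) (c : S → F) (b : F) (h : ∃ w ∈ W, dp c w ≠ 0) :
    ((Hf W c b).card : ℝ) * 2 ≤ Nat.card W := half W c b h

end

section

variable {U J : Type} [Fintype U] [Fintype J] [LinearOrder J]

theorem exists_al {S : Type} {d : Dat U J} {m : S → Finset U} {z : S → (U → F) × (J → F)}
    (h : Az d m z ≠ 0) : ∃ α : prs (univ : Finset J) → F, ∀ s, Lrg d (m s) α (z s).1 (z s).2 := by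
  unfold Az at h
  rw [Finset.card_ne_zero] at h
  obtain ⟨α, hα⟩ := h
  exact ⟨α, (mem_filter.1 hα).2⟩

end

section

variable {U J : Type} [Fintype U] [Fintype J] [LinearOrder J] {M : ℕ}

/-- the blocks which occur in a vector -/
noncomputable def Ib (k : Fin M → ℕ) (c : Ix k → F) : Finset (Fin M) :=
  univ.filter fun i => ∃ a, c ⟨i, a⟩ ≠ 0

/-- the sum of the coefficients of a large row over a mask -/
def lab (d : Dat U J) (m : Fin M → Finset U) (l : J) (i : Fin M) : F := ∑ u ∈ m i, d.C l u

/-- the vector of a large row -/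
def cl (d : Dat U J) (m : Fin M → Finset U) (k : Fin M → ℕ) (c : Ix k → F) (l : J) : Ix k → F :=
  fun s => c s * lab d m l s.1

/-- the constant of a large row -/
def bl (d : Dat U J) (m : Fin M → Finset U) (k : Fin M → ℕ) (c : Ix k → F) (l : J)
    (x : Ix k → U → F) : F := ∑ s, c s * ∑ u ∈ m s.1, d.C l u * x s u

/-- a linear combination of the large rows -/
theorem comb (d : Dat U J) (m : Fin M → Finset U) (k : Fin M → ℕ) (c : Ix k → F)
    {z : Ix k → (U → F) × (J → F)} {α : prs (univ : Finset J) → F}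
    (hα : ∀ s, Lrg d (m s.1) α (z s).1 (z s).2) (hc : ∀ l, dp c (yf z l) = 0) {l : J}
    (hl : l ∈ d.JR) : dp (cl d m k c l) (yf z l) = bl d m k c l (xf z) := by
  have h1 : ∑ s, c s * (∑ u ∈ m s.1, d.C l u * ((z s).1 u + (z s).2 l) +
      ∑ l', ex2 d.t α l l' * ((z s).2 l' + (z s).2 l) + d.g l * (z s).2 l) = 0 := by
    refine Finset.sum_eq_zero fun s _ => ?_
    rw [hα s l hl, mul_zero]
  have h2 : ∑ s, c s * (∑ u ∈ m s.1, d.C l u * ((z s).1 u + (z s).2 l) +
      ∑ l', ex2 d.t α l l' * ((z s).2 l' + (z s).2 l) + d.g l * (z s).2 l) =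
      (bl d m k c l (xf z) + dp (cl d m k c l) (yf z l)) +
      (∑ l', ex2 d.t α l l' * (dp c (yf z l') + dp c (yf z l))) + d.g l * dp c (yf z l) := by
    unfold bl dp cl lab xf yf
    have e1 : ∀ s : Ix k, c s * (∑ u ∈ m s.1, d.C l u * ((z s).1 u + (z s).2 l) +
        ∑ l', ex2 d.t α l l' * ((z s).2 l' + (z s).2 l) + d.g l * (z s).2 l) =
        (c s * ∑ u ∈ m s.1, d.C l u * (z s).1 u) + (c s * ∑ u ∈ m s.1, d.C l u) * (z s).2 l +
        (∑ l', ex2 d.t α l l' * (c s * (z s).2 l' + c s * (z s).2 l)) +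
        d.g l * (c s * (z s).2 l) := by
      intro s
      have e2 : ∑ u ∈ m s.1, d.C l u * ((z s).1 u + (z s).2 l) =
          ∑ u ∈ m s.1, d.C l u * (z s).1 u + (∑ u ∈ m s.1, d.C l u) * (z s).2 l := by
        rw [Finset.sum_mul, ← Finset.sum_add_distrib]
        exact Finset.sum_congr rfl fun u _ => mul_add _ _ _
      have e3 : c s * ∑ l', ex2 d.t α l l' * ((z s).2 l' + (z s).2 l) =
          ∑ l', ex2 d.t α l l' * (c s * (z s).2 l' + c s * (z s).2 l) := by
        rw [Finset.mul_sum]
        refine Finset.sum_congr rfl fun l' _ => by ring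
      rw [e2, mul_add, mul_add, e3]
      ring
    rw [Finset.sum_congr rfl fun s _ => e1 s, Finset.sum_add_distrib, Finset.sum_add_distrib,
      Finset.sum_add_distrib, Finset.sum_comm (s := univ) (t := univ)
        (f := fun (s : Ix k) (l' : J) => ex2 d.t α l l' * (c s * (z s).2 l' + c s * (z s).2 l)),
      ← Finset.mul_sum]
    congr 2
    refine Finset.sum_congr rfl fun l' _ => ?_
    rw [← Finset.mul_sum, Finset.sum_add_distrib]
  rw [h1] at h2
  simp only [hc, add_zero, mul_zero, Finset.sum_const_zero] at h2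
  have h3 : ∀ a b : F, 0 = a + b → b = a := by decide
  exact h3 _ _ h2

theorem count2 (d : Dat U J) (m : Fin M → Finset U) (k : Fin M → ℕ) (δ : Fin M → ℤ)
    (hg : d.Good m δ) (V : ℕ) (hV : ∀ i j, i ≠ j → V ≤ (sepJ d m i j).card)
    {W : Submodule F (Ix k → F)} (hW : W ≠ ⊤) :
    ((univ.filter fun z : Ix k → (U → F) × (J → F) => (SmF d (fun s => m s.1) z ∧ LiF k z) ∧
      rs (yf z) Set.univ = W ∧ Az d (fun s => m s.1) z ≠ 0).card : ℝ) * 2 ^ V ≤
    2 ^ (Fintype.card (Ix k) * Fintype.card U) * (Nat.card W : ℝ) ^ d.JC.card := by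
  obtain ⟨c₁, hc₁, hc₁'⟩ := exists_orth hW
  obtain ⟨c, hc, hmin⟩ := Finset.exists_min_image
    (univ.filter fun c : Ix k → F => c ≠ 0 ∧ ∀ w ∈ W, dp c w = 0) (fun c => (Ib k c).card)
    ⟨c₁, mem_filter.2 ⟨mem_univ _, hc₁, hc₁'⟩⟩
  rw [mem_filter] at hc
  obtain ⟨-, hc0, hcW⟩ := hc
  have hR : (0 : ℝ) ≤ 2 ^ (Fintype.card (Ix k) * Fintype.card U) * (Nat.card W : ℝ) ^ d.JC.card := by
    positivity
  obtain ⟨s₀, hs₀⟩ : ∃ s, c s ≠ 0 := by
    by_contra hcon
    push Not at hcon
    exact hc0 (funext hcon)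
  by_cases hone : ∀ i ∈ Ib k c, i = s₀.1
  · -- one block
    have hemp : (univ.filter fun z : Ix k → (U → F) × (J → F) =>
        (SmF d (fun s => m s.1) z ∧ LiF k z) ∧ rs (yf z) Set.univ = W ∧
          Az d (fun s => m s.1) z ≠ 0) = ∅ := by
      rw [Finset.filter_eq_empty_iff]
      rintro z - ⟨⟨hz1, hz2⟩, hz3, hz4⟩
      obtain ⟨α, hα⟩ := exists_al hz4
      set i := s₀.1 with hi
      set v : (U → F) × (J → F) := ∑ a : Fin (k i), c ⟨i, a⟩ • z ⟨i, a⟩ with hv
      have hvS : v ∈ Sol d (m i) α := by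
        refine Submodule.sum_mem _ fun a _ => Submodule.smul_mem _ _ ?_
        rw [mem_Sol]
        exact ⟨hz1 ⟨i, a⟩, hα ⟨i, a⟩⟩
      have hv0 : v ≠ 0 := by
        intro h0
        have h1 := Fintype.linearIndependent_iff.1 (hz2 i) (fun a => c ⟨i, a⟩) h0 s₀.2
        exact hs₀ h1
      have hdp : ∀ w : Ix k → F, dp c w = ∑ a : Fin (k i), c ⟨i, a⟩ * w ⟨i, a⟩ := by
        intro w
        unfold dp
        rw [Fintype.sum_sigma, Finset.sum_eq_single i]
        · intro j _ hj
          refine Finset.sum_eq_zero fun a _ => ?_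
          have : c ⟨j, a⟩ = 0 := by
            by_contra h
            exact hj (hone j (mem_filter.2 ⟨mem_univ _, a, h⟩))
          rw [this, zero_mul]
        · intro h
          exact absurd (mem_univ _) h
      have hv2 : ∀ l, v.2 l = 0 := by
        intro l
        have h1 : yf z l ∈ W := by
          rw [← hz3]
          exact Submodule.subset_span ⟨l, Set.mem_univ _, rfl⟩
        have h2 := hcW _ h1
        rw [hdp] at h2
        rw [← h2, hv, Prod.snd_sum, Finset.sum_apply]
        refine Finset.sum_congr rfl fun a _ => ?_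
        rfl
      rw [mem_Sol] at hvS
      obtain ⟨⟨b1, b2, b3, b4⟩, b5⟩ := hvS
      have hv1 : ∃ u, v.1 u ≠ 0 := by
        by_contra hcon
        push Not at hcon
        exact hv0 (Prod.ext (funext hcon) (funext hv2))
      obtain ⟨k', hk', -, hk2⟩ := hg.nC v.1 hv1
      apply hk2
      have h5 := b5 k' hk'
      simp only [hv2, add_zero, mul_zero, Finset.sum_const_zero] at h5
      rw [← h5, ← Finset.sum_subset (Finset.subset_univ (m i))]
      · exact Finset.sum_congr rfl fun u _ => mul_comm _ _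
      · intro u _ hu
        rw [b2 u hu, zero_mul]
    have : ((univ.filter fun z : Ix k → (U → F) × (J → F) =>
        (SmF d (fun s => m s.1) z ∧ LiF k z) ∧ rs (yf z) Set.univ = W ∧
          Az d (fun s => m s.1) z ≠ 0).card : ℝ) = 0 := by
      rw [hemp, Finset.card_empty, Nat.cast_zero]
    rw [this, zero_mul]
    exact hR
  · -- two blocks
    push Not at hone
    obtain ⟨j, hj, hji⟩ := hone
    have hi : s₀.1 ∈ Ib k c := mem_filter.2 ⟨mem_univ _, s₀.2, hs₀⟩
    set i := s₀.1 with hi'
    have hsepR : ∀ l ∈ sepJ d m i j, l ∈ d.JR ∧ l ∈ d.JC ∧ lab d m l i + lab d m l j ≠ 0 := by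
      intro l hl
      unfold sepJ at hl
      rw [mem_filter, mem_inter] at hl
      exact ⟨hl.1.1, hl.1.2, hl.2⟩
    have hnon : ∀ l ∈ sepJ d m i j, ∃ w ∈ W, dp (cl d m k c l) w ≠ 0 := by
      intro l hl
      by_contra hcon
      push Not at hcon
      obtain ⟨-, -, h1⟩ := hsepR l hl
      have hsub : Ib k (cl d m k c l) ⊆ Ib k c := by
        intro t ht
        rw [Ib, mem_filter] at ht
        obtain ⟨-, a, ha⟩ := ht
        rw [Ib, mem_filter]
        exact ⟨mem_univ _, a, left_ne_zero_of_mul ha⟩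
      have key : ∀ p q : Fin M, p ∈ Ib k c → q ∈ Ib k c → lab d m l p ≠ 0 → lab d m l q = 0 →
          False := by
        intro p q hp hq hp1 hq0
        obtain ⟨-, a, ha⟩ := mem_filter.1 hp
        have hne : cl d m k c l ≠ 0 := by
          intro h0
          have := congrFun h0 ⟨p, a⟩
          exact (mul_ne_zero ha hp1) this
        have h2 := hmin (cl d m k c l) (mem_filter.2 ⟨mem_univ _, hne, hcon⟩)
        have h3 : Ib k (cl d m k c l) ⊂ Ib k c := by
          refine Finset.ssubset_iff_subset_ne.2 ⟨hsub, fun h => ?_⟩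
          rw [← h] at hq
          obtain ⟨-, a', ha'⟩ := mem_filter.1 hq
          apply ha'
          show c ⟨q, a'⟩ * lab d m l q = 0
          rw [hq0, mul_zero]
        have h4 := Finset.card_lt_card h3
        omega
      rcases eq_or_ne (lab d m l i) 0 with h0 | h0
      · refine key j i hj hi ?_ h0
        intro h2
        rw [h0, h2, add_zero] at h1
        exact h1 rfl
      · rcases eq_or_ne (lab d m l j) 0 with h2 | h2
        · exact key i j hi hj h0 h2
        · apply h1
          rw [f2 h0, f2 h2]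
          decide
    have h := cnt_le (U := U) (J := J) (S := Ix k) (fun z =>
        (SmF d (fun s => m s.1) z ∧ LiF k z) ∧ rs (yf z) Set.univ = W ∧
          Az d (fun s => m s.1) z ≠ 0)
      (fun x l => if l ∈ sepJ d m i j then
          Hf W (cl d m k c l) (bl d m k c l x)
        else if l ∈ d.JC then Wf W else {0})
      ((Nat.card W : ℝ) ^ d.JC.card * (1 / 2) ^ (sepJ d m i j).card)
      (by
        rintro z ⟨⟨hz1, hz2⟩, hz3, hz4⟩ l
        have hyW : ∀ l, yf z l ∈ W := by
          intro l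
          rw [← hz3]
          exact Submodule.subset_span ⟨l, Set.mem_univ _, rfl⟩
        obtain ⟨α, hα⟩ := exists_al hz4
        split_ifs with h1 h2
        · exact mem_Hf.2 ⟨hyW l, comb d m k c hα (fun l => hcW _ (hyW l)) (hsepR l h1).1⟩
        · exact mem_Wf.2 (hyW l)
        · rw [mem_singleton]
          exact yf_zero hz1 h2)
      (by
        intro x
        have e1 : (Nat.card W : ℝ) ^ d.JC.card * (1 / 2) ^ (sepJ d m i j).card =
            ∏ l : J, ((if l ∈ d.JC then (Nat.card W : ℝ) else 1) *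
              (if l ∈ sepJ d m i j then (1 / 2 : ℝ) else 1)) := by
          rw [Finset.prod_mul_distrib, Finset.prod_ite_mem, Finset.prod_ite_mem,
            Finset.univ_inter, Finset.univ_inter, Finset.prod_const, Finset.prod_const]
        rw [e1]
        refine Finset.prod_le_prod (fun l _ => Nat.cast_nonneg _) fun l _ => ?_
        by_cases h1 : l ∈ sepJ d m i j
        · rw [if_pos h1, if_pos h1, if_pos (hsepR l h1).2.1]
          have := card_Hf W (cl d m k c l) (bl d m k c l x) (hnon l h1)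
          linarith
        · rw [if_neg h1, if_neg h1, mul_one]
          by_cases h2 : l ∈ d.JC
          · rw [if_pos h2, if_pos h2]
            exact (card_Wf W).le
          · rw [if_neg h2, if_neg h2]
            simp)
    replace h : ((univ.filter fun z : Ix k → (U → F) × (J → F) =>
        (SmF d (fun s => m s.1) z ∧ LiF k z) ∧ rs (yf z) Set.univ = W ∧
          Az d (fun s => m s.1) z ≠ 0).card : ℝ) ≤
        2 ^ (Fintype.card (Ix k) * Fintype.card U) *
          ((Nat.card W : ℝ) ^ d.JC.card * (1 / 2) ^ (sepJ d m i j).card) := by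
      refine le_trans (le_of_eq ?_) h
      congr
      all_goals (funext a b; exact Subsingleton.elim _ _)
    have hV2 : (1 / 2 : ℝ) ^ (sepJ d m i j).card * 2 ^ V ≤ 1 := by
      have h1 : (1 / 2 : ℝ) ^ (sepJ d m i j).card ≤ (1 / 2) ^ V :=
        pow_le_pow_of_le_one (by norm_num) (by norm_num) (hV i j hji.symm)
      calc _ ≤ (1 / 2 : ℝ) ^ V * 2 ^ V := mul_le_mul_of_nonneg_right h1 (by positivity)
        _ = 1 := by rw [← mul_pow]; norm_num
    calc _ ≤ (2 ^ (Fintype.card (Ix k) * Fintype.card U) *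
          ((Nat.card W : ℝ) ^ d.JC.card * (1 / 2) ^ (sepJ d m i j).card)) * 2 ^ V :=
          mul_le_mul_of_nonneg_right h (by positivity)
      _ = (2 ^ (Fintype.card (Ix k) * Fintype.card U) * (Nat.card W : ℝ) ^ d.JC.card) *
          ((1 / 2) ^ (sepJ d m i j).card * 2 ^ V) := by ring
      _ ≤ _ := mul_le_of_le_one_right hR hV2

end

end Pool.Agent.NH4.PJ.Mom
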